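import Mathlib

/-!
Harada's conjecture for blocks which are isometric to a semidirect product of an abelian `p`-group
and a `p'`-group: definitions.
-/

set_option autoImplicit false

namespace Pool.Agent.Har

/-- the irreducible complex characters -/
def IsIrr {G : Type} [Group G] (χ : G → ℂ) : Prop :=
  ∃ V : FDRep ℂ G, CategoryTheory.Simple V ∧ V.character = χ

/-- Brauer's linkage of irreducible characters: the sum of `χ(g) ψ(g⁻¹)` over the `p`-regular
elements `g` is not zero -/
def Linked {G : Type} [Group G] [Fintype G] (p : ℕ) (χ ψ : G → ℂ) : Prop :=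
  IsIrr χ ∧ IsIrr ψ ∧
    (∑ g ∈ Finset.univ.filter (fun g : G => Nat.Coprime (orderOf g) p), χ g * ψ g⁻¹) ≠ 0

/-- `B` is the set of the irreducible characters of a `p`-block -/
def IsBlock {G : Type} [Group G] [Fintype G] (p : ℕ) (B : Finset (G → ℂ)) : Prop :=
  ∃ χ₀ : G → ℂ, IsIrr χ₀ ∧ ∀ χ : G → ℂ, χ ∈ B ↔ Relation.ReflTransGen (Linked p) χ₀ χ

/-- class functions -/
def IsClass {G : Type} [Group G] (f : G → ℂ) : Prop := ∀ g h : G, f (h * g * h⁻¹) = f g

/-- functions vanishing on the `p`-singular elements -/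
def VanSing {G : Type} [Group G] (p : ℕ) (f : G → ℂ) : Prop := ∀ g : G, p ∣ orderOf g → f g = 0

/-- convolution -/
noncomputable def conv {G : Type} [Group G] [Fintype G] (u v : G → ℂ) (g : G) : ℂ :=
  ∑ k : G, u k * v (k⁻¹ * g)

section

variable {D E : Type} [CommGroup D] [Group E] (φ : E →* MulAut D)

/-- the commutator subgroup `[D, x]` of the automorphism `φ x` of `D` -/
def Dx (x : E) : Subgroup D where
  carrier := {a | ∃ d : D, φ x d * d⁻¹ = a}
  one_mem' := ⟨1, by simp⟩
  mul_mem' := by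
    rintro _ _ ⟨d, rfl⟩ ⟨e, rfl⟩
    refine ⟨d * e, ?_⟩
    rw [map_mul, mul_inv]
    exact mul_mul_mul_comm _ _ _ _
  inv_mem' := by
    rintro _ ⟨d, rfl⟩
    refine ⟨d⁻¹, ?_⟩
    rw [map_inv, mul_inv]

/-- the stabilizer in `E` of a linear character of `D` -/
def stab (l : D →* ℂˣ) : Subgroup E where
  carrier := {y | ∀ d : D, l (φ y d) = l d}
  one_mem' := by intro d; simp
  mul_mem' := by
    intro a b ha hb d
    rw [map_mul, MulAut.mul_apply]
    exact (ha _).trans (hb d)
  inv_mem' := by
    intro a ha d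
    have := ha (φ a⁻¹ d)
    rw [← this, ← MulAut.mul_apply, ← map_mul, mul_inv_cancel, map_one, MulAut.one_apply]

/-- the condition on the action of `E` on `D`: for every `x` in `E` there is a linear character `l`
of `D` fixed by `x`, such that `[D, y] ⊆ [D, x]` for all `y` in the stabilizer of `l`, and, if
`x ≠ 1`, the stabilizer of `l` has less than `|[D, x]|` elements -/
def Cond : Prop :=
  ∀ x : E, ∃ l : D →* ℂˣ, x ∈ stab φ l ∧ (∀ y ∈ stab φ l, Dx φ y ≤ Dx φ x) ∧
    (x ≠ 1 → Nat.card (stab φ l) < Nat.card (Dx φ x))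

end

end Pool.Agent.Har
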