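import Mathlib
import Pool.Agent.W_02e251_h65.Defs

/-!
Irreducible characters as functions: orthogonality, convolution, averages over subgroups.
-/

set_option autoImplicit false

open Pool.Agent.Har

namespace Pool.Agent.Har

variable {G : Type} [Group G]

/-- characters are class functions (`FDRep.char_conj`) -/
theorem IsIrr.isClass {χ : G → ℂ} (h : IsIrr χ) : IsClass χ := by
  obtain ⟨V, _, rfl⟩ := h
  intro g h
  exact FDRep.char_conj V g h

/-- the degree is a positive natural number (`FDRep.char_one`; a simple object is not zero) -/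
theorem IsIrr.degree {χ : G → ℂ} (h : IsIrr χ) : ∃ n : ℕ, 0 < n ∧ χ 1 = (n : ℂ) := by
  obtain ⟨V, hV, rfl⟩ := h
  refine ⟨Module.finrank ℂ V, ?_, FDRep.char_one V⟩
  rcases Nat.eq_zero_or_pos (Module.finrank ℂ V) with h0 | h0
  · exfalso
    have hs : Subsingleton V := Module.finrank_zero_iff.mp h0
    have h1 : Module.finrank ℂ (Representation.invariants (Representation.linHom V.ρ V.ρ)) = 1 := by
      have h2 := FDRep.finrank_hom_simple_simple V V
      rw [if_pos ⟨CategoryTheory.Iso.refl V⟩] at h2
      rw [← h2]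
      exact LinearEquiv.finrank_eq (Representation.linHom.invariantsEquivFDRepHom V V)
    have h3 : Subsingleton (Representation.invariants (Representation.linHom V.ρ V.ρ)) := by
      constructor
      intro a b
      apply Subtype.ext
      apply LinearMap.ext
      intro x
      exact Subsingleton.elim _ _
    have h4 := Module.finrank_zero_of_subsingleton (R := ℂ)
      (M := Representation.invariants (Representation.linHom V.ρ V.ρ))
    omega
  · exact h0

theorem CharA_trace_integral {ι : Type} [Fintype ι] [DecidableEq ι] (T : Matrix ι ι ℂ) (n : ℕ)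
    (hn : 0 < n) (hT : T ^ (n + 1) = T) : IsIntegral ℤ T.trace := by
  rw [Matrix.trace_eq_sum_roots_charpoly]
  refine IsIntegral.multiset_sum fun μ hμ => ?_
  have h1 : μ ∈ spectrum ℂ T :=
    Matrix.mem_spectrum_of_isRoot_charpoly (Polynomial.isRoot_of_mem_roots hμ)
  have h2 : Polynomial.eval μ (Polynomial.X ^ (n + 1) - Polynomial.X : Polynomial ℂ) ∈
      spectrum ℂ (Polynomial.aeval T (Polynomial.X ^ (n + 1) - Polynomial.X : Polynomial ℂ)) :=
    spectrum.subset_polynomial_aeval T _ ⟨μ, h1, rfl⟩
  have h3 : Polynomial.aeval T (Polynomial.X ^ (n + 1) - Polynomial.X : Polynomial ℂ) = 0 := by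
    rw [map_sub, map_pow, Polynomial.aeval_X, hT, sub_self]
  rw [h3] at h2
  have h4 : μ ^ (n + 1) = μ := by
    rcases subsingleton_or_nontrivial (Matrix ι ι ℂ) with hs | hs
    · rw [spectrum.of_subsingleton] at h2
      exact h2.elim
    · rw [spectrum.zero_eq, Set.mem_singleton_iff, Polynomial.eval_sub, Polynomial.eval_pow,
        Polynomial.eval_X, sub_eq_zero] at h2
      exact h2
  refine ⟨Polynomial.X ^ (n + 1) - Polynomial.X, ?_, ?_⟩
  · refine Polynomial.monic_X_pow_sub ?_
    rw [Polynomial.degree_X]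
    have h5 : 1 < n + 1 := by omega
    exact_mod_cast h5
  · rw [Polynomial.eval₂_sub, Polynomial.eval₂_X_pow, Polynomial.eval₂_X, h4, sub_self]

/-- character values are algebraic integers: the trace of `T` with `T ^ n = 1` is the sum of the
eigenvalues, which are roots of unity (the same argument as `trace_integral` in `Idem.lean`, which
is not imported here: prove it or copy the argument) -/
theorem IsIrr.integral [Finite G] {χ : G → ℂ} (h : IsIrr χ) (g : G) : IsIntegral ℤ (χ g) := by
  obtain ⟨V, _, rfl⟩ := h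
  change IsIntegral ℤ (LinearMap.trace ℂ V (V.ρ g))
  rw [LinearMap.trace_eq_matrix_trace ℂ (Module.finBasis ℂ V)]
  refine CharA_trace_integral _ (orderOf g) (orderOf_pos g) ?_
  rw [LinearMap.toMatrix_pow, ← map_pow, pow_succ, pow_orderOf_eq_one, one_mul]

open scoped Classical in
/-- first orthogonality relation (`FDRep.char_orthonormal`): if `V ≅ W` the characters are equal; if
`V, W` are not isomorphic the sum is zero, and then the characters are different since the sum for
`V, V` is `|G| ≠ 0` -/
theorem IsIrr.orth [Fintype G] {χ ψ : G → ℂ} (hχ : IsIrr χ) (hψ : IsIrr ψ) :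
    ∑ g : G, χ g * ψ g⁻¹ = if χ = ψ then (Fintype.card G : ℂ) else 0 := by
  obtain ⟨V, hV, rfl⟩ := hχ
  obtain ⟨W, hW, rfl⟩ := hψ
  have hc : (Nat.card G : ℂ) ≠ 0 := by
    rw [Nat.card_eq_fintype_card]
    exact_mod_cast Fintype.card_ne_zero
  let _inst : Invertible (Nat.card G : ℂ) := invertibleOfNonzero hc
  have h1 := FDRep.char_orthonormal V W
  have h2 := FDRep.char_orthonormal V V
  rw [if_pos ⟨CategoryTheory.Iso.refl V⟩] at h2
  rw [← Nat.card_eq_fintype_card]
  by_cases hi : Nonempty (V ≅ W)
  · rw [if_pos hi] at h1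
    rw [if_pos (FDRep.char_iso hi.some)]
    rw [inv_mul_eq_iff_eq_mul₀ hc, mul_one] at h1
    exact h1
  · rw [if_neg hi] at h1
    rw [inv_mul_eq_iff_eq_mul₀ hc, mul_zero] at h1
    rw [if_neg]
    · exact h1
    · intro he
      rw [← he] at h1
      rw [h1, mul_zero] at h2
      exact zero_ne_one h2

open scoped Classical in
/-- convolution of irreducible characters: `ψ` is the character of a simple `V` with representation
`ρ`; the operator `T = ∑ k, χ k • ρ k⁻¹` commutes with all `ρ g` as `χ` is a class function, so it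
is a scalar (Schur: `CategoryTheory.endomorphism_simple_eq_smul_id`, or
`Representation.IsIrreducible`), with `(scalar) * ψ 1 = trace T = ∑ χ k * ψ k⁻¹` which is given by
`IsIrr.orth`, and `conv χ ψ g = trace (T ∘ ρ g) = scalar * ψ g` -/
theorem IsIrr.conv_eq [Fintype G] {χ ψ : G → ℂ} (hχ : IsIrr χ) (hψ : IsIrr ψ) :
    conv χ ψ = if χ = ψ then (fun g => (Fintype.card G : ℂ) / χ 1 * χ g) else 0 := by
  obtain ⟨W, hW, hψW⟩ := id hψ
  have hcl : IsClass χ := hχ.isClass
  obtain ⟨T, hT⟩ : ∃ T : W →ₗ[ℂ] W, T = ∑ k : G, χ k • (W.ρ k⁻¹ : W →ₗ[ℂ] W) := ⟨_, rfl⟩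
  have hTinv : T ∈ Representation.invariants (Representation.linHom W.ρ W.ρ) := by
    rw [Representation.mem_invariants]
    intro g
    rw [Representation.linHom_apply, hT]
    change (W.ρ g : Module.End ℂ W) * ((∑ k : G, χ k • (W.ρ k⁻¹ : Module.End ℂ W)) *
      (W.ρ g⁻¹ : Module.End ℂ W)) = ∑ k : G, χ k • (W.ρ k⁻¹ : Module.End ℂ W)
    rw [Finset.sum_mul, Finset.mul_sum]
    refine Fintype.sum_equiv (MulAut.conj g).toEquiv _ _ fun k => ?_
    have h1 : χ ((MulAut.conj g).toEquiv k) = χ k := by
      have := hcl k g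
      simpa [MulAut.conj_apply] using this
    rw [h1, smul_mul_assoc, mul_smul_comm]
    congr 1
    have h2 : ((MulAut.conj g).toEquiv k)⁻¹ = g * (k⁻¹ * g⁻¹) := by
      simp [MulAut.conj_apply, mul_assoc]
    rw [h2, map_mul, map_mul]
  have hid : (LinearMap.id : W →ₗ[ℂ] W) ∈
      Representation.invariants (Representation.linHom W.ρ W.ρ) := by
    rw [Representation.mem_invariants]
    intro g
    rw [Representation.linHom_apply, LinearMap.id_comp]
    change W.ρ g * W.ρ g⁻¹ = 1
    rw [← map_mul, mul_inv_cancel, map_one]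
  have hfr : Module.finrank ℂ (Representation.invariants (Representation.linHom W.ρ W.ρ)) = 1 := by
    have h2 := FDRep.finrank_hom_simple_simple W W
    rw [if_pos ⟨CategoryTheory.Iso.refl W⟩] at h2
    rw [← h2]
    exact LinearEquiv.finrank_eq (Representation.linHom.invariantsEquivFDRepHom W W)
  obtain ⟨n, hn, hn1⟩ := hψ.degree
  have hn2 : (Module.finrank ℂ W : ℂ) = n := by
    rw [← hn1, ← hψW, FDRep.char_one]
  have hn3 : Module.finrank ℂ W = n := by exact_mod_cast hn2
  have hid0 : (⟨LinearMap.id, hid⟩ :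
      Representation.invariants (Representation.linHom W.ρ W.ρ)) ≠ 0 := by
    intro h0
    have h1 : (LinearMap.id : W →ₗ[ℂ] W) = 0 := congrArg Subtype.val h0
    have h2 : LinearMap.trace ℂ W LinearMap.id = 0 := by rw [h1, map_zero]
    rw [LinearMap.trace_id, hn3] at h2
    have h3 : n = 0 := by exact_mod_cast h2
    omega
  obtain ⟨c, hc⟩ := (finrank_eq_one_iff_of_nonzero' _ hid0).mp hfr ⟨T, hTinv⟩
  have hcT : T = c • (LinearMap.id : W →ₗ[ℂ] W) := (congrArg Subtype.val hc).symm
  have hconv : ∀ g, conv χ ψ g = c * ψ g := by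
    intro g
    have h1 : LinearMap.trace ℂ W (T ∘ₗ W.ρ g) = c * ψ g := by
      rw [hcT, LinearMap.smul_comp, LinearMap.id_comp, map_smul, smul_eq_mul, ← hψW]
      rfl
    rw [← h1, hT]
    change _ = LinearMap.trace ℂ W ((∑ k : G, χ k • (W.ρ k⁻¹ : Module.End ℂ W)) *
      (W.ρ g : Module.End ℂ W))
    rw [Finset.sum_mul, map_sum]
    unfold conv
    refine Finset.sum_congr rfl fun k _ => ?_
    rw [smul_mul_assoc, map_smul, smul_eq_mul, ← hψW]
    congr 1
    change LinearMap.trace ℂ W (W.ρ (k⁻¹ * g)) = _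
    rw [map_mul]
  have hc1 : c * n = ∑ g : G, χ g * ψ g⁻¹ := by
    rw [← hn1, ← hconv 1]
    unfold conv
    refine Finset.sum_congr rfl fun k _ => ?_
    rw [mul_one]
  rw [hχ.orth hψ] at hc1
  have hn0 : (n : ℂ) ≠ 0 := by
    have : n ≠ 0 := by omega
    exact_mod_cast this
  by_cases he : χ = ψ
  · rw [if_pos he] at hc1
    rw [if_pos he]
    funext g
    rw [hconv g, he, hn1, ← hc1]
    field_simp
  · rw [if_neg he] at hc1
    rw [if_neg he]
    funext g
    have hc0 : c = 0 := by
      rcases mul_eq_zero.mp hc1 with h | h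
      · exact h
      · exact absurd h hn0
    rw [hconv g, hc0, zero_mul]
    rfl

/-- the average of a character over a subgroup is a natural number (the dimension of the invariants,
`Representation.card_inv_mul_sum_char_eq_finrank` for the restriction of the representation) -/
theorem IsIrr.average [Fintype G] {χ : G → ℂ} (h : IsIrr χ) (P : Subgroup G) [Fintype P] :
    ∃ m : ℕ, ∑ g : P, χ g = (Fintype.card P : ℂ) * m := by
  obtain ⟨V, _, rfl⟩ := h
  have hc : (Nat.card P : ℂ) ≠ 0 := by
    rw [Nat.card_eq_fintype_card]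
    exact_mod_cast Fintype.card_ne_zero
  let _inst : Invertible (Nat.card P : ℂ) := invertibleOfNonzero hc
  have h1 := Representation.card_inv_mul_sum_char_eq_finrank
    (ρ := ((V.ρ : G →* V →ₗ[ℂ] V).comp P.subtype : Representation ℂ P V))
  refine ⟨Module.finrank ℂ (Representation.invariants
    ((V.ρ : G →* V →ₗ[ℂ] V).comp P.subtype : Representation ℂ P V)), ?_⟩
  rw [← Nat.card_eq_fintype_card, ← h1, mul_inv_cancel_left₀ hc]
  rfl

end Pool.Agent.Har
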