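import Mathlib
import Pool.Agent.W_02e251_h65.Defs
import Pool.Agent.W_02e251_h65.CharA

/-!
Completeness of the irreducible characters.
-/

set_option autoImplicit false

open Pool.Agent.Har

namespace Pool.Agent.Har

variable {G : Type} [Group G] [Fintype G]

open scoped Classical in
theorem CharB_aux1 {V : Type} [AddCommGroup V] [Module ℂ V] [FiniteDimensional ℂ V]
    (ρ : Representation ℂ G V) [ρ.IsIrreducible] : IsIrr ρ.character := by
  have hc : (Nat.card G : ℂ) ≠ 0 := by
    have : Nat.card G ≠ 0 := Nat.card_pos.ne'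
    exact_mod_cast this
  let _ : Invertible (Nat.card G : ℂ) := invertibleOfNonzero hc
  refine ⟨FDRep.of ρ, ?_, rfl⟩
  rw [FDRep.simple_iff_char_is_norm_one]
  have h := Representation.char_orthonormal ρ ρ
  rw [if_pos ⟨Representation.Equiv.refl ρ⟩] at h
  have h2 : ∑ g : G, ρ.character g * ρ.character g⁻¹ = (Nat.card G : ℂ) := by
    have := congrArg (fun z => (Nat.card G : ℂ) * z) h
    simp only [← mul_assoc, mul_inv_cancel₀ hc, one_mul, mul_one] at this
    exact this
  exact h2

theorem CharB_aux2 {V : Type} [AddCommGroup V] [Module ℂ V] [FiniteDimensional ℂ V]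
    (ρ : Representation ℂ G V) [ρ.IsIrreducible] (f : G → ℂ) (hf : IsClass f)
    (h : ∑ g, f g * ρ.character g⁻¹ = 0) : ∑ g, f g • ρ g⁻¹ = 0 := by
  set T : V →ₗ[ℂ] V := ∑ g, f g • ρ g⁻¹ with hTdef
  have hT : ∀ k : G, T ∘ₗ ρ k = ρ k ∘ₗ T := by
    intro k
    have h1 : T ∘ₗ ρ k = ∑ g, f g • ρ (g⁻¹ * k) := by
      show T * ρ k = _
      rw [hTdef, Finset.sum_mul]
      refine Finset.sum_congr rfl fun g _ => ?_
      rw [smul_mul_assoc, map_mul]
    have h2 : ρ k ∘ₗ T = ∑ g, f g • ρ (k * g⁻¹) := by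
      show ρ k * T = _
      rw [hTdef, Finset.mul_sum]
      refine Finset.sum_congr rfl fun g _ => ?_
      rw [mul_smul_comm, map_mul]
    rw [h1, h2]
    refine Fintype.sum_equiv (MulAut.conj k⁻¹).toEquiv _ _ fun g => ?_
    show f g • ρ (g⁻¹ * k) = f (k⁻¹ * g * k⁻¹⁻¹) • ρ (k * (k⁻¹ * g * k⁻¹⁻¹)⁻¹)
    rw [hf]
    congr 2
    group
  let T' : Representation.IntertwiningMap ρ ρ := ⟨T, hT⟩
  obtain ⟨c, hc⟩ :=
    (Representation.IsIrreducible.algebraMap_intertwiningMap_bijective_of_isAlgClosed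
      (ρ := ρ) (k := ℂ)).2 T'
  have hTc : T = c • LinearMap.id := by
    have := congrArg (fun u : Representation.IntertwiningMap ρ ρ => u.toLinearMap) hc
    exact this.symm
  have htr : LinearMap.trace ℂ V T = 0 := by
    rw [hTdef, map_sum, ← h]
    refine Finset.sum_congr rfl fun g _ => ?_
    rw [map_smul]; rfl
  rw [hTc, map_smul, LinearMap.trace_id, smul_eq_mul, mul_eq_zero] at htr
  rcases htr with h0 | h0
  · rw [hTc, h0, zero_smul]
  · have hfr : Module.finrank ℂ V = 0 := by exact_mod_cast h0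
    have : Subsingleton V := Module.finrank_zero_iff.1 hfr
    exact LinearMap.ext fun v => Subsingleton.elim _ _


theorem CharB_aux3 (f : G → ℂ) (hf : IsClass f)
    (h : ∀ χ : G → ℂ, IsIrr χ → ∑ g : G, f g * χ g⁻¹ = 0) (n : ℕ) :
    ∀ (V : Type) [AddCommGroup V] [Module ℂ V] [FiniteDimensional ℂ V]
      (ρ : Representation ℂ G V), Module.finrank ℂ V < n → ∀ v : V, ∑ g, f g • ρ g⁻¹ v = 0 := by
  have hc : (Nat.card G : ℂ) ≠ 0 := by
    have : Nat.card G ≠ 0 := Nat.card_pos.ne'
    exact_mod_cast this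
  have : NeZero (Nat.card G : ℂ) := ⟨hc⟩
  induction n with
  | zero => intro V _ _ _ ρ hn; omega
  | succ n ih =>
    intro V _ _ _ ρ hn v
    by_cases hirr : ρ.IsIrreducible
    · have h1 := CharB_aux2 ρ f hf (h _ (CharB_aux1 ρ))
      have h2 := congrArg (fun u : V →ₗ[ℂ] V => u v) h1
      simpa [LinearMap.sum_apply] using h2
    rcases subsingleton_or_nontrivial V with hV | hV
    · exact Subsingleton.elim _ _
    have hnt : Nontrivial (Subrepresentation ρ) := by
      refine ⟨⟨⊥, ⊤, fun he => ?_⟩⟩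
      have h3 : (⊥ : Submodule ℂ V) = ⊤ :=
        congrArg Subrepresentation.toSubmodule he
      exact bot_ne_top h3
    obtain ⟨W, hW1, hW2⟩ : ∃ W : Subrepresentation ρ, W ≠ ⊥ ∧ W ≠ ⊤ := by
      by_contra hcon
      push Not at hcon
      refine hirr ⟨fun W => ?_⟩
      by_cases hb : W = ⊥
      · exact Or.inl hb
      · exact Or.inr (hcon W hb)
    obtain ⟨W', hWW'⟩ := exists_isCompl W
    have hlt : ∀ X : Subrepresentation ρ, X ≠ ⊤ →
        ∀ w ∈ X.toSubmodule, ∑ g, f g • ρ g⁻¹ w = 0 := by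
      intro X hX w hw
      have hX' : X.toSubmodule ≠ ⊤ := fun he => hX (by
        apply Subrepresentation.toSubmodule_injective
        exact he)
      have h4 : Module.finrank ℂ X.toSubmodule < Module.finrank ℂ V :=
        Submodule.finrank_lt hX'
      have h5 := ih X.toSubmodule X.toRepresentation (by omega) ⟨w, hw⟩
      have h6 := congrArg (Submodule.subtype X.toSubmodule) h5
      rw [map_sum, map_zero] at h6
      exact h6
    have hW'2 : W' ≠ ⊤ := by
      intro he
      apply hW1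
      have := hWW'.inf_eq_bot
      rwa [he, inf_top_eq] at this
    have hsup : W.toSubmodule ⊔ W'.toSubmodule = ⊤ := by
      have := congrArg Subrepresentation.toSubmodule hWW'.sup_eq_top
      exact this
    have hv : v ∈ W.toSubmodule ⊔ W'.toSubmodule := by rw [hsup]; trivial
    obtain ⟨a, ha, b, hb, rfl⟩ := Submodule.mem_sup.1 hv
    have e1 := hlt W hW2 a ha
    have e2 := hlt W' hW'2 b hb
    simp only [map_add, smul_add, Finset.sum_add_distrib, e1, e2, add_zero]

/-- the left regular representation on functions -/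
noncomputable def CharB_reg : Representation ℂ G (G → ℂ) where
  toFun g :=
    { toFun := fun F x => F (g⁻¹ * x)
      map_add' := fun _ _ => rfl
      map_smul' := fun _ _ => rfl }
  map_one' := by
    ext F x
    simp
  map_mul' := by
    intro a b
    apply LinearMap.ext
    intro F
    funext x
    show F ((a * b)⁻¹ * x) = F (b⁻¹ * (a⁻¹ * x))
    rw [mul_inv_rev, mul_assoc]

/-- finiteness: the irreducible characters are linearly independent (by `IsIrr.orth`) in the
finite-dimensional space `G → ℂ` -/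
theorem irr_finite : {χ : G → ℂ | IsIrr χ}.Finite := by
  have hc : (Fintype.card G : ℂ) ≠ 0 := by
    have : Fintype.card G ≠ 0 := Fintype.card_ne_zero
    exact_mod_cast this
  have hli : LinearIndependent ℂ (fun χ : {χ : G → ℂ | IsIrr χ} => (χ : G → ℂ)) := by
    rw [linearIndependent_iff']
    intro s c hsum i hi
    have h1 : ∀ x : G, ∑ χ ∈ s, c χ * (χ : G → ℂ) x = 0 := by
      intro x
      have := congrFun hsum x
      simpa [Finset.sum_apply] using this
    have h2 : ∑ g : G, (∑ χ ∈ s, c χ * (χ : G → ℂ) g) * (i : G → ℂ) g⁻¹ = 0 := by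
      refine Finset.sum_eq_zero fun g _ => ?_
      rw [h1, zero_mul]
    have h3 : ∑ g : G, (∑ χ ∈ s, c χ * (χ : G → ℂ) g) * (i : G → ℂ) g⁻¹
        = ∑ χ ∈ s, c χ * ∑ g : G, (χ : G → ℂ) g * (i : G → ℂ) g⁻¹ := by
      simp only [Finset.sum_mul, Finset.mul_sum]
      rw [Finset.sum_comm]
      refine Finset.sum_congr rfl fun _ _ => Finset.sum_congr rfl fun _ _ => ?_
      ring
    have h4 : ∑ χ ∈ s, c χ * ∑ g : G, (χ : G → ℂ) g * (i : G → ℂ) g⁻¹
        = c i * (Fintype.card G : ℂ) := by
      rw [Finset.sum_eq_single i]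
      · rw [IsIrr.orth i.2 i.2, if_pos rfl]
      · intro χ _ hχ
        rw [IsIrr.orth χ.2 i.2, if_neg (fun he => hχ (Subtype.ext he)), mul_zero]
      · intro hn; exact absurd hi hn
    rw [h3, h4] at h2
    rcases mul_eq_zero.1 h2 with h5 | h5
    · exact h5
    · exact absurd h5 hc
  have : Finite {χ : G → ℂ | IsIrr χ} := hli.finite
  exact Set.toFinite _

/-- completeness. Let `z = ∑ f g • g` in `MonoidAlgebra ℂ G` (or `g⁻¹` instead of `g`, whichever
fits). For each simple submodule `S` of the group algebra, `z` acts on `S` by a scalar (Schur, `f`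
is a class function) and `dim S` times the scalar is the trace, `∑ f g * χ_S (g⁻¹) = 0`; so `z` is
zero on `S`. By Maschke the group algebra is the sum of its simple submodules
(`IsSemisimpleModule.sSup_simples_eq_top`), so `z = z * 1 = 0` and `f = 0`. To pass from a simple
submodule to `IsIrr` one can use `Representation.isSimpleModule_iff_irreducible_ofModule`,
`Representation.char_orthonormal` (norm one) and `FDRep.simple_iff_char_is_norm_one`. -/
theorem irr_complete (f : G → ℂ) (hf : IsClass f)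
    (h : ∀ χ : G → ℂ, IsIrr χ → ∑ g : G, f g * χ g⁻¹ = 0) : f = 0 := by
  classical
  have h1 := CharB_aux3 f hf h (Module.finrank ℂ (G → ℂ) + 1) (G → ℂ) CharB_reg
    (Nat.lt_succ_self _) (fun x => if x = 1 then 1 else 0)
  funext x
  have h2 := congrFun h1 x⁻¹
  rw [Finset.sum_apply] at h2
  have h3 : ∀ g : G, (f g • (CharB_reg g⁻¹) (fun y : G => if y = 1 then (1 : ℂ) else 0)) x⁻¹
      = if g = x then f x else 0 := by
    intro g
    show f g * (if g⁻¹⁻¹ * x⁻¹ = 1 then (1 : ℂ) else 0) = _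
    rw [inv_inv, mul_inv_eq_one]
    split_ifs with hg
    · rw [hg, mul_one]
    · rw [mul_zero]
  simp only [h3] at h2
  simpa using h2

/-- second orthogonality relation. `k ↦ ∑ χ h⁻¹ * χ k` minus `|G| / |K|` times the indicator
function of the conjugacy class `K` of `h` is orthogonal to all irreducible characters, so it is
zero by `irr_complete`; evaluate at `g`. -/
theorem irr_column (S : Finset (G → ℂ)) (hS : ∀ χ : G → ℂ, χ ∈ S ↔ IsIrr χ) (g h : G)
    (hgh : ¬ IsConj g h) : ∑ χ ∈ S, χ h⁻¹ * χ g = 0 := by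
  classical
  have hcG : (Fintype.card G : ℂ) ≠ 0 := by
    have : Fintype.card G ≠ 0 := Fintype.card_ne_zero
    exact_mod_cast this
  set K : Finset G := Finset.univ.filter (fun x => IsConj x h) with hK
  have hhK : h ∈ K := Finset.mem_filter.2 ⟨Finset.mem_univ _, IsConj.refl _⟩
  have hKc : (K.card : ℂ) ≠ 0 := by
    have : K.card ≠ 0 := Finset.card_ne_zero_of_mem hhK
    exact_mod_cast this
  let f : G → ℂ := fun x => (∑ χ ∈ S, χ h⁻¹ * χ x) -
    (if IsConj x h then (Fintype.card G : ℂ) / K.card else 0)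
  have hf : IsClass f := by
    intro x y
    show (∑ χ ∈ S, χ h⁻¹ * χ (y * x * y⁻¹)) - (if IsConj (y * x * y⁻¹) h then _ else 0) = _
    have e1 : ∑ χ ∈ S, χ h⁻¹ * χ (y * x * y⁻¹) = ∑ χ ∈ S, χ h⁻¹ * χ x := by
      refine Finset.sum_congr rfl fun χ hχ => ?_
      rw [((hS χ).1 hχ).isClass]
    have e2 : IsConj (y * x * y⁻¹) h ↔ IsConj x h := by
      have e3 : IsConj x (y * x * y⁻¹) := isConj_iff.2 ⟨y, rfl⟩
      exact ⟨fun e => e3.trans e, fun e => e3.symm.trans e⟩
    rw [e1]
    simp only [e2]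
    rfl
  have hzero : f = 0 := by
    refine irr_complete f hf fun ψ hψ => ?_
    have e1 : ∑ x : G, f x * ψ x⁻¹ = ∑ χ ∈ S, χ h⁻¹ * ∑ x : G, χ x * ψ x⁻¹ -
        ∑ x : G, (if IsConj x h then (Fintype.card G : ℂ) / K.card else 0) * ψ x⁻¹ := by
      simp only [f, sub_mul, Finset.sum_sub_distrib, Finset.sum_mul, Finset.mul_sum]
      congr 1
      rw [Finset.sum_comm]
      refine Finset.sum_congr rfl fun _ _ => Finset.sum_congr rfl fun _ _ => ?_
      ring
    have e2 : ∑ χ ∈ S, χ h⁻¹ * ∑ x : G, χ x * ψ x⁻¹ = ψ h⁻¹ * Fintype.card G := by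
      rw [Finset.sum_eq_single ψ]
      · rw [IsIrr.orth hψ hψ, if_pos rfl]
      · intro χ hχ hne
        rw [IsIrr.orth ((hS χ).1 hχ) hψ, if_neg hne, mul_zero]
      · intro hn; exact absurd ((hS ψ).2 hψ) hn
    have e3 : ∑ x : G, (if IsConj x h then (Fintype.card G : ℂ) / K.card else 0) * ψ x⁻¹
        = ψ h⁻¹ * Fintype.card G := by
      have e4 : ∀ x : G, (if IsConj x h then (Fintype.card G : ℂ) / K.card else 0) * ψ x⁻¹
          = if IsConj x h then (Fintype.card G : ℂ) / K.card * ψ h⁻¹ else 0 := by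
        intro x
        split_ifs with hx
        · obtain ⟨c, hc⟩ := isConj_iff.1 hx
          have : ψ x⁻¹ = ψ h⁻¹ := by
            rw [← hc, ← hψ.isClass x⁻¹ c]
            congr 1
            group
          rw [this]
        · rw [zero_mul]
      rw [Finset.sum_congr rfl fun x _ => e4 x, ← Finset.sum_filter, Finset.sum_const,
        nsmul_eq_mul]
      change (K.card : ℂ) * _ = _
      field_simp
    rw [e1, e2, e3, sub_self]
  have hfin := congrFun hzero g
  have : f g = ∑ χ ∈ S, χ h⁻¹ * χ g := by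
    show (∑ χ ∈ S, χ h⁻¹ * χ g) - (if IsConj g h then _ else 0) = _
    rw [if_neg hgh, sub_zero]
  rw [← this, hfin]
  rfl

end Pool.Agent.Har
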