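import Mathlib
import Pool.Agent.W_02e251_h65.Defs
import Pool.Agent.W_02e251_h65.CharA
import Pool.Agent.W_02e251_h65.CharB

/-!
Weak block orthogonality.
-/

set_option autoImplicit false

open Pool.Agent.Har

namespace Pool.Agent.Har

variable {G : Type} [Group G] [Fintype G]

theorem IsBlock.isIrr {p : ℕ} {B : Finset (G → ℂ)} (hB : IsBlock p B) {χ : G → ℂ} (h : χ ∈ B) :
    IsIrr χ := by
  obtain ⟨χ₀, h0, hB⟩ := hB
  cases (hB χ).1 h with
  | refl => exact h0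
  | tail _ h => exact h.2.1

theorem Blk_aux1 {S : Finset (G → ℂ)} {ψ : G → ℂ} (hS : ∀ χ ∈ S, IsIrr χ) (hψ : IsIrr ψ)
    (hn : ψ ∉ S) : ∑ g : G, (∑ χ ∈ S, χ 1 * χ g) * ψ g⁻¹ = 0 := by
  have h1 : ∀ g : G, (∑ χ ∈ S, χ 1 * χ g) * ψ g⁻¹ = ∑ χ ∈ S, χ 1 * (χ g * ψ g⁻¹) := by
    intro g
    rw [Finset.sum_mul]
    exact Finset.sum_congr rfl fun χ _ => by ring
  rw [Finset.sum_congr rfl fun g _ => h1 g, Finset.sum_comm]
  refine Finset.sum_eq_zero fun χ hχ => ?_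
  rw [← Finset.mul_sum, (hS χ hχ).orth hψ, if_neg, mul_zero]
  rintro rfl
  exact hn hχ

theorem Blk_aux2 {p : ℕ} {S : Finset (G → ℂ)} {ψ : G → ℂ}
    (h : ∀ χ ∈ S, (∑ g ∈ Finset.univ.filter (fun g : G => Nat.Coprime (orderOf g) p),
      χ g * ψ g⁻¹) = 0) :
    ∑ g : G, (if Nat.Coprime (orderOf g) p then ∑ χ ∈ S, χ 1 * χ g else 0) * ψ g⁻¹ = 0 := by
  have h1 : ∀ g : G, (if Nat.Coprime (orderOf g) p then ∑ χ ∈ S, χ 1 * χ g else 0) * ψ g⁻¹ =
      if Nat.Coprime (orderOf g) p then ∑ χ ∈ S, χ 1 * (χ g * ψ g⁻¹) else 0 := by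
    intro g
    split_ifs
    · rw [Finset.sum_mul]
      exact Finset.sum_congr rfl fun χ _ => by ring
    · exact zero_mul _
  rw [Finset.sum_congr rfl fun g _ => h1 g, ← Finset.sum_filter, Finset.sum_comm]
  refine Finset.sum_eq_zero fun χ hχ => ?_
  rw [← Finset.mul_sum, h χ hχ, mul_zero]

theorem Blk_aux3 (p : ℕ) (χ ψ : G → ℂ) :
    (∑ g ∈ Finset.univ.filter (fun g : G => Nat.Coprime (orderOf g) p), χ g * ψ g⁻¹) =
      ∑ g ∈ Finset.univ.filter (fun g : G => Nat.Coprime (orderOf g) p), ψ g * χ g⁻¹ := by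
  refine Finset.sum_nbij' (fun g => g⁻¹) (fun g => g⁻¹) ?_ ?_ ?_ ?_ ?_
  · intro g hg
    simpa using hg
  · intro g hg
    simpa using hg
  · intro g _
    exact inv_inv g
  · intro g _
    exact inv_inv g
  · intro g _
    rw [inv_inv, mul_comm]

/-- Brauer's weak block orthogonality. Write `P f` for `f` restricted to the `p`-regular elements
(extended by zero) and `⟨f, ψ⟩ = ∑ f g * ψ g⁻¹`. Let `T = ∑_{χ ∈ B} χ(1) χ`, and `R` the sum of
`χ(1) χ` over the other irreducible characters; `T + R` is the regular character `ρ` (`|G|` at `1`,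
`0` elsewhere) by `irr_complete`, and `P ρ = ρ`. As linkage is symmetric (`g ↦ g⁻¹`), no `χ ∈ B` is
linked to an irreducible `ψ ∉ B`, so `⟨P T, ψ⟩ = 0` for `ψ ∉ B` and `⟨P R, ψ⟩ = 0` for `ψ ∈ B`.
So for `ψ ∉ B`: `⟨P T - T, ψ⟩ = 0`; for `ψ ∈ B`: `⟨P T, ψ⟩ = ⟨P ρ, ψ⟩ = ⟨ρ, ψ⟩ = ⟨T, ψ⟩`. By
`irr_complete` (all functions here are class functions) `P T = T`, so `T` vanishes on the
`p`-singular elements. -/
theorem IsBlock.vanSing {p : ℕ} (hp : p.Prime) {B : Finset (G → ℂ)} (hB : IsBlock p B) :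
    VanSing p (fun g => ∑ χ ∈ B, χ 1 * χ g) := by
  classical
  have hirr : ∀ χ ∈ B, IsIrr χ := fun χ h => hB.isIrr h
  have hlink : ∀ χ ∈ B, ∀ ψ, IsIrr ψ → ψ ∉ B →
      (∑ g ∈ Finset.univ.filter (fun g : G => Nat.Coprime (orderOf g) p), χ g * ψ g⁻¹) = 0 := by
    intro χ hχ ψ hψ hn
    by_contra hne
    obtain ⟨χ₀, h0, hB'⟩ := hB
    exact hn ((hB' ψ).2 (Relation.ReflTransGen.tail ((hB' χ).1 hχ) ⟨hirr χ hχ, hψ, hne⟩))
  obtain ⟨X, hX⟩ : ∃ X : Finset (G → ℂ), ∀ χ, χ ∈ X ↔ IsIrr χ :=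
    ⟨irr_finite.toFinset, fun χ => by rw [Set.Finite.mem_toFinset]; rfl⟩
  have hBX : B ⊆ X := fun χ h => (hX χ).2 (hirr χ h)
  have hsum : ∀ g : G, ∑ χ ∈ B, χ 1 * χ g + ∑ χ ∈ X \ B, χ 1 * χ g = ∑ χ ∈ X, χ 1 * χ g := by
    intro g
    rw [add_comm]
    exact Finset.sum_sdiff hBX
  have hreg : ∀ g : G, g ≠ 1 → ∑ χ ∈ X, χ 1 * χ g = 0 := by
    intro g hg
    have h1 : ¬ IsConj g 1 := by
      intro h
      rw [isConj_one_left] at h
      exact hg h
    have := irr_column X hX g 1 h1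
    rw [inv_one] at this
    exact this
  have hzero : (fun g : G => (if Nat.Coprime (orderOf g) p then ∑ χ ∈ B, χ 1 * χ g else 0) -
      ∑ χ ∈ B, χ 1 * χ g) = 0 := by
    refine irr_complete _ ?_ ?_
    · intro g h
      have h1 : ∀ χ ∈ B, χ 1 * χ (h * g * h⁻¹) = χ 1 * χ g := fun χ hχ => by
        rw [(hirr χ hχ).isClass g h]
      have h2 : orderOf (h * g * h⁻¹) = orderOf g := by
        have := MulAut.conj_apply h g
        rw [← this]
        exact orderOf_injective (MulAut.conj h).toMonoidHom (MulAut.conj h).injective g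
      simp only [h2, Finset.sum_congr rfl h1]
    · intro ψ hψ
      by_cases hψB : ψ ∈ B
      · have h1 : ∀ g : G, ((if Nat.Coprime (orderOf g) p then ∑ χ ∈ B, χ 1 * χ g else 0) -
            ∑ χ ∈ B, χ 1 * χ g) * ψ g⁻¹ = (∑ χ ∈ X \ B, χ 1 * χ g) * ψ g⁻¹ -
            (if Nat.Coprime (orderOf g) p then ∑ χ ∈ X \ B, χ 1 * χ g else 0) * ψ g⁻¹ := by
          intro g
          have h2 := hsum g
          split_ifs with hc
          · ring
          · have h3 : g ≠ 1 := by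
              rintro rfl
              exact hc (by rw [orderOf_one]; exact Nat.coprime_one_left p)
            rw [hreg g h3] at h2
            rw [eq_neg_of_add_eq_zero_left h2]
            ring
        rw [Finset.sum_congr rfl fun g _ => h1 g, Finset.sum_sub_distrib,
          Blk_aux1 (fun χ hχ => (hX χ).1 (Finset.mem_sdiff.1 hχ).1) hψ
            (fun h => (Finset.mem_sdiff.1 h).2 hψB), Blk_aux2, sub_zero]
        intro χ hχ
        rw [Blk_aux3]
        exact hlink ψ hψB χ ((hX χ).1 (Finset.mem_sdiff.1 hχ).1) (Finset.mem_sdiff.1 hχ).2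
      · simp only [sub_mul]
        rw [Finset.sum_sub_distrib, Blk_aux1 hirr hψ hψB,
          Blk_aux2 (fun χ hχ => hlink χ hχ ψ hψ hψB), sub_zero]
  intro g hg
  have h1 := congrFun hzero g
  have h2 : ¬ Nat.Coprime (orderOf g) p := by
    intro hc
    have := Nat.dvd_gcd hg (dvd_refl p)
    rw [hc] at this
    exact hp.one_lt.ne' (Nat.dvd_one.1 this)
  simp only [if_neg h2, zero_sub, Pi.zero_apply, neg_eq_zero] at h1
  exact h1

end Pool.Agent.Har
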