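import Mathlib
import Pool.Agent.W_02e251_h65.Defs

/-!
Central idempotents of a complex group algebra, written as functions with the convolution `conv`.
-/

set_option autoImplicit false

open Pool.Agent.Har

namespace Pool.Agent.Har

/-- If `T ^ (n + 1) = T`, then the trace of `T` is an algebraic integer: it is the sum of the
eigenvalues (roots of the characteristic polynomial, with multiplicity), and each eigenvalue `m`
satisfies `m ^ (n + 1) = m`, so it is a root of the monic polynomial `X ^ (n + 1) - X`. -/
theorem trace_integral {ι : Type} [Fintype ι] [DecidableEq ι] (T : Matrix ι ι ℂ) (n : ℕ)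
    (hn : 0 < n) (hT : T ^ (n + 1) = T) : IsIntegral ℤ T.trace := by
  rw [Matrix.trace_eq_sum_roots_charpoly]
  refine IsIntegral.multiset_sum fun μ hμ => ?_
  have h1 : μ ∈ spectrum ℂ T :=
    Matrix.mem_spectrum_of_isRoot_charpoly (Polynomial.isRoot_of_mem_roots hμ)
  have h2 : Polynomial.eval μ (Polynomial.X ^ (n + 1) - Polynomial.X : Polynomial ℂ) ∈
      spectrum ℂ (Polynomial.aeval T (Polynomial.X ^ (n + 1) - Polynomial.X : Polynomial ℂ)) :=
    spectrum.subset_polynomial_aeval T _ ⟨μ, h1, rfl⟩
  have h3 : Polynomial.aeval T (Polynomial.X ^ (n + 1) - Polynomial.X : Polynomial ℂ) = 0 := by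
    rw [map_sub, map_pow, Polynomial.aeval_X, hT, sub_self]
  rw [h3] at h2
  have h4 : μ ^ (n + 1) = μ := by
    rcases subsingleton_or_nontrivial (Matrix ι ι ℂ) with hs | hs
    · rw [spectrum.of_subsingleton] at h2
      exact h2.elim
    · rw [spectrum.zero_eq, Set.mem_singleton_iff, Polynomial.eval_sub, Polynomial.eval_pow,
        Polynomial.eval_X, sub_eq_zero] at h2
      exact h2
  refine ⟨Polynomial.X ^ (n + 1) - Polynomial.X, ?_, ?_⟩
  · refine Polynomial.monic_X_pow_sub ?_
    rw [Polynomial.degree_X]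
    have h5 : 1 < n + 1 := by omega
    exact_mod_cast h5
  · rw [Polynomial.eval₂_sub, Polynomial.eval₂_X_pow, Polynomial.eval₂_X, h4, sub_self]

/-- the matrix of the left convolution -/
noncomputable def Idem_M {F : Type} [Group F] (a : F → ℂ) : Matrix F F ℂ :=
  Matrix.of fun g h => a (g * h⁻¹)

theorem Idem_M_conv {F : Type} [Group F] [Fintype F] (a b : F → ℂ) :
    Idem_M (conv a b) = Idem_M a * Idem_M b := by
  ext g h
  rw [Matrix.mul_apply]
  simp only [Idem_M, Matrix.of_apply, conv]
  refine Fintype.sum_equiv ((Equiv.inv F).trans (Equiv.mulRight g)) _ _ fun k => ?_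
  simp only [Equiv.trans_apply, Equiv.inv_apply, Equiv.coe_mulRight, mul_inv_rev, inv_inv]
  rw [mul_inv_cancel_left, mul_assoc]

theorem Idem_M_trace {F : Type} [Group F] [Fintype F] (a : F → ℂ) :
    (Idem_M a).trace = (Fintype.card F : ℂ) * a 1 := by
  simp [Idem_M, Matrix.trace]

open Classical in
/-- the delta function -/
noncomputable def Idem_dl {F : Type} (x : F) : F → ℂ := fun g => if g = x then 1 else 0

theorem Idem_conv_dl {F : Type} [Group F] [Fintype F] (a : F → ℂ) (x g : F) :
    conv a (Idem_dl x) g = a (g * x⁻¹) := by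
  unfold conv Idem_dl
  rw [Finset.sum_eq_single (g * x⁻¹)]
  · rw [if_pos (by group), mul_one]
  · intro k _ hk
    rw [if_neg, mul_zero]
    intro h
    apply hk
    rw [← h]
    group
  · intro h
    exact absurd (Finset.mem_univ _) h

theorem Idem_dl_conv {F : Type} [Group F] [Fintype F] (a : F → ℂ) (x g : F) :
    conv (Idem_dl x) a g = a (x⁻¹ * g) := by
  unfold conv Idem_dl
  rw [Finset.sum_eq_single x]
  · rw [if_pos rfl, one_mul]
  · intro k _ hk
    rw [if_neg hk, zero_mul]
  · intro h
    exact absurd (Finset.mem_univ _) h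

theorem Idem_dl_mul {F : Type} [Group F] [Fintype F] (x y : F) :
    conv (Idem_dl x) (Idem_dl y) = Idem_dl (x * y) := by
  funext g
  rw [Idem_dl_conv]
  unfold Idem_dl
  by_cases h : g = x * y
  · rw [if_pos h, if_pos]
    rw [h]
    group
  · rw [if_neg h, if_neg]
    intro h'
    apply h
    rw [← h']
    group

theorem Idem_M_one {F : Type} [Group F] [Fintype F] [DecidableEq F] :
    Idem_M (Idem_dl (1 : F)) = 1 := by
  ext g h
  simp only [Idem_M, Idem_dl, Matrix.of_apply, Matrix.one_apply, mul_inv_eq_one]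

theorem Idem_M_pow {F : Type} [Group F] [Fintype F] [DecidableEq F] (x : F) (n : ℕ) :
    Idem_M (Idem_dl x) ^ n = Idem_M (Idem_dl (x ^ n)) := by
  induction n with
  | zero => rw [pow_zero, pow_zero, Idem_M_one]
  | succ n ih => rw [pow_succ, pow_succ, ih, ← Idem_M_conv, Idem_dl_mul]

/-- Let `e` be a central idempotent of the group algebra of `F` (a class function with
`e * e = e`). Then `|F| e(x)` is an algebraic integer for all `x`, and `|F| e(1)` is a natural
number `r ≤ |F|`, which is `0` only if `e = 0`.
Proof: a function `a` acts on functions through the matrix `M a = (a (g h⁻¹))_{g,h}`; `M` is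
multiplicative for `conv`, and `trace (M a) = |F| a(1)`. For `x` of order `n` let
`a = e * s`, `s` the delta function at `x⁻¹`; then `a(1) = e(x)` and as `e` is central
`a ^ (n + 1) = e ^ (n + 1) * s ^ (n + 1) = e * s = a`, so `trace (M a)` is an algebraic integer by
`trace_integral`. For `x = 1`: `M e` is an idempotent matrix and its trace is its rank (for example
`LinearMap.IsProj.trace` for `Matrix.toLin'`); the rank is at most `|F|` and it is `0` only for the
zero matrix. -/
theorem idem_facts {F : Type} [Group F] [Fintype F] (e : F → ℂ) (hc : IsClass e)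
    (he : conv e e = e) :
    (∀ x, IsIntegral ℤ ((Fintype.card F : ℂ) * e x)) ∧
      ∃ r : ℕ, r ≤ Fintype.card F ∧ (Fintype.card F : ℂ) * e 1 = r ∧ (r = 0 → e = 0) := by
  classical
  have hI : IsIdempotentElem (Idem_M e) := by
    change Idem_M e * Idem_M e = Idem_M e
    rw [← Idem_M_conv, he]
  refine ⟨fun x => ?_, ?_⟩
  · have h1 : conv e (Idem_dl x⁻¹) 1 = e x := by
      rw [Idem_conv_dl, inv_inv, one_mul]
    have hcomm : conv e (Idem_dl x⁻¹) = conv (Idem_dl x⁻¹) e := by
      funext g
      rw [Idem_conv_dl, Idem_dl_conv, inv_inv]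
      have h2 := hc (g * x) x
      rw [← h2]
      congr 1
      group
    have hcomm' : Commute (Idem_M e) (Idem_M (Idem_dl x⁻¹)) := by
      change Idem_M e * Idem_M (Idem_dl x⁻¹) = Idem_M (Idem_dl x⁻¹) * Idem_M e
      rw [← Idem_M_conv, ← Idem_M_conv, hcomm]
    rw [← h1, ← Idem_M_trace]
    refine trace_integral _ (orderOf x) (orderOf_pos x) ?_
    rw [Idem_M_conv, hcomm'.mul_pow, hI.pow_succ_eq, pow_succ, Idem_M_pow, inv_pow,
      pow_orderOf_eq_one, inv_one, Idem_M_one, one_mul]
  · obtain ⟨f, hf⟩ : ∃ f, f = Matrix.toLin' (Idem_M e) := ⟨_, rfl⟩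
    have hf1 : IsIdempotentElem f := by
      change f * f = f
      rw [hf, Module.End.mul_eq_comp, ← Matrix.toLin'_mul, hI.eq]
    have h1 : (Fintype.card F : ℂ) * e 1 = LinearMap.trace ℂ _ f := by
      rw [← Idem_M_trace, hf, Matrix.trace_toLin'_eq]
    have h2 := (LinearMap.IsIdempotentElem.isProj_range f hf1).trace
    refine ⟨Module.finrank ℂ (LinearMap.range f), ?_, ?_, ?_⟩
    · refine (Submodule.finrank_le _).trans ?_
      rw [Module.finrank_fintype_fun_eq_card]
    · rw [h1, h2]
    · intro h0
      rw [h0, Nat.cast_zero] at h2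
      have h3 := LinearMap.IsIdempotentElem.eq_zero_of_trace_eq_zero (e := f) hf1 h2
      funext x
      rw [hf] at h3
      have h4 : Idem_M e = 0 := by
        apply Matrix.toLin'.injective
        rw [h3, map_zero]
      have h5 : Idem_M e x 1 = 0 := by
        rw [h4]
        rfl
      simpa [Idem_M] using h5

end Pool.Agent.Har
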