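import Mathlib
import Pool.Agent.W_02e251_h65.Defs

/-!
The key congruence for idempotents.
-/

set_option autoImplicit false

open Pool.Agent.Har

namespace Pool.Agent.Har

theorem LemK_sub {n : ℤ} {q : ℕ} (hq : q ≠ 0) {w : ℂ} (hw : IsIntegral ℤ w)
    (h : (n : ℂ) = (q : ℂ) * w) : (q : ℤ) ∣ n := by
  have hq' : (q : ℂ) ≠ 0 := by exact_mod_cast hq
  have h1 : w = algebraMap ℚ ℂ ((n : ℚ) / (q : ℚ)) := by
    rw [map_div₀, map_intCast, map_natCast, h]
    field_simp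
  rw [h1, isIntegral_algebraMap_iff (algebraMap ℚ ℂ).injective] at hw
  obtain ⟨y, hy⟩ := IsIntegrallyClosed.isIntegral_iff.mp hw
  refine ⟨y, ?_⟩
  have hq'' : (q : ℚ) ≠ 0 := by exact_mod_cast hq
  have h2 : (y : ℚ) = (n : ℚ) / (q : ℚ) := by simpa using hy
  rw [eq_div_iff hq''] at h2
  have h3 : y * (q : ℤ) = n := by exact_mod_cast h2
  rw [← h3, mul_comm]

theorem LemK_int {F : Type} [Fintype F] [DecidableEq F] (X : Matrix F F ℂ) (s : ℤ) (g h : F) :
    (X * (s : Matrix F F ℂ)) g h = (s : ℂ) * X g h := by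
  rw [← Int.cast_comm, ← zsmul_eq_mul, Matrix.smul_apply, zsmul_eq_mul]

theorem LemK_natmul {F : Type} [Fintype F] [DecidableEq F] (X Y : Matrix F F ℂ) (s : ℕ)
    (g h : F) : (X * ((s : Matrix F F ℂ) * Y)) g h = (s : ℂ) * (X * Y) g h := by
  rw [← mul_assoc, ← Nat.cast_comm, mul_assoc, ← nsmul_eq_mul, Matrix.smul_apply, nsmul_eq_mul]

theorem LemK_nat (d : ℕ) : IsIntegral ℤ (d : ℂ) := by
  have := isIntegral_algebraMap (R := ℤ) (A := ℂ) (x := (d : ℤ))
  simpa using this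

/-- the matrix of a function -/
def LemK_mat {F : Type} [Group F] (u : F → ℂ) : Matrix F F ℂ := fun g h => u (g * h⁻¹)

theorem LemK_mat_mul {F : Type} [Group F] [Fintype F] (u v : F → ℂ) :
    LemK_mat u * LemK_mat v = LemK_mat (conv u v) := by
  ext g h
  rw [Matrix.mul_apply]
  change ∑ k : F, u (g * k⁻¹) * v (k * h⁻¹) = ∑ k : F, u k * v (k⁻¹ * (g * h⁻¹))
  refine Fintype.sum_equiv ((Equiv.inv F).trans (Equiv.mulLeft g)) _ _ fun k => ?_
  change u (g * k⁻¹) * v (k * h⁻¹) = u (g * k⁻¹) * v ((g * k⁻¹)⁻¹ * (g * h⁻¹))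
  rw [mul_inv_rev, inv_inv, mul_assoc k, inv_mul_cancel_left]

theorem LemK_pow {F : Type} [Group F] [Fintype F] [DecidableEq F] (c : F → ℕ)
    (hc : ∀ x y, c (x * y) ∣ c x * c y) (X : Matrix F F ℂ)
    (hX : ∀ g h, ∃ z : ℂ, IsIntegral ℤ z ∧ X g h = (c (g * h⁻¹) : ℂ) * z) (n : ℕ) :
    ∀ g h, ∃ z : ℂ, IsIntegral ℤ z ∧ (X ^ (n + 1)) g h = (c (g * h⁻¹) : ℂ) * z := by
  induction n with
  | zero => simpa using hX
  | succ n ih =>
    intro g h
    have h1 : ∀ k, ∃ z : ℂ, IsIntegral ℤ z ∧ (X ^ (n + 1)) g k * X k h =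
        (c (g * h⁻¹) : ℂ) * z := by
      intro k
      obtain ⟨z, hz, hz'⟩ := ih g k
      obtain ⟨w, hw, hw'⟩ := hX k h
      have h2 := hc (g * k⁻¹) (k * h⁻¹)
      rw [mul_assoc, inv_mul_cancel_left] at h2
      obtain ⟨d, hd⟩ := h2
      have hd' : (c (g * k⁻¹) : ℂ) * (c (k * h⁻¹) : ℂ) = (c (g * h⁻¹) : ℂ) * (d : ℂ) := by
        exact_mod_cast hd
      refine ⟨(d : ℂ) * (z * w), ?_, ?_⟩
      · exact (LemK_nat d).mul (hz.mul hw)
      · rw [hz', hw']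
        calc (c (g * k⁻¹) : ℂ) * z * ((c (k * h⁻¹) : ℂ) * w)
            = (c (g * k⁻¹) : ℂ) * (c (k * h⁻¹) : ℂ) * (z * w) := by ring
          _ = _ := by rw [hd']; ring
    choose z hz hz' using h1
    refine ⟨∑ k, z k, IsIntegral.sum _ fun k _ => hz k, ?_⟩
    rw [pow_succ, Matrix.mul_apply, Finset.mul_sum]
    exact Finset.sum_congr rfl fun k _ => hz' k

theorem LemK_frob {R : Type} [Ring R] (p K : ℕ) (t : ℤ) (C : R) :
    ∃ D : R, ((t : R) + (p : R) * C) ^ (p ^ K) = ((t ^ (p ^ K) : ℤ) : R) +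
      ((p ^ (K + 1) : ℕ) : R) * D := by
  have h1 : ((p : ℕ) : Polynomial ℤ) ∣
      (Polynomial.C t + (p : Polynomial ℤ) * Polynomial.X) - Polynomial.C t :=
    ⟨Polynomial.X, by ring⟩
  obtain ⟨Q, hQ⟩ := dvd_sub_pow_of_dvd_sub h1 K
  have h2 := congrArg (Polynomial.aeval C) hQ
  simp only [map_sub, map_pow, map_add, map_mul, Polynomial.aeval_X,
    map_natCast, map_intCast, eq_intCast] at h2
  refine ⟨Polynomial.aeval C Q, ?_⟩
  rw [sub_eq_iff_eq_add] at h2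
  rw [h2]
  push_cast
  rw [add_comm]

/-- Key lemma. Let `c : F → ℕ` satisfy `c (x y) ∣ c x * c y`, `c x⁻¹ = c x` and `p ∣ c x` for
`x ≠ 1`. Let `A` have coefficients `A x ∈ c x 𝒪` (`𝒪` the algebraic integers) with `A 1 = t` an
integer prime to `p`, and `e` with `|F| e(x) ∈ 𝒪` for all `x`, such that the convolution `e * A` is
supported on the `x` with `c x = q`, where `q` is a power of `p`. If `|F| e(1) = r < q` is a natural
number, then `r = 0`.
Proof (in the ring of functions with `conv`, or in `MonoidAlgebra ℂ F`, or with the matrices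
`(a (g h⁻¹))`): `A = t + p C` with `C` with coefficients in `𝒪`, hence by induction on `j`
`A ^ (p ^ j) = t ^ (p ^ j) + p ^ j C_j` with `C_j` with coefficients in `𝒪` (if `X = s + p ^ i C`
with `i ≥ 1` and a scalar `s`, then `X ^ p = s ^ p + p ^ (i + 1) C'` by the binomial theorem; start
with `j = 1` or treat `j = 0` apart, `A ^ (p ^ j) = t ^ (p ^ j) + p ^ (j + 1) C_j` is true as well
and makes the induction uniform). All powers `A ^ n` have coefficients in `c x 𝒪` for `n ≥ 1`; for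
`n = 0` this may fail at `x = 1` only if `c 1 ≠ 1`, so use `n ≥ 1`. Now compute
`|F| (e * A ^ (p ^ k))(1)` in two ways, `q ∣ p ^ k`: first it is
`r t ^ (p ^ k) + p ^ k 𝒪`; second, `e * A ^ (p ^ k) = (e * A) * A ^ (p ^ k - 1)` and
`((e * A) * A ^ (p ^ k - 1))(1) = ∑ x, (e * A)(x) (A ^ (p ^ k - 1))(x⁻¹)` where only `x` with
`c x⁻¹ = c x = q` count, so it is in `q 𝒪` after multiplication with `|F|` (one may take a larger
`k` to have `p ^ k - 1 ≥ 1`). So `r t ^ (p ^ k) ∈ q 𝒪`, an integer, so `q ∣ r t ^ (p ^ k)` in `ℤ`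
(`ℤ` is integrally closed), `q ∣ r` as `t` is prime to `p`, and `r = 0`. -/
theorem lemK {F : Type} [Group F] [Fintype F] {p : ℕ} (hp : p.Prime) (c : F → ℕ)
    (hc : ∀ x y, c (x * y) ∣ c x * c y) (hci : ∀ x, c x⁻¹ = c x) (hcp : ∀ x, x ≠ 1 → p ∣ c x)
    (q k : ℕ) (hq : q ∣ p ^ k) (A e : F → ℂ)
    (hA : ∀ x, ∃ z : ℂ, IsIntegral ℤ z ∧ A x = (c x : ℂ) * z) (t : ℤ) (ht : A 1 = (t : ℂ))
    (hpt : ¬ (p : ℤ) ∣ t) (he : ∀ x, IsIntegral ℤ ((Fintype.card F : ℂ) * e x))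
    (hB : ∀ x, conv e A x ≠ 0 → c x = q) (r : ℕ) (hr : (Fintype.card F : ℂ) * e 1 = (r : ℂ))
    (hrq : r < q) : r = 0 := by
  classical
  have hq0 : q ≠ 0 := by
    rintro rfl
    exact (pow_pos hp.pos k).ne' (zero_dvd_iff.mp hq)
  -- decomposition `A = t + p C`
  have hC : ∀ g h : F, ∃ z : integralClosure ℤ ℂ, LemK_mat A g h =
      (if g = h then (t : ℂ) else 0) + (p : ℂ) * (z : ℂ) := by
    intro g h
    by_cases hgh : g = h
    · refine ⟨0, ?_⟩
      rw [if_pos hgh, hgh]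
      change A (h * h⁻¹) = _
      rw [mul_inv_cancel, ht]
      simp
    · have h1 : g * h⁻¹ ≠ 1 := fun h1 => hgh (mul_inv_eq_one.mp h1)
      obtain ⟨d, hd⟩ := hcp _ h1
      obtain ⟨z, hz, hz'⟩ := hA (g * h⁻¹)
      refine ⟨⟨(d : ℂ) * z, (LemK_nat d).mul hz⟩, ?_⟩
      rw [if_neg hgh, zero_add]
      change A (g * h⁻¹) = (p : ℂ) * ((d : ℂ) * z)
      rw [hz', hd]
      push_cast
      ring
  choose C hC' using hC
  let CO : Matrix F F (integralClosure ℤ ℂ) := fun g h => C g h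
  let φ : Matrix F F (integralClosure ℤ ℂ) →+* Matrix F F ℂ :=
    (algebraMap (integralClosure ℤ ℂ) ℂ).mapMatrix
  have hφ : ∀ (X : Matrix F F (integralClosure ℤ ℂ)) g h, φ X g h = ((X g h : ℂ)) :=
    fun X g h => rfl
  have hAm : LemK_mat A = φ ((t : Matrix F F (integralClosure ℤ ℂ)) +
      (p : Matrix F F (integralClosure ℤ ℂ)) * CO) := by
    rw [map_add, map_mul, map_intCast, map_natCast]
    ext g h
    rw [Matrix.add_apply, ← nsmul_eq_mul, Matrix.smul_apply, hφ, hC']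
    rw [nsmul_eq_mul]
    congr 1
  obtain ⟨D, hD⟩ := LemK_frob p (k + 1) t CO
  have hApow : LemK_mat A ^ (p ^ (k + 1)) = ((t ^ (p ^ (k + 1)) : ℤ) : Matrix F F ℂ) +
      ((p ^ (k + 1 + 1) : ℕ) : Matrix F F ℂ) * φ D := by
    rw [hAm, ← map_pow, hD, map_add, map_mul, map_intCast, map_natCast]
  -- first computation
  have hint : ∀ g, IsIntegral ℤ ((Fintype.card F : ℂ) * (LemK_mat e 1 g * φ D g 1)) := by
    intro g
    rw [← mul_assoc]
    exact (he (1 * g⁻¹)).mul (D g 1).2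
  have hfirst : (Fintype.card F : ℂ) * (LemK_mat e * LemK_mat A ^ (p ^ (k + 1))) 1 1 =
      ((r * t ^ (p ^ (k + 1)) : ℤ) : ℂ) + (p ^ (k + 1 + 1) : ℕ) *
        ∑ g, (Fintype.card F : ℂ) * (LemK_mat e 1 g * φ D g 1) := by
    rw [hApow, mul_add, Matrix.add_apply, LemK_int, LemK_natmul, Matrix.mul_apply,
      ← Finset.mul_sum]
    have h1 : LemK_mat e 1 1 = e 1 := by
      change e (1 * 1⁻¹) = e 1
      rw [inv_one, mul_one]
    rw [h1, mul_add]
    push_cast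
    rw [← hr]
    ring
  -- second computation
  have hn : p ^ (k + 1) = (p ^ (k + 1) - 2) + 1 + 1 := by
    have h1 : 2 ≤ p ^ (k + 1) := hp.two_le.trans (Nat.le_self_pow (Nat.succ_ne_zero k) p)
    omega
  have hBint : ∀ g, IsIntegral ℤ ((Fintype.card F : ℂ) * conv e A g) := by
    intro g
    rw [conv, Finset.mul_sum]
    refine IsIntegral.sum _ fun x _ => ?_
    obtain ⟨z, hz, hz'⟩ := hA (x⁻¹ * g)
    rw [hz', ← mul_assoc]
    exact (he x).mul ((LemK_nat _).mul hz)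
  have hterm : ∀ g, ∃ w : ℂ, IsIntegral ℤ w ∧ (Fintype.card F : ℂ) *
      (conv e A (1 * g⁻¹) * (LemK_mat A ^ ((p ^ (k + 1) - 2) + 1)) g 1) = (q : ℂ) * w := by
    intro g
    by_cases h0 : conv e A (1 * g⁻¹) = 0
    · exact ⟨0, isIntegral_zero, by rw [h0]; ring⟩
    · obtain ⟨z, hz, hz'⟩ := LemK_pow c hc (LemK_mat A) (fun g h => hA (g * h⁻¹))
        (p ^ (k + 1) - 2) g 1
      have h1 := hB _ h0
      rw [one_mul, hci] at h1
      refine ⟨((Fintype.card F : ℂ) * conv e A (1 * g⁻¹)) * z, (hBint _).mul hz, ?_⟩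
      rw [hz', inv_one, mul_one, h1]
      ring
  choose w hw hw' using hterm
  have hsecond : (Fintype.card F : ℂ) * (LemK_mat e * LemK_mat A ^ (p ^ (k + 1))) 1 1 =
      (q : ℂ) * ∑ g, w g := by
    rw [hn, pow_succ', ← mul_assoc, LemK_mat_mul, Matrix.mul_apply, Finset.mul_sum,
      Finset.mul_sum]
    exact Finset.sum_congr rfl fun g _ => hw' g
  rw [hfirst] at hsecond
  obtain ⟨d, hd⟩ : q ∣ p ^ (k + 1 + 1) := hq.trans (pow_dvd_pow p (by omega))
  have hfin : (((r : ℤ) * t ^ (p ^ (k + 1)) : ℤ) : ℂ) = (q : ℂ) * (∑ g, w g -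
      (d : ℂ) * ∑ g, (Fintype.card F : ℂ) * (LemK_mat e 1 g * φ D g 1)) := by
    rw [hd] at hsecond
    push_cast at hsecond ⊢
    linear_combination hsecond
  have hdvd := LemK_sub hq0 ((IsIntegral.sum _ fun g _ => hw g).sub
    ((LemK_nat d).mul (IsIntegral.sum _ fun g _ => hint g))) hfin
  have hcop : IsCoprime (q : ℤ) (t ^ (p ^ (k + 1))) := by
    apply IsCoprime.pow_right
    have h1 : IsCoprime ((p : ℤ) ^ k) t :=
      IsCoprime.pow_left ((Nat.prime_iff_prime_int.mp hp).coprime_iff_not_dvd.mpr hpt)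
    refine IsCoprime.of_isCoprime_of_dvd_left h1 ?_
    exact_mod_cast hq
  have h3 : (q : ℤ) ∣ (r : ℤ) := hcop.dvd_of_dvd_mul_right hdvd
  have h4 : q ∣ r := by exact_mod_cast h3
  exact Nat.eq_zero_of_dvd_of_lt h4 hrq

end Pool.Agent.Har
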