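import Mathlib
import Pool.Agent.W_02e251_h65.Defs
import Pool.Agent.W_02e251_h65.Idem
import Pool.Agent.W_02e251_h65.LemK

/-!
The key congruence for idempotents lying over a linear character of a central subgroup.
-/

set_option autoImplicit false

open Pool.Agent.Har

namespace Pool.Agent.Har

section

variable {F : Type} [Group F] [Fintype F]

theorem conv_sub_left (u v w : F → ℂ) : conv (u - v) w = conv u w - conv v w := by
  funext g
  simp only [conv, Pi.sub_apply]
  rw [← Finset.sum_sub_distrib]
  exact Finset.sum_congr rfl fun k _ => by ring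

theorem conv_sub_right (u v w : F → ℂ) : conv u (v - w) = conv u v - conv u w := by
  funext g
  simp only [conv, Pi.sub_apply]
  rw [← Finset.sum_sub_distrib]
  exact Finset.sum_congr rfl fun k _ => by ring

theorem conv_add_right (u v w : F → ℂ) : conv u (v + w) = conv u v + conv u w := by
  funext g
  simp only [conv, Pi.add_apply]
  rw [← Finset.sum_add_distrib]
  exact Finset.sum_congr rfl fun k _ => by ring

open scoped Classical in
/-- the idempotent of the linear character `θ` of the subgroup `K` -/
noncomputable def zid (K : Subgroup F) (θ : K →* ℂˣ) (x : F) : ℂ :=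
  if h : x ∈ K then ((θ ⟨x, h⟩ : ℂˣ) : ℂ) / (Nat.card K : ℂ) else 0

theorem zid_card (K : Subgroup F) : (Nat.card K : ℂ) ≠ 0 := by
  exact_mod_cast (Nat.card_pos (α := K)).ne'

theorem zid_mem {K : Subgroup F} (θ : K →* ℂˣ) (z : K) :
    zid K θ z = ((θ z : ℂˣ) : ℂ) / (Nat.card K : ℂ) := by
  unfold zid
  rw [dif_pos z.2]

theorem zid_not_mem {K : Subgroup F} (θ : K →* ℂˣ) {x : F} (hx : x ∉ K) :
    zid K θ x = 0 := by
  unfold zid
  rw [dif_neg hx]

theorem zid_sum (K : Subgroup F) (θ : K →* ℂˣ) (e : F → ℂ)
    (heK : ∀ x : F, ∀ z : K, e (x * z) = ((θ z : ℂˣ) : ℂ) * e x) (g : F) :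
    ∑ m : F, e (g * m⁻¹) * zid K θ m = e g := by
  classical
  have h1 : ∀ m : F, e (g * m⁻¹) * zid K θ m = if m ∈ K then e g / (Nat.card K : ℂ) else 0 := by
    intro m
    by_cases hm : m ∈ K
    · rw [if_pos hm]
      have h2 := heK g (⟨m, hm⟩⁻¹ : K)
      have h3 : e (g * m⁻¹) = ((θ ⟨m, hm⟩ : ℂˣ) : ℂ)⁻¹ * e g := by
        rw [map_inv] at h2
        rw [← Units.val_inv_eq_inv_val]
        exact h2
      have h4 : ((θ ⟨m, hm⟩ : ℂˣ) : ℂ) ≠ 0 := Units.ne_zero _
      rw [h3, zid_mem θ ⟨m, hm⟩]
      field_simp
    · rw [if_neg hm, zid_not_mem θ hm, mul_zero]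
  simp only [h1]
  rw [← Finset.sum_filter, Finset.sum_const, nsmul_eq_mul]
  have h5 : (Finset.univ.filter (fun x : F => x ∈ K)).card = Nat.card K := by
    rw [Nat.card_eq_fintype_card, ← Fintype.card_subtype]
  rw [h5]
  have := zid_card K
  field_simp

theorem conv_zid (K : Subgroup F) (θ : K →* ℂˣ) (e : F → ℂ)
    (heK : ∀ x : F, ∀ z : K, e (x * z) = ((θ z : ℂˣ) : ℂ) * e x) :
    conv e (zid K θ) = e := by
  funext g
  rw [← zid_sum K θ e heK g]
  unfold conv
  refine Fintype.sum_equiv ((Equiv.inv F).trans (Equiv.mulRight g)) _ _ fun k => ?_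
  simp [Equiv.inv]

theorem zid_conv {K : Subgroup F} (hK : K ≤ Subgroup.center F) (θ : K →* ℂˣ) (e : F → ℂ)
    (heK : ∀ x : F, ∀ z : K, e (x * z) = ((θ z : ℂˣ) : ℂ) * e x) :
    conv (zid K θ) e = e := by
  funext g
  rw [← zid_sum K θ e heK g]
  unfold conv
  refine Finset.sum_congr rfl fun k _ => ?_
  by_cases hk : k ∈ K
  · have h1 : k⁻¹ * g = g * k⁻¹ := by
      have := Subgroup.mem_center_iff.mp (inv_mem (hK hk)) g
      exact this.symm
    rw [h1, mul_comm]
  · rw [zid_not_mem θ hk, zero_mul, mul_zero]

theorem zid_over {K : Subgroup F} (θ : K →* ℂˣ) (x : F) (z : K) :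
    zid K θ (x * z) = ((θ z : ℂˣ) : ℂ) * zid K θ x := by
  by_cases hx : x ∈ K
  · have h1 : (x * z : F) = ((⟨x, hx⟩ * z : K) : F) := rfl
    have h2 : zid K θ x = ((θ ⟨x, hx⟩ : ℂˣ) : ℂ) / (Nat.card K : ℂ) := zid_mem θ ⟨x, hx⟩
    rw [h1, zid_mem, h2, map_mul, Units.val_mul]
    ring
  · have h1 : x * (z : F) ∉ K := fun h => hx ((K.mul_mem_cancel_right z.2).mp h)
    rw [zid_not_mem θ hx, zid_not_mem θ h1, mul_zero]

theorem zid_class {K : Subgroup F} (hK : K ≤ Subgroup.center F) (θ : K →* ℂˣ) :
    IsClass (zid K θ) := by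
  intro g h
  by_cases hg : g ∈ K
  · have h1 : h * g * h⁻¹ = g := by
      rw [Subgroup.mem_center_iff.mp (hK hg) h, mul_inv_cancel_right]
    rw [h1]
  · have h1 : h * g * h⁻¹ ∉ K := by
      intro hh
      have h2 := Subgroup.mem_center_iff.mp (hK hh) h
      have h3 : g = h * g * h⁻¹ := by
        have h4 : h * (h * g * h⁻¹) * h⁻¹ = h * g * h⁻¹ := by
          rw [h2, mul_inv_cancel_right]
        have h5 : h * g * h⁻¹ = g := by
          have h6 : h * (h * g * h⁻¹) = h * g := by
            rw [h2]
            group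
          exact mul_left_cancel h6
        exact h5.symm
      apply hg
      rw [h3]
      exact hh
    rw [zid_not_mem θ hg, zid_not_mem θ h1]

/-- Key lemma with a central subgroup `K` and a linear character `θ` of `K`. -/
theorem lemKz {p : ℕ} (hp : p.Prime) {K : Subgroup F} (hK : K ≤ Subgroup.center F)
    (θ : K →* ℂˣ) (hKp : ¬ p ∣ Nat.card K) (c : F → ℕ)
    (hc : ∀ x y, c (x * y) ∣ c x * c y) (hci : ∀ x, c x⁻¹ = c x) (hcK : ∀ x ∈ K, c x = 1)
    (hcp : ∀ x, x ∉ K → p ∣ c x) (q k : ℕ) (hq : q ∣ p ^ k) (hq1 : q ≠ 1) (A e : F → ℂ)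
    (hA : ∀ x, ∃ z : ℂ, IsIntegral ℤ z ∧ A x = (c x : ℂ) * z) (t : ℤ)
    (hAK : ∀ z : K, A z = ((θ z : ℂˣ) : ℂ) * (t : ℂ))
    (hpt : ¬ (p : ℤ) ∣ t) (hec : IsClass e) (hee : conv e e = e)
    (heK : ∀ x : F, ∀ z : K, e (x * z) = ((θ z : ℂˣ) : ℂ) * e x)
    (hB : ∀ x, conv e A x ≠ 0 → c x = q) (hlt : Fintype.card F < q * Nat.card K) : e = 0 := by
  classical
  set n : ℕ := Nat.card K with hn
  have hn0 : (n : ℂ) ≠ 0 := zid_card K
  obtain ⟨hei, r, hrle, hr, hr0⟩ := idem_facts e hec hee
  -- the complementary idempotent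
  have h1 : conv (zid K θ - e) (zid K θ - e) = zid K θ - e := by
    rw [conv_sub_left, conv_sub_right, conv_sub_right, conv_zid K θ _ (zid_over θ),
      conv_zid K θ e heK, zid_conv hK θ e heK, hee]
    ring
  have h2 : IsClass (zid K θ - e) := by
    intro g h
    simp only [Pi.sub_apply]
    rw [zid_class hK θ g h, hec g h]
  obtain ⟨-, r', -, hr', -⟩ := idem_facts (zid K θ - e) h2 h1
  have hz1 : zid K θ 1 = 1 / (n : ℂ) := by
    have := zid_mem θ (1 : K)
    rw [Subgroup.coe_one, map_one, Units.val_one] at this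
    exact this
  have h3 : (r : ℂ) + r' = (Fintype.card F : ℂ) / n := by
    rw [← hr, ← hr', Pi.sub_apply, hz1]
    ring
  have h4 : (r + r') * n = Fintype.card F := by
    have : (((r + r') * n : ℕ) : ℂ) = (Fintype.card F : ℂ) := by
      push_cast
      rw [h3]
      field_simp
    exact_mod_cast this
  have hnpos : 0 < n := Nat.card_pos
  have hrq : r < q := by
    have h5 : r * n < q * n := by
      calc r * n ≤ (r + r') * n := Nat.mul_le_mul_right _ (Nat.le_add_right _ _)
        _ = Fintype.card F := h4
        _ < q * n := hlt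
    exact lt_of_mul_lt_mul_right h5 (Nat.zero_le _)
  -- the modified data
  have hcz : ∀ x y : F, y ∈ K → c (x * y) = c x := by
    intro x y hy
    apply Nat.dvd_antisymm
    · have := hc x y
      rwa [hcK y hy, mul_one] at this
    · have := hc (x * y) y⁻¹
      rw [mul_inv_cancel_right, hcK _ (inv_mem hy), mul_one] at this
      exact this
  have hcz' : ∀ x y : F, x ∈ K → c (x * y) = c y := by
    intro x y hx
    have h5 : x * y = y * x := (Subgroup.mem_center_iff.mp (hK hx) y).symm
    rw [h5, hcz y x hx]
  set c' : F → ℕ := fun x => if x = 1 then 1 else if x ∈ K then p else c x with hc'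
  set A' : F → ℂ := fun x => A x + (t : ℂ) * n * ((if x = 1 then 1 else 0) - zid K θ x) with hA'
  have hr00 : r = 0 := by
    refine lemK hp c' ?_ ?_ ?_ q k hq A' e ?_ (t * n) ?_ ?_ hei ?_ r hr hrq
    · intro x y
      simp only [hc']
      by_cases hx1 : x = 1
      · rw [hx1]; simp
      by_cases hy1 : y = 1
      · rw [hy1]; simp
      rw [if_neg hx1, if_neg hy1]
      by_cases hxy1 : x * y = 1
      · rw [if_pos hxy1]; exact one_dvd _
      rw [if_neg hxy1]
      have hpx : p ∣ (if x ∈ K then p else c x) := by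
        by_cases hx : x ∈ K
        · rw [if_pos hx]
        · rw [if_neg hx]; exact hcp x hx
      by_cases hxy : x * y ∈ K
      · rw [if_pos hxy]
        exact hpx.mul_right _
      · rw [if_neg hxy]
        by_cases hx : x ∈ K
        · have hy : y ∉ K := fun h => hxy (mul_mem hx h)
          rw [if_neg hy, hcz' x y hx]
          exact dvd_mul_left _ _
        · by_cases hy : y ∈ K
          · rw [if_neg hx, hcz x y hy]
            exact dvd_mul_right _ _
          · rw [if_neg hx, if_neg hy]
            exact hc x y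
    · intro x
      simp only [hc', inv_eq_one, inv_mem_iff, hci x]
    · intro x hx
      simp only [hc']
      rw [if_neg hx]
      by_cases hxK : x ∈ K
      · rw [if_pos hxK]
      · rw [if_neg hxK]; exact hcp x hxK
    · intro x
      simp only [hc', hA']
      by_cases hx1 : x = 1
      · refine ⟨(t : ℂ) * n, ?_, ?_⟩
        · have := isIntegral_algebraMap (R := ℤ) (A := ℂ) (x := t * (n : ℤ))
          simpa using this
        · rw [if_pos hx1, if_pos hx1, hx1, hz1]
          have h5 := hAK 1
          rw [Subgroup.coe_one, map_one, Units.val_one] at h5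
          rw [h5]
          push_cast
          field_simp
          ring
      · by_cases hxK : x ∈ K
        · refine ⟨0, isIntegral_zero, ?_⟩
          have h5 := hAK ⟨x, hxK⟩
          have h6 := zid_mem θ ⟨x, hxK⟩
          simp only at h5 h6
          rw [if_neg hx1, if_neg hx1, if_pos hxK, h5, h6]
          field_simp
          ring
        · obtain ⟨z, hz, hz'⟩ := hA x
          refine ⟨z, hz, ?_⟩
          rw [if_neg hx1, if_neg hx1, if_neg hxK, zid_not_mem θ hxK, hz']
          ring
    · simp only [hA']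
      rw [if_pos trivial, hz1]
      have h5 := hAK 1
      rw [Subgroup.coe_one, map_one, Units.val_one] at h5
      rw [h5]
      push_cast
      field_simp
      ring
    · intro h
      rcases (Nat.prime_iff_prime_int.mp hp).dvd_or_dvd h with h | h
      · exact hpt h
      · exact hKp (by exact_mod_cast h)
    · intro x hx
      have hconv : conv e A' x = conv e A x := by
        have h5 : A' = A + (fun x => (t : ℂ) * n * ((if x = 1 then 1 else 0) - zid K θ x)) := by
          funext y
          simp only [hA', Pi.add_apply]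
        rw [h5, conv_add_right]
        have h6 : conv e (fun x => (t : ℂ) * n * ((if x = 1 then 1 else 0) - zid K θ x)) = 0 := by
          funext g
          have h7 : conv e (fun x => (t : ℂ) * n * ((if x = 1 then 1 else 0) - zid K θ x)) g =
              (t : ℂ) * n * (conv e (fun x => if x = 1 then 1 else 0) g - conv e (zid K θ) g) := by
            simp only [conv]
            rw [← Finset.sum_sub_distrib, Finset.mul_sum]
            exact Finset.sum_congr rfl fun k _ => by ring
          rw [h7, conv_zid K θ e heK]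
          have h8 : conv e (fun x => if x = 1 then (1 : ℂ) else 0) g = e g := by
            simp only [conv]
            rw [Finset.sum_eq_single g]
            · simp
            · intro b _ hb
              rw [if_neg, mul_zero]
              intro h
              exact hb (inv_mul_eq_one.mp h)
            · intro h
              exact absurd (Finset.mem_univ _) h
          rw [h8]
          simp
        rw [h6, add_zero]
      rw [hconv] at hx
      have h5 := hB x hx
      have hxK : x ∉ K := by
        intro h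
        rw [hcK x h] at h5
        exact hq1 h5.symm
      have hx1 : x ≠ 1 := by
        intro h
        exact hxK (h ▸ one_mem K)
      simp only [hc']
      rw [if_neg hx1, if_neg hxK]
      exact h5
  exact hr0 hr00

end

end Pool.Agent.Har
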