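import Mathlib
import Pool.Agent.W_02e251_h65.Defs
import Pool.Agent.W_02e251_h65.CharA
import Pool.Agent.W_02e251_h65.CharB
import Pool.Agent.W_02e251_h65.LemKz

/-!
Sums of irreducible characters and irreducible characters over a linear character of a central
subgroup.
-/

set_option autoImplicit false

open Pool.Agent.Har

namespace Pool.Agent.Har

section

variable {H : Type} [Group H] [Fintype H] {ι : Type}

theorem core_ne_zero {χ : H → ℂ} (h : IsIrr χ) : χ 1 ≠ 0 := by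
  obtain ⟨n, hn, h1⟩ := h.degree
  rw [h1]
  exact_mod_cast hn.ne'

theorem core_card : (Fintype.card H : ℂ) ≠ 0 := by
  exact_mod_cast Fintype.card_ne_zero

theorem orth_sum {T : Finset ι} {I : ι → H → ℂ} (hI : Set.InjOn I (T : Set ι))
    (hirr : ∀ i ∈ T, IsIrr (I i)) (w : ι → ℂ) {j : ι} (hj : j ∈ T) :
    ∑ h : H, (∑ i ∈ T, w i * I i h) * I j h⁻¹ = w j * (Fintype.card H : ℂ) := by
  classical
  have h1 : ∀ h : H, (∑ i ∈ T, w i * I i h) * I j h⁻¹ = ∑ i ∈ T, w i * (I i h * I j h⁻¹) := by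
    intro h
    rw [Finset.sum_mul]
    exact Finset.sum_congr rfl fun i _ => by ring
  simp only [h1]
  rw [Finset.sum_comm]
  simp only [← Finset.mul_sum]
  rw [Finset.sum_eq_single j]
  · rw [(hirr j hj).orth (hirr j hj), if_pos rfl]
  · intro i hi hij
    rw [(hirr i hi).orth (hirr j hj), if_neg, mul_zero]
    intro he
    exact hij (hI hi hj he)
  · intro h
    exact absurd hj h

theorem conv_sum {T B : Finset ι} (hTB : T ⊆ B) {I : ι → H → ℂ}
    (hI : Set.InjOn I (B : Set ι)) (hirr : ∀ i ∈ B, IsIrr (I i)) (v w : ι → ℂ) :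
    conv (fun h => ∑ i ∈ T, v i * I i h) (fun h => ∑ i ∈ B, w i * I i h) =
      fun h => ∑ i ∈ T, v i * w i * ((Fintype.card H : ℂ) / I i 1) * I i h := by
  classical
  funext g
  unfold conv
  have h1 : ∀ k : H, (∑ i ∈ T, v i * I i k) * (∑ j ∈ B, w j * I j (k⁻¹ * g)) =
      ∑ i ∈ T, ∑ j ∈ B, v i * w j * (I i k * I j (k⁻¹ * g)) := by
    intro k
    rw [Finset.sum_mul_sum]
    exact Finset.sum_congr rfl fun i _ => Finset.sum_congr rfl fun j _ => by ring
  simp only [h1]
  rw [Finset.sum_comm]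
  refine Finset.sum_congr rfl fun i hi => ?_
  rw [Finset.sum_comm]
  simp only [← Finset.mul_sum]
  rw [Finset.sum_eq_single i]
  · have h2 : conv (I i) (I i) g = (Fintype.card H : ℂ) / I i 1 * I i g := by
      rw [(hirr i (hTB hi)).conv_eq (hirr i (hTB hi)), if_pos rfl]
    unfold conv at h2
    rw [h2]
    ring
  · intro j hj hij
    have h2 : conv (I i) (I j) g = 0 := by
      rw [(hirr i (hTB hi)).conv_eq (hirr j hj), if_neg]
      · rfl
      · intro he
        exact hij (hI hj (hTB hi) he.symm)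
    unfold conv at h2
    rw [h2, mul_zero]
  · intro h
    exact absurd (hTB hi) h

theorem isClass_sum {T : Finset ι} {I : ι → H → ℂ} (hirr : ∀ i ∈ T, IsIrr (I i)) (w : ι → ℂ) :
    IsClass (fun h => ∑ i ∈ T, w i * I i h) := by
  intro g h
  refine Finset.sum_congr rfl fun i hi => ?_
  rw [(hirr i hi).isClass g h]

/-- the central idempotent of `T` -/
noncomputable def idem (T : Finset ι) (I : ι → H → ℂ) (h : H) : ℂ :=
  ∑ i ∈ T, (I i 1 / (Fintype.card H : ℂ)) * I i h

theorem idem_conv {T B : Finset ι} (hTB : T ⊆ B) {I : ι → H → ℂ}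
    (hI : Set.InjOn I (B : Set ι)) (hirr : ∀ i ∈ B, IsIrr (I i)) (w : ι → ℂ) :
    conv (idem T I) (fun h => ∑ i ∈ B, w i * I i h) = fun h => ∑ i ∈ T, w i * I i h := by
  have h1 := conv_sum hTB hI hirr (fun i => I i 1 / (Fintype.card H : ℂ)) w
  have h2 : (idem T I) = (fun h => ∑ i ∈ T, (I i 1 / (Fintype.card H : ℂ)) * I i h) := rfl
  rw [h2, h1]
  funext h
  refine Finset.sum_congr rfl fun i hi => ?_
  have h3 := core_ne_zero (hirr i (hTB hi))
  have h4 := core_card (H := H)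
  field_simp

theorem idem_idem {T : Finset ι} {I : ι → H → ℂ}
    (hI : Set.InjOn I (T : Set ι)) (hirr : ∀ i ∈ T, IsIrr (I i)) :
    conv (idem T I) (idem T I) = idem T I :=
  idem_conv (Finset.Subset.refl T) hI hirr (fun i => I i 1 / (Fintype.card H : ℂ))

theorem conv_smul (u v : H → ℂ) (c : ℂ) (g : H) : conv u (fun x => v x / c) g = conv u v g / c := by
  unfold conv
  rw [Finset.sum_div]
  exact Finset.sum_congr rfl fun k _ => by ring

theorem conv_zero_left (v : H → ℂ) : conv (0 : H → ℂ) v = 0 := by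
  funext g
  unfold conv
  simp

/-- every class function is a combination of the irreducible characters -/
theorem class_expand (S : Finset (H → ℂ)) (hS : ∀ χ : H → ℂ, χ ∈ S ↔ IsIrr χ) (u : H → ℂ)
    (hu : IsClass u) : ∃ a : (H → ℂ) → ℂ, u = fun h => ∑ χ ∈ S, a χ * χ h := by
  classical
  refine ⟨fun χ => (∑ g : H, u g * χ g⁻¹) / (Fintype.card H : ℂ), ?_⟩
  have hirr : ∀ χ ∈ S, IsIrr χ := fun χ h => (hS χ).mp h
  have h1 : (u - fun h => ∑ χ ∈ S, ((∑ g : H, u g * χ g⁻¹) / (Fintype.card H : ℂ)) * χ h) =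
      0 := by
    apply irr_complete
    · intro g h
      have h2 := isClass_sum (I := fun χ : H → ℂ => χ) hirr
        (fun χ => (∑ g : H, u g * χ g⁻¹) / (Fintype.card H : ℂ)) g h
      simp only [Pi.sub_apply]
      rw [hu g h]
      exact congrArg (fun z => u g - z) h2
    · intro ψ hψ
      have h2 := orth_sum (I := fun χ : H → ℂ => χ) (T := S) (fun a _ b _ h => h) hirr
        (fun χ => (∑ g : H, u g * χ g⁻¹) / (Fintype.card H : ℂ)) ((hS ψ).mpr hψ)
      simp only [Pi.sub_apply, sub_mul, Finset.sum_sub_distrib]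
      rw [h2]
      have := core_card (H := H)
      field_simp
      ring
  exact sub_eq_zero.mp h1

/-- an irreducible character lies over `θ` or it is killed by the idempotent of `θ` -/
theorem over_or {K : Subgroup H} (hK : K ≤ Subgroup.center H) (θ : K →* ℂˣ) {ψ : H → ℂ}
    (hψ : IsIrr ψ) :
    conv ψ (zid K θ) = 0 ∨ (conv ψ (zid K θ) = ψ ∧
      ∀ x : H, ∀ z : K, ψ (x * z) = ((θ z : ℂˣ) : ℂ) * ψ x) := by
  classical
  set S := (irr_finite (G := H)).toFinset with hSdef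
  have hS : ∀ χ : H → ℂ, χ ∈ S ↔ IsIrr χ := fun χ => by simp [hSdef]
  have hirr : ∀ χ ∈ S, IsIrr χ := fun χ h => (hS χ).mp h
  obtain ⟨a, ha⟩ := class_expand S hS (zid K θ) (zid_class hK θ)
  have hinj : Set.InjOn (fun χ : H → ℂ => χ) (S : Set (H → ℂ)) := fun a _ b _ h => h
  have hψS : ψ ∈ S := (hS ψ).mpr hψ
  have h1 := conv_sum (Finset.Subset.refl S) hinj hirr a a
  rw [← ha, conv_zid K θ _ (zid_over θ)] at h1
  have h2 := orth_sum hinj hirr a hψS
  have h3 := orth_sum hinj hirr (fun χ => a χ * a χ * ((Fintype.card H : ℂ) / χ 1)) hψS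
  have h4 : a ψ * (Fintype.card H : ℂ) =
      a ψ * a ψ * ((Fintype.card H : ℂ) / ψ 1) * (Fintype.card H : ℂ) := by
    rw [← h2]
    have h5 : ∀ h : H, ∑ i ∈ S, a i * i h =
        ∑ i ∈ S, a i * a i * ((Fintype.card H : ℂ) / i 1) * i h := by
      intro h
      have h6 := congrFun h1 h
      rw [← h6]
      exact (congrFun ha h).symm
    have h7 : ∑ h : H, (∑ i ∈ S, a i * (fun χ : H → ℂ => χ) i h) *
        (fun χ : H → ℂ => χ) ψ h⁻¹ = ∑ h : H, (∑ i ∈ S,
          (fun χ : H → ℂ => a χ * a χ * ((Fintype.card H : ℂ) / χ 1)) i *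
          (fun χ : H → ℂ => χ) i h) * (fun χ : H → ℂ => χ) ψ h⁻¹ := by
      refine Finset.sum_congr rfl fun h _ => ?_
      have := h5 h
      simp only
      rw [this]
    rw [h7, h3]
  have hc := core_card (H := H)
  have hψ1 := core_ne_zero hψ
  have h5 := conv_sum (Finset.singleton_subset_iff.mpr hψS) hinj hirr (fun _ => 1) a
  rw [← ha] at h5
  simp only [Finset.sum_singleton, one_mul] at h5
  have h6 : conv ψ (zid K θ) = fun h => a ψ * ((Fintype.card H : ℂ) / ψ 1) * ψ h := h5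
  have h7 : (a ψ * ((Fintype.card H : ℂ) / ψ 1)) * (a ψ * ((Fintype.card H : ℂ) / ψ 1) - 1) = 0 := by
    have h8 : a ψ = a ψ * a ψ * ((Fintype.card H : ℂ) / ψ 1) := by
      have := mul_right_cancel₀ hc h4
      exact this
    have h9 : a ψ * (a ψ * ((Fintype.card H : ℂ) / ψ 1)) = a ψ := by
      rw [← mul_assoc]
      exact h8.symm
    calc _ = ((Fintype.card H : ℂ) / ψ 1) * (a ψ * (a ψ * ((Fintype.card H : ℂ) / ψ 1)) - a ψ) := by
          ring
      _ = 0 := by rw [h9]; ring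
  rcases mul_eq_zero.mp h7 with h | h
  · left
    rw [h6]
    funext g
    rw [h]
    simp
  · right
    have h8 : conv ψ (zid K θ) = ψ := by
      rw [h6]
      funext g
      rw [sub_eq_zero.mp h, one_mul]
    refine ⟨h8, ?_⟩
    intro x z
    have h9 : ∀ y, conv ψ (zid K θ) y = ψ y := fun y => congrFun h8 y
    rw [← h9 (x * z), ← h9 x]
    unfold conv
    rw [Finset.mul_sum]
    refine Finset.sum_congr rfl fun k _ => ?_
    rw [← mul_assoc, zid_over θ (k⁻¹ * x) z]
    ring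

/-- column orthogonality for the characters over `θ` -/
theorem over_column {K : Subgroup H} (hK : K ≤ Subgroup.center H) (θ : K →* ℂˣ)
    (T : Finset (H → ℂ)) (hT : ∀ χ : H → ℂ, χ ∈ T ↔ (IsIrr χ ∧
      ∀ x : H, ∀ z : K, χ (x * z) = ((θ z : ℂˣ) : ℂ) * χ x)) (h k : H)
    (hhk : ∀ m : H, m⁻¹ * k ∈ K → ¬ IsConj m h⁻¹) : ∑ χ ∈ T, χ h * χ k = 0 := by
  classical
  set S := (irr_finite (G := H)).toFinset with hSdef
  have hS : ∀ χ : H → ℂ, χ ∈ S ↔ IsIrr χ := fun χ => by simp [hSdef]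
  have hTS : T ⊆ S := fun χ hχ => (hS χ).mpr ((hT χ).mp hχ).1
  have h1 : ∑ χ ∈ T, χ h * χ k = ∑ χ ∈ S, χ h * conv χ (zid K θ) k := by
    rw [← Finset.sum_subset hTS]
    · refine Finset.sum_congr rfl fun χ hχ => ?_
      rw [conv_zid K θ χ ((hT χ).mp hχ).2]
    · intro χ hχ hχT
      rcases over_or hK θ ((hS χ).mp hχ) with h2 | h2
      · rw [h2]
        simp
      · exact absurd ((hT χ).mpr ⟨(hS χ).mp hχ, h2.2⟩) hχT
  rw [h1]
  have h2 : ∀ χ : H → ℂ, χ h * conv χ (zid K θ) k = ∑ m : H, zid K θ (m⁻¹ * k) * (χ h * χ m) := by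
    intro χ
    unfold conv
    rw [Finset.mul_sum]
    exact Finset.sum_congr rfl fun m _ => by ring
  simp only [h2]
  rw [Finset.sum_comm]
  refine Finset.sum_eq_zero fun m _ => ?_
  rw [← Finset.mul_sum]
  by_cases hm : m⁻¹ * k ∈ K
  · have h3 := irr_column S hS m h⁻¹ (hhk m hm)
    rw [inv_inv] at h3
    rw [h3, mul_zero]
  · rw [zid_not_mem θ hm, zero_mul]

end

end Pool.Agent.Har
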