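import Mathlib
import Pool.Agent.W_02e251_h65.Defs
import Pool.Agent.W_02e251_h65.CharA
import Pool.Agent.W_02e251_h65.CharB
import Pool.Agent.W_02e251_h65.Blk
import Pool.Agent.W_02e251_h65.Over

/-!
Harada's conjecture for blocks with at most two irreducible Brauer characters.
-/

set_option autoImplicit false

open Pool.Agent.Har

namespace Pool.Agent.Har

variable {G : Type} [Group G] [Fintype G]

/-- the restriction to the `p`-regular elements, extended by zero -/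
noncomputable def pres (p : ℕ) (f : G → ℂ) (g : G) : ℂ := if p ∣ orderOf g then 0 else f g

theorem pres_of_vanSing {p : ℕ} {f : G → ℂ} (hf : VanSing p f) : pres p f = f := by
  funext g
  unfold pres
  split_ifs with h
  · exact (hf g h).symm
  · rfl

theorem pres_sum {p : ℕ} {T : Finset (G → ℂ)} (w : (G → ℂ) → ℂ) :
    pres p (fun g => ∑ χ ∈ T, w χ * χ g) = ∑ χ ∈ T, w χ • pres p χ := by
  funext g
  rw [Finset.sum_apply]
  unfold pres
  by_cases h : p ∣ orderOf g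
  · simp [h]
  · simp [h]

/-- a subset of a block which is not linked to its complement is empty or everything -/
theorem link_closed {p : ℕ} {B : Finset (G → ℂ)} (hB : IsBlock p B) {J : Finset (G → ℂ)}
    (hJ : J.Nonempty) (hJB : J ⊆ B)
    (h1 : ∀ χ ∈ J, ∀ ψ ∈ B, ψ ∉ J → ¬ Linked p χ ψ)
    (h2 : ∀ χ ∈ J, ∀ ψ ∈ B, ψ ∉ J → ¬ Linked p ψ χ) : J = B := by
  obtain ⟨χ₀, hχ₀, hB'⟩ := hB
  by_cases h0 : χ₀ ∈ J
  · refine Finset.Subset.antisymm hJB fun χ hχ => ?_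
    have h3 := (hB' χ).mp hχ
    induction h3 with
    | refl => exact h0
    | tail hab hbc ih =>
      by_contra hc
      exact h1 _ (ih ((hB' _).mpr hab)) _ hχ hc hbc
  · exfalso
    obtain ⟨χ, hχ⟩ := hJ
    have h3 : ∀ ψ, Relation.ReflTransGen (Linked p) χ₀ ψ → ψ ∉ J := by
      intro ψ h
      induction h with
      | refl => exact h0
      | tail hab hbc ih =>
        intro hc
        exact h2 _ hc _ ((hB' _).mpr hab) ih hbc
    exact h3 χ ((hB' χ).mp (hJB hχ)) hχ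

/-- pairing of a sum with an irreducible character outside -/
theorem pair_out {T : Finset (G → ℂ)} (hT : ∀ χ ∈ T, IsIrr χ) (w : (G → ℂ) → ℂ) {ψ : G → ℂ}
    (hψ : IsIrr ψ) (hψT : ψ ∉ T) : ∑ g : G, (∑ χ ∈ T, w χ * χ g) * ψ g⁻¹ = 0 := by
  classical
  have h1 : ∀ g : G, (∑ χ ∈ T, w χ * χ g) * ψ g⁻¹ = ∑ χ ∈ T, w χ * (χ g * ψ g⁻¹) := by
    intro g
    rw [Finset.sum_mul]
    exact Finset.sum_congr rfl fun χ _ => by ring
  simp only [h1]
  rw [Finset.sum_comm]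
  refine Finset.sum_eq_zero fun χ hχ => ?_
  rw [← Finset.mul_sum, (hT χ hχ).orth hψ, if_neg, mul_zero]
  rintro rfl
  exact hψT hχ

/-- the key step: the space spanned by the restrictions has dimension at most two -/
theorem two_step {p : ℕ} (hp : p.Prime) {B : Finset (G → ℂ)} (hirr : ∀ χ ∈ B, IsIrr χ)
    (hl : Module.finrank ℂ (Submodule.span ℂ {f : G → ℂ | ∃ χ ∈ B, f = pres p χ}) ≤ 2)
    {J J' : Finset (G → ℂ)} (hJB : J ⊆ B) (hJB' : J' ⊆ B) (hd : ∀ χ ∈ J, χ ∉ J')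
    (hJS : VanSing p (fun g => ∑ χ ∈ J, χ 1 * χ g))
    (hJS' : VanSing p (fun g => ∑ χ ∈ J', χ 1 * χ g)) {χ ψ : G → ℂ} (hχ : χ ∈ J)
    (hψ : ψ ∈ J') : ¬ Linked p χ ψ := by
  classical
  set V := Submodule.span ℂ {f : G → ℂ | ∃ χ ∈ B, f = pres p χ} with hV
  have hmem : ∀ T : Finset (G → ℂ), T ⊆ B → VanSing p (fun g => ∑ χ ∈ T, χ 1 * χ g) →
      (fun g => ∑ χ ∈ T, χ 1 * χ g) ∈ V := by
    intro T hT hTS
    rw [← pres_of_vanSing hTS, pres_sum (fun χ => χ 1)]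
    refine Submodule.sum_mem _ fun χ hχ => Submodule.smul_mem _ _ ?_
    exact Submodule.subset_span ⟨χ, hT hχ, rfl⟩
  have hirrJ : ∀ χ ∈ J, IsIrr χ := fun χ h => hirr χ (hJB h)
  have hirrJ' : ∀ χ ∈ J', IsIrr χ := fun χ h => hirr χ (hJB' h)
  have hχJ' : χ ∉ J' := hd χ hχ
  have hψJ : ψ ∉ J := fun h => hd ψ h hψ
  have hinjJ : Set.InjOn (fun χ : G → ℂ => χ) (J : Set (G → ℂ)) := fun a _ b _ h => h
  have hinjJ' : Set.InjOn (fun χ : G → ℂ => χ) (J' : Set (G → ℂ)) := fun a _ b _ h => h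
  -- three vectors in a space of dimension at most two
  let v : Fin 3 → V := ![⟨_, hmem J hJB hJS⟩, ⟨_, hmem J' hJB' hJS'⟩,
    ⟨pres p χ, Submodule.subset_span ⟨χ, hJB hχ, rfl⟩⟩]
  have hdep : ¬ LinearIndependent ℂ v := by
    intro h
    have h3 := h.fintype_card_le_finrank
    rw [Fintype.card_fin] at h3
    omega
  rw [Fintype.not_linearIndependent_iff] at hdep
  obtain ⟨c, hc, i, hi⟩ := hdep
  rw [Fin.sum_univ_three] at hc
  have hrel : ∀ g : G, c 0 * (∑ χ ∈ J, χ 1 * χ g) + c 1 * (∑ χ ∈ J', χ 1 * χ g) +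
      c 2 * pres p χ g = 0 := by
    intro g
    have h3 := congrFun (congrArg Subtype.val hc) g
    simpa [v] using h3
  -- pairing with a function
  have hpair : ∀ u : G → ℂ, c 0 * (∑ g : G, (∑ χ ∈ J, χ 1 * χ g) * u g⁻¹) +
      c 1 * (∑ g : G, (∑ χ ∈ J', χ 1 * χ g) * u g⁻¹) + c 2 * (∑ g : G, pres p χ g * u g⁻¹) =
        0 := by
    intro u
    rw [Finset.mul_sum, Finset.mul_sum, Finset.mul_sum, ← Finset.sum_add_distrib,
      ← Finset.sum_add_distrib]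
    refine Finset.sum_eq_zero fun g _ => ?_
    have h3 := hrel g
    linear_combination u g⁻¹ * h3
  have hG : (Fintype.card G : ℂ) ≠ 0 := core_card
  have hψ1 := core_ne_zero (hirrJ' ψ hψ)
  have hχ1 := core_ne_zero (hirrJ χ hχ)
  -- pairing with `ψ`
  have hpψ := hpair ψ
  rw [pair_out hirrJ (fun χ => χ 1) (hirrJ' ψ hψ) hψJ,
    orth_sum (I := fun χ : G → ℂ => χ) hinjJ' hirrJ' (fun χ => χ 1) hψ] at hpψ
  -- pairing with the sum over `J'`
  have hp3 : ∑ g : G, pres p χ g * (∑ ψ ∈ J', ψ 1 * ψ g⁻¹) = 0 := by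
    have h4 : ∀ g : G, pres p χ g * (∑ ψ ∈ J', ψ 1 * ψ g⁻¹) =
        χ g * (∑ ψ ∈ J', ψ 1 * ψ g⁻¹) := by
      intro g
      unfold pres
      split_ifs with h
      · have h5 : ∑ ψ ∈ J', ψ 1 * ψ g⁻¹ = 0 := hJS' g⁻¹ (by rw [orderOf_inv]; exact h)
        rw [h5]
        ring
      · rfl
    simp only [h4]
    have h5 : ∀ g : G, χ g * (∑ ψ ∈ J', ψ 1 * ψ g⁻¹) = ∑ ψ ∈ J', ψ 1 * (χ g * ψ g⁻¹) := by
      intro g
      rw [Finset.mul_sum]
      exact Finset.sum_congr rfl fun _ _ => by ring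
    simp only [h5]
    rw [Finset.sum_comm]
    refine Finset.sum_eq_zero fun ψ' hψ' => ?_
    rw [← Finset.mul_sum, (hirrJ χ hχ).orth (hirrJ' ψ' hψ'), if_neg, mul_zero]
    rintro rfl
    exact hχJ' hψ'
  have hself : ∀ T : Finset (G → ℂ), (∀ χ ∈ T, IsIrr χ) → ∀ T' : Finset (G → ℂ),
      (∀ χ ∈ T', IsIrr χ) → ∑ g : G, (∑ χ ∈ T, χ 1 * χ g) * (∑ ψ ∈ T', ψ 1 * ψ g⁻¹) =
        ∑ ψ ∈ T', if ψ ∈ T then ψ 1 * ψ 1 * (Fintype.card G : ℂ) else 0 := by
    intro T hT T' hT'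
    have h5 : ∀ g : G, (∑ χ ∈ T, χ 1 * χ g) * (∑ ψ ∈ T', ψ 1 * ψ g⁻¹) =
        ∑ ψ ∈ T', ψ 1 * ((∑ χ ∈ T, χ 1 * χ g) * ψ g⁻¹) := by
      intro g
      rw [Finset.mul_sum]
      exact Finset.sum_congr rfl fun _ _ => by ring
    simp only [h5]
    rw [Finset.sum_comm]
    refine Finset.sum_congr rfl fun ψ' hψ' => ?_
    rw [← Finset.mul_sum]
    split_ifs with h6
    · rw [orth_sum (I := fun χ : G → ℂ => χ) (fun a _ b _ h => h) hT (fun χ => χ 1) h6]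
      ring
    · rw [pair_out hT (fun χ => χ 1) (hT' ψ' hψ') h6, mul_zero]
  have hpJ' := hpair (fun g => ∑ ψ ∈ J', ψ 1 * ψ g)
  rw [hp3, hself J hirrJ J' hirrJ', hself J' hirrJ' J' hirrJ', mul_zero, add_zero] at hpJ'
  have h6 : ∑ ψ ∈ J', (if ψ ∈ J then ψ 1 * ψ 1 * (Fintype.card G : ℂ) else 0) = 0 := by
    refine Finset.sum_eq_zero fun ψ' hψ' => ?_
    rw [if_neg]
    intro h
    exact hd ψ' h hψ'
  have h7 : ∑ ψ ∈ J', (if ψ ∈ J' then ψ 1 * ψ 1 * (Fintype.card G : ℂ) else 0) ≠ 0 := by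
    have h8 : ∀ ψ ∈ J', ∃ n : ℕ, 0 < n ∧ (if ψ ∈ J' then ψ 1 * ψ 1 * (Fintype.card G : ℂ) else 0)
        = ((n : ℕ) : ℂ) := by
      intro ψ' hψ'
      obtain ⟨n, hn, hn'⟩ := (hirrJ' ψ' hψ').degree
      refine ⟨n * n * Fintype.card G, Nat.mul_pos (Nat.mul_pos hn hn) Fintype.card_pos, ?_⟩
      rw [if_pos hψ', hn']
      push_cast
      ring
    choose! n hn hn' using h8
    rw [Finset.sum_congr rfl hn']
    have h9 : (0 : ℕ) < ∑ ψ ∈ J', n ψ := Finset.sum_pos hn ⟨ψ, hψ⟩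
    intro h10
    have h11 : ((∑ ψ ∈ J', n ψ : ℕ) : ℂ) = 0 := by
      push_cast
      exact h10
    have h12 : ∑ ψ ∈ J', n ψ = 0 := by exact_mod_cast h11
    omega
  rw [h6, mul_zero, zero_add] at hpJ'
  have hc1 : c 1 = 0 := by
    rcases mul_eq_zero.mp hpJ' with h | h
    · exact h
    · exact absurd h h7
  -- `c 2` is not zero
  have hc2 : c 2 ≠ 0 := by
    intro h2
    have hpχ := hpair χ
    rw [hc1, h2, orth_sum (I := fun χ : G → ℂ => χ) hinjJ hirrJ (fun χ => χ 1) hχ] at hpχ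
    have hc0 : c 0 = 0 := by
      have h3 : c 0 * (χ 1 * (Fintype.card G : ℂ)) = 0 := by
        linear_combination hpχ
      rcases mul_eq_zero.mp h3 with h | h
      · exact h
      · exact absurd h (mul_ne_zero hχ1 hG)
    fin_cases i
    · exact hi hc0
    · exact hi hc1
    · exact hi h2
  rw [hc1] at hpψ
  have h13 : ∑ g : G, pres p χ g * ψ g⁻¹ = 0 := by
    have h14 : c 2 * ∑ g : G, pres p χ g * ψ g⁻¹ = 0 := by
      linear_combination hpψ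
    rcases mul_eq_zero.mp h14 with h | h
    · exact absurd h hc2
    · exact h
  rintro ⟨_, _, h15⟩
  apply h15
  rw [← h13, Finset.sum_filter]
  refine Finset.sum_congr rfl fun g _ => ?_
  unfold pres
  by_cases h : p ∣ orderOf g
  · rw [if_pos h, if_neg, zero_mul]
    intro h16
    have h17 := Nat.dvd_gcd h (dvd_refl p)
    rw [h16.gcd_eq_one] at h17
    exact hp.one_lt.ne' (Nat.dvd_one.mp h17)
  · rw [if_neg h, if_pos]
    exact ((Nat.Prime.coprime_iff_not_dvd hp).mpr h).symm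

theorem two_main {p : ℕ} (hp : p.Prime) (B : Finset (G → ℂ)) (hB : IsBlock p B)
    (hl : Module.finrank ℂ (Submodule.span ℂ {f : G → ℂ | ∃ χ ∈ B, f = pres p χ}) ≤ 2)
    (J : Finset (G → ℂ)) (hJ : J.Nonempty) (hJB : J ⊆ B)
    (hJS : VanSing p (fun g => ∑ χ ∈ J, χ 1 * χ g)) : J = B := by
  classical
  have hirr : ∀ χ ∈ B, IsIrr χ := fun χ h => hB.isIrr h
  have hJS' : VanSing p (fun g => ∑ χ ∈ B \ J, χ 1 * χ g) := by
    intro g hg
    have h1 : ∑ χ ∈ B, χ 1 * χ g = 0 := hB.vanSing hp g hg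
    have h2 : ∑ χ ∈ J, χ 1 * χ g = 0 := hJS g hg
    show ∑ χ ∈ B \ J, χ 1 * χ g = 0
    rw [← Finset.sum_sdiff hJB, h2, add_zero] at h1
    exact h1
  refine link_closed hB hJ hJB ?_ ?_
  · intro χ hχ ψ hψ hψJ
    exact two_step hp hirr hl hJB Finset.sdiff_subset
      (fun χ h h' => (Finset.mem_sdiff.mp h').2 h) hJS hJS' hχ
      (Finset.mem_sdiff.mpr ⟨hψ, hψJ⟩)
  · intro χ hχ ψ hψ hψJ
    exact two_step hp hirr hl Finset.sdiff_subset hJB
      (fun χ h h' => (Finset.mem_sdiff.mp h).2 h') hJS' hJS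
      (Finset.mem_sdiff.mpr ⟨hψ, hψJ⟩) hχ

end Pool.Agent.Har
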