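import Mathlib
import Pool.Agent.W_02e251_h65.Defs
import Pool.Agent.W_02e251_h65.CharA
import Pool.Agent.W_02e251_h65.CharB
import Pool.Agent.W_02e251_h65.Blk
import Pool.Agent.W_02e251_h65.Over
import Pool.Agent.W_02e251_h65.Two

/-!
Harada's conjecture for blocks with exceptional characters.
-/

set_option autoImplicit false

open Pool.Agent.Har

namespace Pool.Agent.Har

variable {G : Type} [Group G] [Fintype G]

/-- functions vanishing on the `p`-regular elements -/
def VanReg (p : ℕ) (f : G → ℂ) : Prop := ∀ g : G, ¬ p ∣ orderOf g → f g = 0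

/-- the class functions in the span of `B` which vanish on the `p`-regular elements; the dimension
of this space is `k(B) - l(B)` -/
def regKer (p : ℕ) (B : Finset (G → ℂ)) : Submodule ℂ (G → ℂ) where
  carrier := {f | f ∈ Submodule.span ℂ (B : Set (G → ℂ)) ∧ VanReg p f}
  add_mem' := by
    rintro f g ⟨hf, hf'⟩ ⟨hg, hg'⟩
    refine ⟨Submodule.add_mem _ hf hg, fun x hx => ?_⟩
    rw [Pi.add_apply, hf' x hx, hg' x hx, add_zero]
  zero_mem' := ⟨Submodule.zero_mem _, fun _ _ => rfl⟩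
  smul_mem' := by
    rintro c f ⟨hf, hf'⟩
    refine ⟨Submodule.smul_mem _ c hf, fun x hx => ?_⟩
    rw [Pi.smul_apply, hf' x hx, smul_zero]

/-- the bilinear form -/
noncomputable def bil (f g : G → ℂ) : ℂ := ∑ x : G, f x * g x⁻¹

theorem bil_sum_left {ι : Type} (T : Finset ι) (a : ι → ℂ) (v : ι → G → ℂ) (u : G → ℂ) :
    bil (fun g => ∑ i ∈ T, a i * v i g) u = ∑ i ∈ T, a i * bil (v i) u := by
  unfold bil
  simp only [Finset.sum_mul, Finset.mul_sum]
  rw [Finset.sum_comm]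
  exact Finset.sum_congr rfl fun i _ => Finset.sum_congr rfl fun g _ => by ring

theorem bil_sum_right {ι : Type} (T : Finset ι) (a : ι → ℂ) (v : ι → G → ℂ) (u : G → ℂ) :
    bil u (fun g => ∑ i ∈ T, a i * v i g) = ∑ i ∈ T, a i * bil u (v i) := by
  unfold bil
  simp only [Finset.mul_sum]
  rw [Finset.sum_comm]
  exact Finset.sum_congr rfl fun i _ => Finset.sum_congr rfl fun g _ => by ring

theorem bil_zero {p : ℕ} {f g : G → ℂ} (hf : VanSing p f) (hg : VanReg p g) : bil f g = 0 := by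
  refine Finset.sum_eq_zero fun x _ => ?_
  by_cases h : p ∣ orderOf x
  · rw [hf x h, zero_mul]
  · rw [hg x⁻¹ (by rwa [orderOf_inv]), mul_zero]

/-- coordinates -/
theorem bil_coord {B : Finset (G → ℂ)} (hirr : ∀ χ ∈ B, IsIrr χ) (y : (G → ℂ) → ℂ)
    {ψ : G → ℂ} (hψ : ψ ∈ B) :
    bil (fun g => ∑ χ ∈ B, y χ * χ g) ψ = y ψ * (Fintype.card G : ℂ) :=
  orth_sum (I := fun χ : G → ℂ => χ) (fun a _ b _ h => h) hirr y hψ

open scoped Classical in
theorem bil_irr {χ ψ : G → ℂ} (hχ : IsIrr χ) (hψ : IsIrr ψ) :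
    bil χ ψ = if χ = ψ then (Fintype.card G : ℂ) else 0 := hχ.orth hψ

/-- the restriction of a character of `B` to the regular elements is in the span of `B` -/
theorem pres_mem_span {p : ℕ} (hp : p.Prime) {B : Finset (G → ℂ)} (hB : IsBlock p B)
    {χ : G → ℂ} (hχ : χ ∈ B) : pres p χ ∈ Submodule.span ℂ (B : Set (G → ℂ)) := by
  classical
  set S := (irr_finite (G := G)).toFinset with hSdef
  have hS : ∀ χ : G → ℂ, χ ∈ S ↔ IsIrr χ := fun χ => by simp [hSdef]
  have hχi := hB.isIrr hχ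
  have hcl : IsClass (pres p χ) := by
    intro g h
    unfold pres
    have h1 : orderOf (h * g * h⁻¹) = orderOf g :=
      orderOf_injective (MulAut.conj h).toMonoidHom (MulAut.conj h).injective g
    rw [h1, hχi.isClass g h]
  obtain ⟨a, ha⟩ := class_expand S hS (pres p χ) hcl
  have hirr : ∀ χ ∈ S, IsIrr χ := fun χ h => (hS χ).mp h
  have hz : ∀ ψ ∈ S, ψ ∉ B → a ψ = 0 := by
    intro ψ hψ hψB
    have h1 : bil (pres p χ) ψ = a ψ * (Fintype.card G : ℂ) := by
      have h2 := bil_coord hirr a hψ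
      rw [← ha] at h2
      exact h2
    have h3 : bil (pres p χ) ψ = 0 := by
      by_contra h4
      apply hψB
      obtain ⟨χ₀, h0, hB'⟩ := hB
      rw [hB']
      refine Relation.ReflTransGen.tail ((hB' χ).mp hχ) ⟨hχi, hirr ψ hψ, ?_⟩
      intro h5
      apply h4
      rw [← h5, Finset.sum_filter]
      unfold bil
      refine Finset.sum_congr rfl fun g _ => ?_
      unfold pres
      by_cases h : p ∣ orderOf g
      · rw [if_pos h, if_neg, zero_mul]
        intro h16
        have h17 := Nat.dvd_gcd h (dvd_refl p)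
        rw [h16.gcd_eq_one] at h17
        exact hp.one_lt.ne' (Nat.dvd_one.mp h17)
      · rw [if_neg h, if_pos]
        exact ((Nat.Prime.coprime_iff_not_dvd hp).mpr h).symm
    rw [h3] at h1
    rcases mul_eq_zero.mp h1.symm with h | h
    · exact h
    · exact absurd h core_card
  rw [ha]
  have h6 : (fun h => ∑ χ ∈ S, a χ * χ h) = ∑ χ ∈ S, a χ • χ := by
    funext g
    simp
  rw [h6]
  refine Submodule.sum_mem _ fun ψ hψ => ?_
  by_cases h : ψ ∈ B
  · exact Submodule.smul_mem _ _ (Submodule.subset_span h)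
  · rw [hz ψ hψ h, zero_smul]
    exact Submodule.zero_mem _

/-- the singular part of a character of `B` -/
theorem sing_mem {p : ℕ} (hp : p.Prime) {B : Finset (G → ℂ)} (hB : IsBlock p B)
    {χ : G → ℂ} (hχ : χ ∈ B) : χ - pres p χ ∈ regKer p B := by
  refine ⟨Submodule.sub_mem _ (Submodule.subset_span hχ) (pres_mem_span hp hB hχ), ?_⟩
  intro g hg
  rw [Pi.sub_apply]
  unfold pres
  rw [if_neg hg, sub_self]

/-- a combination of `B` which is orthogonal to `regKer` vanishes on the singular elements -/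
theorem vanSing_of_orth {p : ℕ} (hp : p.Prime) {B : Finset (G → ℂ)} (hB : IsBlock p B)
    (y : (G → ℂ) → ℂ) (h : ∀ f ∈ regKer p B, bil (fun g => ∑ χ ∈ B, y χ * χ g) f = 0) :
    VanSing p (fun g => ∑ χ ∈ B, y χ * χ g) := by
  classical
  set u : G → ℂ := fun g => ∑ χ ∈ B, y χ * χ g with hu
  have hirr : ∀ χ ∈ B, IsIrr χ := fun χ h => hB.isIrr h
  have hcl : IsClass u := isClass_sum (I := fun χ : G → ℂ => χ) hirr y
  have hclp : IsClass (pres p u) := by
    intro g h
    unfold pres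
    have h1 : orderOf (h * g * h⁻¹) = orderOf g :=
      orderOf_injective (MulAut.conj h).toMonoidHom (MulAut.conj h).injective g
    rw [h1, hcl g h]
  -- the singular part
  have hz : u - pres p u = 0 := by
    apply irr_complete
    · intro g h
      rw [Pi.sub_apply, Pi.sub_apply, hcl g h, hclp g h]
    · intro ψ hψ
      have h1 : ∑ g : G, (u - pres p u) g * ψ g⁻¹ = bil u (ψ - pres p ψ) := by
        unfold bil
        refine Finset.sum_congr rfl fun g _ => ?_
        simp only [Pi.sub_apply]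
        unfold pres
        by_cases hg : p ∣ orderOf g
        · rw [if_pos hg, if_pos (by rwa [orderOf_inv])]
          ring
        · rw [if_neg hg, if_neg (by rwa [orderOf_inv])]
          ring
      rw [h1]
      by_cases hψB : ψ ∈ B
      · exact h _ (sing_mem hp hB hψB)
      · -- `ψ` is not in `B`
        have h2 : bil u (ψ - pres p ψ) = bil u ψ - ∑ χ ∈ B, y χ * bil (pres p χ) ψ := by
          have h3 : bil u (ψ - pres p ψ) = bil u ψ - bil (pres p u) ψ := by
            unfold bil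
            rw [← Finset.sum_sub_distrib]
            refine Finset.sum_congr rfl fun g _ => ?_
            simp only [Pi.sub_apply]
            unfold pres
            by_cases hg : p ∣ orderOf g
            · rw [if_pos hg, if_pos (by rwa [orderOf_inv])]
              ring
            · rw [if_neg hg, if_neg (by rwa [orderOf_inv])]
              ring
          have h4 : pres p u = fun g => ∑ χ ∈ B, y χ * pres p χ g := by
            rw [hu, pres_sum y]
            funext g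
            simp
          rw [h3, h4, bil_sum_left B y (fun χ => pres p χ)]
        rw [h2]
        have h5 : bil u ψ = 0 := pair_out hirr y hψ hψB
        have h6 : ∀ χ ∈ B, y χ * bil (pres p χ) ψ = 0 := by
          intro χ hχ
          have h7 : ∃ b : (G → ℂ) → ℂ, pres p χ = fun g => ∑ ξ ∈ B, b ξ * ξ g := by
            have h8 := pres_mem_span hp hB hχ
            rw [Submodule.mem_span_finset] at h8
            obtain ⟨b, -, hb⟩ := h8
            refine ⟨b, ?_⟩
            rw [← hb]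
            funext g
            simp
          obtain ⟨b, hb⟩ := h7
          have h9 : bil (pres p χ) ψ = 0 := by
            rw [hb]
            exact pair_out hirr b hψ hψB
          rw [h9, mul_zero]
        rw [h5, Finset.sum_eq_zero h6, sub_zero]
  intro g hg
  have h1 := congrFun hz g
  simp only [Pi.sub_apply, Pi.zero_apply] at h1
  unfold pres at h1
  rw [if_pos hg, sub_zero] at h1
  exact h1

/-- the value at one of an integral combination of `B` vanishing on the singular elements -/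
theorem value_dvd {p : ℕ} (hp : p.Prime) {B : Finset (G → ℂ)} (hirr : ∀ χ ∈ B, IsIrr χ)
    (y : (G → ℂ) → ℤ) (dg : (G → ℂ) → ℕ) (hdg : ∀ χ ∈ B, χ 1 = (dg χ : ℂ))
    (hS : VanSing p (fun g => ∑ χ ∈ B, (y χ : ℂ) * χ g)) :
    (p : ℤ) ^ (padicValNat p (Fintype.card G)) ∣ ∑ χ ∈ B, y χ * (dg χ : ℤ) := by
  classical
  let P : Sylow p G := default
  haveI : Fact p.Prime := ⟨hp⟩
  haveI : Fintype P := Fintype.ofFinite _
  have hcard : Fintype.card P = p ^ (padicValNat p (Fintype.card G)) := by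
    rw [← Nat.card_eq_fintype_card, P.card_eq_multiplicity, Nat.card_eq_fintype_card,
      Nat.factorization_def _ hp]
  have hav : ∀ χ : G → ℂ, ∃ m : ℕ, χ ∈ B →
      ∑ g : (P : Subgroup G), χ g = (Fintype.card P : ℂ) * m := by
    intro χ
    by_cases hχ : χ ∈ B
    · obtain ⟨m, hm⟩ := (hirr χ hχ).average (P : Subgroup G)
      exact ⟨m, fun _ => hm⟩
    · exact ⟨0, fun h => absurd h hχ⟩
  choose m hm using hav
  have h1 : ∑ g : (P : Subgroup G), ∑ χ ∈ B, (y χ : ℂ) * χ g = ∑ χ ∈ B, (y χ : ℂ) * χ 1 := by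
    rw [Finset.sum_eq_single 1]
    · rfl
    · intro g _ hg
      apply hS (g : G)
      obtain ⟨k, hk⟩ := (IsPGroup.iff_orderOf.mp P.isPGroup') g
      rw [Subgroup.orderOf_coe, hk]
      rcases Nat.eq_zero_or_pos k with h0 | h0
      · exfalso
        rw [h0, pow_zero, orderOf_eq_one_iff] at hk
        exact hg hk
      · exact dvd_pow_self p h0.ne'
    · intro h
      exact absurd (Finset.mem_univ _) h
  have h2 : ((∑ χ ∈ B, y χ * (dg χ : ℤ) : ℤ) : ℂ) =
      (((p : ℤ) ^ (padicValNat p (Fintype.card G)) * ∑ χ ∈ B, y χ * (m χ : ℤ) : ℤ) : ℂ) := by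
    have h3 : ((∑ χ ∈ B, y χ * (dg χ : ℤ) : ℤ) : ℂ) = ∑ χ ∈ B, (y χ : ℂ) * χ 1 := by
      push_cast
      refine Finset.sum_congr rfl fun χ hχ => ?_
      rw [hdg χ hχ]
    have h5 : (p : ℂ) ^ (padicValNat p (Fintype.card G)) = (Fintype.card P : ℂ) := by
      rw [hcard]
      push_cast
      rfl
    rw [h3, ← h1, Finset.sum_comm]
    push_cast
    rw [h5, Finset.mul_sum]
    refine Finset.sum_congr rfl fun χ hχ => ?_
    rw [← Finset.mul_sum, hm χ hχ]
    ring
  exact ⟨_, by exact_mod_cast h2⟩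

/-- the main theorem on blocks with exceptional characters -/
theorem exc_main {p : ℕ} (hp : p.Prime) {B X : Finset (G → ℂ)} (hB : IsBlock p B)
    (hXB : X ⊆ B) (hX : X.Nonempty)
    (hprop : ∀ χ ∈ X, ∀ ψ ∈ X, ∀ g : G, ¬ p ∣ orderOf g → ψ 1 * χ g = χ 1 * ψ g)
    (hdim : Module.finrank ℂ (regKer p B) ≤ X.card)
    (y : (G → ℂ) → ℂ) (hy : VanReg p (fun g => ∑ χ ∈ B, y χ * χ g))
    (c : (G → ℂ) → ℤ) (hc : ∀ χ ∈ B, χ ∉ X → y χ = (c χ : ℂ))
    (ψ₀ : G → ℂ) (hψ₀ : ψ₀ ∈ B) (hψ₀X : ψ₀ ∉ X) (hc₀ : c ψ₀ ≠ 0)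
    (dg : (G → ℂ) → ℕ) (hdg : ∀ χ ∈ B, χ 1 = (dg χ : ℂ))
    (ψ₁ : G → ℂ) (hψ₁ : ψ₁ ∈ B) (hψ₁X : ψ₁ ∉ X)
    (hsmall : ∑ χ ∈ B \ X, c χ ^ 2 <
      (p : ℤ) ^ (padicValNat p (Fintype.card G) - padicValNat p (dg ψ₁)))
    (J : Finset (G → ℂ)) (hJ : J.Nonempty) (hJB : J ⊆ B)
    (hJS : VanSing p (fun g => ∑ χ ∈ J, χ 1 * χ g)) : J = B := by
  classical
  haveI : Fact p.Prime := ⟨hp⟩
  have hirr : ∀ χ ∈ B, IsIrr χ := fun χ h => hB.isIrr h
  have hG : (Fintype.card G : ℂ) ≠ 0 := core_card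
  obtain ⟨χ₁, hχ₁⟩ := hX
  have hspan : ∀ z : (G → ℂ) → ℂ, (fun g => ∑ χ ∈ B, z χ * χ g) ∈
      Submodule.span ℂ (B : Set (G → ℂ)) := by
    intro z
    have h1 : (fun g : G => ∑ χ ∈ B, z χ * χ g) = ∑ χ ∈ B, z χ • χ := by
      funext g
      simp
    rw [h1]
    exact Submodule.sum_mem _ fun χ hχ => Submodule.smul_mem _ _ (Submodule.subset_span hχ)
  -- a family of `|X|` linearly independent elements of `regKer`
  set wf : G → ℂ := fun g => ∑ χ ∈ B, y χ * χ g with hwf
  have hwmem : wf ∈ regKer p B := ⟨hspan y, hy⟩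
  have hvmem : ∀ χ ∈ X, (χ₁ 1 • χ - χ 1 • χ₁) ∈ regKer p B := by
    intro χ hχ
    refine ⟨Submodule.sub_mem _ (Submodule.smul_mem _ _ (Submodule.subset_span (hXB hχ)))
      (Submodule.smul_mem _ _ (Submodule.subset_span (hXB hχ₁))), ?_⟩
    intro g hg
    simp only [Pi.sub_apply, Pi.smul_apply, smul_eq_mul]
    rw [hprop χ hχ χ₁ hχ₁ g hg, sub_self]
  let v : X → regKer p B := fun i => if (i : G → ℂ) = χ₁ then ⟨wf, hwmem⟩ else
    ⟨χ₁ 1 • (i : G → ℂ) - (i : G → ℂ) 1 • χ₁, hvmem i i.2⟩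
  have hv1 : ∀ i : X, (i : G → ℂ) = χ₁ → ((v i : regKer p B) : G → ℂ) = wf := by
    intro i hi
    simp only [v, if_pos hi]
  have hv2 : ∀ i : X, (i : G → ℂ) ≠ χ₁ → ((v i : regKer p B) : G → ℂ) =
      χ₁ 1 • (i : G → ℂ) - (i : G → ℂ) 1 • χ₁ := by
    intro i hi
    simp only [v, if_neg hi]
  -- the pairing of the family with the characters
  have hbw : ∀ ψ ∈ B, bil wf ψ = y ψ * (Fintype.card G : ℂ) := fun ψ hψ => bil_coord hirr y hψ
  have hbv : ∀ i : X, ∀ ψ : G → ℂ, bil (χ₁ 1 • (i : G → ℂ) - (i : G → ℂ) 1 • χ₁) ψ =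
      χ₁ 1 * bil (i : G → ℂ) ψ - (i : G → ℂ) 1 * bil χ₁ ψ := by
    intro i ψ
    unfold bil
    rw [Finset.mul_sum, Finset.mul_sum, ← Finset.sum_sub_distrib]
    refine Finset.sum_congr rfl fun g _ => ?_
    simp only [Pi.sub_apply, Pi.smul_apply, smul_eq_mul]
    ring
  have hbvY : ∀ i : X, ∀ ψ ∈ B, ψ ∉ X →
      bil (χ₁ 1 • (i : G → ℂ) - (i : G → ℂ) 1 • χ₁) ψ = 0 := by
    intro i ψ hψ hψX
    rw [hbv, bil_irr (hirr _ (hXB i.2)) (hirr ψ hψ), bil_irr (hirr _ (hXB hχ₁)) (hirr ψ hψ),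
      if_neg, if_neg]
    · ring
    · rintro rfl
      exact hψX hχ₁
    · rintro rfl
      exact hψX i.2
  have hbc : ∀ (b : X → ℂ) (ψ : G → ℂ),
      bil ((∑ i, b i • v i : regKer p B) : G → ℂ) ψ = ∑ i, b i * bil (v i : G → ℂ) ψ := by
    intro b ψ
    have h1 : ((∑ i, b i • v i : regKer p B) : G → ℂ) =
        fun g => ∑ i ∈ (Finset.univ : Finset X), b i * (v i : G → ℂ) g := by
      funext g
      simp
    rw [h1, bil_sum_left Finset.univ b (fun i => (v i : G → ℂ))]
  have hli : LinearIndependent ℂ v := by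
    rw [Fintype.linearIndependent_iff]
    intro b hb
    have hpair : ∀ ψ : G → ℂ, ∑ i, b i * bil (v i : G → ℂ) ψ = 0 := by
      intro ψ
      rw [← hbc b ψ, hb]
      unfold bil
      simp
    have hb1 : b ⟨χ₁, hχ₁⟩ = 0 := by
      have h1 := hpair ψ₀
      rw [Finset.sum_eq_single ⟨χ₁, hχ₁⟩] at h1
      · rw [hv1 _ rfl, hbw ψ₀ hψ₀, hc ψ₀ hψ₀ hψ₀X] at h1
        rcases mul_eq_zero.mp h1 with h | h
        · exact h
        · exfalso
          have h2 : ((c ψ₀ : ℤ) : ℂ) ≠ 0 := by exact_mod_cast hc₀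
          exact mul_ne_zero h2 hG h
      · intro i _ hi
        have hi' : (i : G → ℂ) ≠ χ₁ := fun h => hi (Subtype.ext h)
        rw [hv2 i hi', hbvY i ψ₀ hψ₀ hψ₀X, mul_zero]
      · intro h
        exact absurd (Finset.mem_univ _) h
    intro j
    by_cases hj : (j : G → ℂ) = χ₁
    · have : j = ⟨χ₁, hχ₁⟩ := Subtype.ext hj
      rw [this, hb1]
    · have h1 := hpair (j : G → ℂ)
      rw [Finset.sum_eq_single j] at h1
      · rw [hv2 j hj, hbv, bil_irr (hirr _ (hXB j.2)) (hirr _ (hXB j.2)), if_pos rfl,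
          bil_irr (hirr _ (hXB hχ₁)) (hirr _ (hXB j.2)), if_neg (fun h => hj h.symm)] at h1
        have h2 : χ₁ 1 ≠ 0 := core_ne_zero (hirr _ (hXB hχ₁))
        have h3 : b j * (χ₁ 1 * (Fintype.card G : ℂ)) = 0 := by
          rw [← h1]
          ring
        rcases mul_eq_zero.mp h3 with h | h
        · exact h
        · exact absurd h (mul_ne_zero h2 hG)
      · intro i _ hi
        by_cases hi' : (i : G → ℂ) = χ₁
        · have : i = ⟨χ₁, hχ₁⟩ := Subtype.ext hi'
          rw [this, hb1, zero_mul]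
        · rw [hv2 i hi', hbv, bil_irr (hirr _ (hXB i.2)) (hirr _ (hXB j.2)), if_neg,
            bil_irr (hirr _ (hXB hχ₁)) (hirr _ (hXB j.2)), if_neg (fun h => hj h.symm)]
          · ring
          · intro h
            exact hi (Subtype.ext h)
      · intro h
        exact absurd (Finset.mem_univ _) h
  have htop : Submodule.span ℂ (Set.range v) = ⊤ := by
    apply hli.span_eq_top_of_card_eq_finrank'
    refine le_antisymm ?_ ?_
    · exact hli.fintype_card_le_finrank
    · rw [Fintype.card_coe]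
      exact hdim
  -- differences of characters outside `X`
  have hdiff : ∀ χ ∈ B, χ ∉ X → ∀ ψ ∈ B, ψ ∉ X →
      VanSing p (fun g => ∑ ξ ∈ B, (((if ξ = χ then c ψ else 0) -
        (if ξ = ψ then c χ else 0) : ℤ) : ℂ) * ξ g) := by
    intro χ hχ hχX ψ hψ hψX
    refine vanSing_of_orth hp hB (fun ξ => (((if ξ = χ then c ψ else 0) -
        (if ξ = ψ then c χ else 0) : ℤ) : ℂ)) fun f hf => ?_
    have h1 : (⟨f, hf⟩ : regKer p B) ∈ Submodule.span ℂ (Set.range v) := by
      rw [htop]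
      exact Submodule.mem_top
    obtain ⟨b, hb⟩ := (Submodule.mem_span_range_iff_exists_fun ℂ).mp h1
    have hf2 : f = ((∑ i, b i • v i : regKer p B) : G → ℂ) := by rw [hb]
    have hsym : ∀ f g : G → ℂ, bil f g = bil g f := by
      intro f g
      unfold bil
      refine Fintype.sum_equiv (Equiv.inv G) _ _ fun x => ?_
      simp [mul_comm]
    have hzero : ∀ u : G → ℂ, bil u f = ∑ i, b i * bil (v i : G → ℂ) u := by
      intro u
      rw [hsym, hf2, hbc]
    have h2 : ∀ ξ ∈ B, ξ ∉ X → bil ξ f = b ⟨χ₁, hχ₁⟩ * ((c ξ : ℂ) * (Fintype.card G : ℂ)) := by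
      intro ξ hξ hξX
      rw [hzero, Finset.sum_eq_single ⟨χ₁, hχ₁⟩]
      · rw [hv1 _ rfl, hbw ξ hξ, hc ξ hξ hξX]
      · intro i _ hi
        have hi' : (i : G → ℂ) ≠ χ₁ := fun h => hi (Subtype.ext h)
        rw [hv2 i hi', hbvY i ξ hξ hξX, mul_zero]
      · intro h
        exact absurd (Finset.mem_univ _) h
    rw [bil_sum_left B (fun ξ => (((if ξ = χ then c ψ else 0) -
        (if ξ = ψ then c χ else 0) : ℤ) : ℂ)) (fun ξ => ξ)]
    have h3 : ∀ ξ ∈ B, (((if ξ = χ then c ψ else 0) - (if ξ = ψ then c χ else 0) : ℤ) : ℂ) *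
        bil ξ f = (if ξ = χ then (c ψ : ℂ) * bil χ f else 0) -
          (if ξ = ψ then (c χ : ℂ) * bil ψ f else 0) := by
      intro ξ _
      push_cast
      rw [sub_mul]
      congr 1
      · split_ifs with h
        · rw [h]
        · simp
      · split_ifs with h
        · rw [h]
        · simp
    rw [Finset.sum_congr rfl h3, Finset.sum_sub_distrib, Finset.sum_ite_eq', if_pos hχ,
      Finset.sum_ite_eq', if_pos hψ, h2 χ hχ hχX, h2 ψ hψ hψX]
    ring
  -- subsets without exceptional characters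
  have key : ∀ K : Finset (G → ℂ), K ⊆ B → (∀ χ ∈ K, χ ∉ X) →
      VanSing p (fun g => ∑ χ ∈ K, χ 1 * χ g) → K = ∅ := by
    intro K hKB hKX hKS
    set a := padicValNat p (Fintype.card G) with ha
    -- orthogonality to `w`
    have h1 : bil (fun g => ∑ χ ∈ K, χ 1 * χ g) wf = 0 := bil_zero hKS hy
    have h2 : ∑ χ ∈ K, (dg χ : ℤ) * c χ = 0 := by
      have h3 : bil (fun g => ∑ χ ∈ K, χ 1 * χ g) wf =
          ∑ χ ∈ K, χ 1 * (y χ * (Fintype.card G : ℂ)) := by
        rw [bil_sum_left K (fun χ => χ 1) (fun χ => χ)]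
        refine Finset.sum_congr rfl fun χ hχ => ?_
        congr 1
        rw [← hbw χ (hKB hχ)]
        unfold bil
        refine Fintype.sum_equiv (Equiv.inv G) _ _ fun x => ?_
        simp [mul_comm]
      rw [h1] at h3
      have h4 : (Fintype.card G : ℂ) * ((∑ χ ∈ K, (dg χ : ℤ) * c χ : ℤ) : ℂ) = 0 := by
        rw [h3]
        push_cast
        rw [Finset.mul_sum]
        refine Finset.sum_congr rfl fun χ hχ => ?_
        rw [hdg χ (hKB hχ), hc χ (hKB hχ) (hKX χ hχ)]
        ring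
      rcases mul_eq_zero.mp h4 with h | h
      · exact absurd h hG
      · exact_mod_cast h
    -- the congruences
    have h5 : ∀ χ ∈ K, (p : ℤ) ^ a ∣ c ψ₁ * (dg χ : ℤ) - c χ * (dg ψ₁ : ℤ) := by
      intro χ hχ
      have h6 := value_dvd hp hirr (fun ξ => (if ξ = χ then c ψ₁ else 0) -
        (if ξ = ψ₁ then c χ else 0)) dg hdg (hdiff χ (hKB hχ) (hKX χ hχ) ψ₁ hψ₁ hψ₁X)
      have h7 : ∑ ξ ∈ B, ((if ξ = χ then c ψ₁ else 0) - (if ξ = ψ₁ then c χ else 0)) *
          (dg ξ : ℤ) = c ψ₁ * (dg χ : ℤ) - c χ * (dg ψ₁ : ℤ) := by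
        simp only [sub_mul, ite_mul, zero_mul]
        rw [Finset.sum_sub_distrib, Finset.sum_ite_eq', if_pos (hKB hχ), Finset.sum_ite_eq',
          if_pos hψ₁]
      rw [h7] at h6
      exact h6
    have h8 : (p : ℤ) ^ a ∣ (dg ψ₁ : ℤ) * ∑ χ ∈ K, c χ ^ 2 := by
      have h9 : (dg ψ₁ : ℤ) * ∑ χ ∈ K, c χ ^ 2 =
          c ψ₁ * (∑ χ ∈ K, (dg χ : ℤ) * c χ) -
            ∑ χ ∈ K, c χ * (c ψ₁ * (dg χ : ℤ) - c χ * (dg ψ₁ : ℤ)) := by
        rw [Finset.mul_sum, Finset.mul_sum, ← Finset.sum_sub_distrib]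
        exact Finset.sum_congr rfl fun χ _ => by ring
      rw [h9, h2, mul_zero, zero_sub, dvd_neg]
      exact Finset.dvd_sum fun χ hχ => (h5 χ hχ).mul_left _
    have hdpos : dg ψ₁ ≠ 0 := by
      intro h
      have h3 := core_ne_zero (hirr ψ₁ hψ₁)
      rw [hdg ψ₁ hψ₁, h] at h3
      simp at h3
    -- conclusion: all coefficients vanish
    have h10 : ∑ χ ∈ K, c χ ^ 2 = 0 := by
      have hnn : 0 ≤ ∑ χ ∈ K, c χ ^ 2 := Finset.sum_nonneg fun χ _ => sq_nonneg _
      have hle : ∑ χ ∈ K, c χ ^ 2 ≤ ∑ χ ∈ B \ X, c χ ^ 2 :=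
        Finset.sum_le_sum_of_subset_of_nonneg
          (fun χ hχ => Finset.mem_sdiff.mpr ⟨hKB hχ, hKX χ hχ⟩) fun χ _ _ => sq_nonneg _
      obtain ⟨m, hm⟩ : ∃ m, dg ψ₁ = p ^ (padicValNat p (dg ψ₁)) * m := pow_padicValNat_dvd
      have hmp : ¬ p ∣ m := by
        rintro ⟨k, hk⟩
        have h11 : p ^ (padicValNat p (dg ψ₁) + 1) ∣ dg ψ₁ := ⟨k, by
          rw [pow_succ, mul_assoc, ← hk]
          exact hm⟩
        have h12 := (padicValNat_dvd_iff_le hdpos).mp h11
        omega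
      set s := padicValNat p (dg ψ₁) with hs
      rcases le_or_gt a s with has | has
      · -- then the bound is one
        have h13 : a - s = 0 := by omega
        rw [h13, pow_zero] at hsmall
        omega
      · have h13 : (p : ℤ) ^ a = (p : ℤ) ^ s * (p : ℤ) ^ (a - s) := by
          rw [← pow_add]
          congr 1
          omega
        rw [h13, hm] at h8
        push_cast at h8
        rw [mul_assoc] at h8
        have h14 : (p : ℤ) ^ (a - s) ∣ (m : ℤ) * ∑ χ ∈ K, c χ ^ 2 :=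
          Int.dvd_of_mul_dvd_mul_left (pow_ne_zero _ (by exact_mod_cast hp.ne_zero)) h8
        have h15 : IsCoprime ((p : ℤ) ^ (a - s)) (m : ℤ) := by
          apply IsCoprime.pow_left
          rw [Nat.isCoprime_iff_coprime]
          exact (Nat.Prime.coprime_iff_not_dvd hp).mpr hmp
        have h16 : (p : ℤ) ^ (a - s) ∣ ∑ χ ∈ K, c χ ^ 2 := h15.dvd_of_dvd_mul_left h14
        exact Int.eq_zero_of_dvd_of_nonneg_of_lt hnn (lt_of_le_of_lt hle hsmall) h16
    have h17 : ∀ χ ∈ K, c χ = 0 := by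
      intro χ hχ
      have h18 := (Finset.sum_eq_zero_iff_of_nonneg (fun χ _ => sq_nonneg (c χ))).mp h10 χ hχ
      exact pow_eq_zero_iff (two_ne_zero) |>.mp h18
    -- a character of `K` is alone in the block
    by_contra hne
    obtain ⟨χ, hχ⟩ := Finset.nonempty_iff_ne_empty.mpr hne
    have hχv : VanSing p χ := by
      intro g hg
      have h18 := hdiff χ (hKB hχ) (hKX χ hχ) ψ₀ hψ₀ hψ₀X g hg
      simp only [h17 χ hχ, ite_self, sub_zero] at h18
      have h19 : ∑ ξ ∈ B, (((if ξ = χ then c ψ₀ else 0 : ℤ)) : ℂ) * ξ g = (c ψ₀ : ℂ) * χ g := by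
        rw [Finset.sum_eq_single χ]
        · rw [if_pos rfl]
        · intro ξ _ hξ
          rw [if_neg hξ]
          simp
        · intro h
          exact absurd (hKB hχ) h
      rw [h19] at h18
      rcases mul_eq_zero.mp h18 with h | h
      · exfalso
        exact hc₀ (by exact_mod_cast h)
      · exact h
    have hlink : ∀ ψ : G → ℂ, ψ ≠ χ → ¬ Linked p χ ψ ∧ ¬ Linked p ψ χ := by
      intro ψ hψ
      have hsum : ∀ u w : G → ℂ, VanSing p u → IsIrr u → IsIrr w → u ≠ w →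
          (∑ g ∈ Finset.univ.filter (fun g : G => Nat.Coprime (orderOf g) p), u g * w g⁻¹) =
            0 := by
        intro u w hu hui hwi huw
        have h20 := hui.orth hwi
        rw [if_neg huw] at h20
        rw [← h20, Finset.sum_filter]
        refine Finset.sum_congr rfl fun g _ => ?_
        by_cases h : p ∣ orderOf g
        · rw [hu g h, if_neg, zero_mul]
          intro h16
          have h17 := Nat.dvd_gcd h (dvd_refl p)
          rw [h16.gcd_eq_one] at h17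
          exact hp.one_lt.ne' (Nat.dvd_one.mp h17)
        · rw [if_pos]
          exact ((Nat.Prime.coprime_iff_not_dvd hp).mpr h).symm
      constructor
      · rintro ⟨h21, h22, h23⟩
        exact h23 (hsum χ ψ hχv h21 h22 hψ.symm)
      · rintro ⟨h21, h22, h23⟩
        apply h23
        rw [← hsum χ ψ hχv h22 h21 hψ.symm]
        refine Finset.sum_nbij' (fun g => g⁻¹) (fun g => g⁻¹) ?_ ?_ ?_ ?_ ?_
        · intro g hg
          simpa using hg
        · intro g hg
          simpa using hg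
        · intro g _
          exact inv_inv g
        · intro g _
          exact inv_inv g
        · intro g _
          rw [inv_inv, mul_comm]
    have hB1 : ({χ} : Finset (G → ℂ)) = B := by
      refine link_closed hB ⟨χ, Finset.mem_singleton_self _⟩
        (Finset.singleton_subset_iff.mpr (hKB hχ)) ?_ ?_
      · intro ξ hξ ψ _ hψ
        rw [Finset.mem_singleton] at hξ hψ
        rw [hξ]
        exact (hlink ψ hψ).1
      · intro ξ hξ ψ _ hψ
        rw [Finset.mem_singleton] at hξ hψ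
        rw [hξ]
        exact (hlink ψ hψ).2
    have h24 : χ₁ ∈ ({χ} : Finset (G → ℂ)) := by
      rw [hB1]
      exact hXB hχ₁
    rw [Finset.mem_singleton] at h24
    exact hKX χ hχ (h24 ▸ hχ₁)
  -- all or no exceptional characters are in `J`
  have hdich : ∀ χ ∈ X, ∀ ψ ∈ X, χ ∈ J → ψ ∈ J := by
    intro χ hχ ψ hψ hχJ
    by_contra hψJ
    have h1 : VanReg p (fun g => ψ 1 * χ g - χ 1 * ψ g) := by
      intro g hg
      show ψ 1 * χ g - χ 1 * ψ g = 0
      rw [hprop χ hχ ψ hψ g hg, sub_self]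
    have h2 : bil (fun g => ∑ ξ ∈ J, ξ 1 * ξ g) (fun g => ψ 1 * χ g - χ 1 * ψ g) = 0 :=
      bil_zero hJS h1
    have h3 : bil (fun g => ∑ ξ ∈ J, ξ 1 * ξ g) (fun g => ψ 1 * χ g - χ 1 * ψ g) =
        ψ 1 * bil (fun g => ∑ ξ ∈ J, ξ 1 * ξ g) χ - χ 1 * bil (fun g => ∑ ξ ∈ J, ξ 1 * ξ g) ψ := by
      unfold bil
      rw [Finset.mul_sum, Finset.mul_sum, ← Finset.sum_sub_distrib]
      exact Finset.sum_congr rfl fun g _ => by ring
    have hirrJ : ∀ ξ ∈ J, IsIrr ξ := fun ξ h => hirr ξ (hJB h)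
    have h4 : bil (fun g => ∑ ξ ∈ J, ξ 1 * ξ g) χ = χ 1 * (Fintype.card G : ℂ) :=
      bil_coord hirrJ (fun ξ => ξ 1) hχJ
    have h5 : bil (fun g => ∑ ξ ∈ J, ξ 1 * ξ g) ψ = 0 :=
      pair_out hirrJ (fun ξ => ξ 1) (hirr ψ (hXB hψ)) hψJ
    rw [h3, h4, h5, mul_zero, sub_zero] at h2
    have h6 := core_ne_zero (hirr χ (hXB hχ))
    have h7 := core_ne_zero (hirr ψ (hXB hψ))
    exact mul_ne_zero h7 (mul_ne_zero h6 hG) h2
  by_cases h : χ₁ ∈ J
  · have hJS' : VanSing p (fun g => ∑ χ ∈ B \ J, χ 1 * χ g) := by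
      intro g hg
      have h1 : ∑ χ ∈ B, χ 1 * χ g = 0 := hB.vanSing hp g hg
      have h2 : ∑ χ ∈ J, χ 1 * χ g = 0 := hJS g hg
      show ∑ χ ∈ B \ J, χ 1 * χ g = 0
      rw [← Finset.sum_sdiff hJB, h2, add_zero] at h1
      exact h1
    have h1 : B \ J = ∅ := by
      refine key (B \ J) Finset.sdiff_subset ?_ hJS'
      intro χ hχ hχX
      exact (Finset.mem_sdiff.mp hχ).2 (hdich χ₁ hχ₁ χ hχX h)
    exact Finset.Subset.antisymm hJB (Finset.sdiff_eq_empty_iff_subset.mp h1)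
  · exfalso
    have h1 : J = ∅ := by
      refine key J hJB ?_ hJS
      intro χ hχ hχX
      exact h (hdich χ hχX χ₁ hχ₁ hχ)
    rw [h1] at hJ
    exact Finset.not_nonempty_empty hJ

end Pool.Agent.Har
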