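import Mathlib
import Pool.Agent.W_02e251_h65.Defs

/-!
The condition `Cond` for abelian `E`.
-/

set_option autoImplicit false

open Pool.Agent.Har

namespace Pool.Agent.Har

/-- Powers prime to `p` are injective on finite abelian `p`-groups. -/
theorem CondA_pow_inj {X : Type} [CommGroup X] [Finite X] {p n : ℕ} (hp : p.Prime)
    (hX : IsPGroup p X) (hn : Nat.Coprime n p) {x y : X} (h : x ^ n = y ^ n) : x = y := by
  have : Fact p.Prime := ⟨hp⟩
  obtain ⟨k, hk⟩ := IsPGroup.iff_card.1 hX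
  have hc : (Nat.card X).Coprime n := by
    rw [hk]
    exact Nat.Coprime.pow_left k hn.symm
  exact (powCoprime hc).injective h

/-- The stabilizer of an element. -/
def CondA_stab {F X : Type} [CommGroup F] [CommGroup X] (ρ : F →* MulAut X) (u : X) :
    Subgroup F where
  carrier := {y | ρ y u = u}
  one_mem' := by
    show ρ 1 u = u
    rw [map_one, MulAut.one_apply]
  mul_mem' := by
    intro a b ha hb
    show ρ (a * b) u = u
    rw [map_mul, MulAut.mul_apply, show ρ b u = u from hb, show ρ a u = u from ha]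
  inv_mem' := by
    intro a ha
    show ρ a⁻¹ u = u
    have h : ρ a u = u := ha
    calc ρ a⁻¹ u = ρ a⁻¹ (ρ a u) := by rw [h]
      _ = u := by rw [← MulAut.mul_apply, ← map_mul, inv_mul_cancel, map_one, MulAut.one_apply]

theorem CondA_mem_stab {F X : Type} [CommGroup F] [CommGroup X] (ρ : F →* MulAut X) (u : X)
    (y : F) : y ∈ CondA_stab ρ u ↔ ρ y u = u := Iff.rfl

/-- Regular orbit lemma. Let `F` be a finite abelian group acting by `ρ` on a finite abelian
`p`-group `X`, `|F|` prime to `p`, and let `U` be an `F`-invariant subgroup of `X`. Then some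
`u ∈ U` has a stabilizer which acts trivially on `U`.
Proof: choose `u ∈ U` with `|Stab u|` minimal and let `S = Stab u`, `n = |S|`. If some `s ∈ S` moves
a `w ∈ U`, put `N z = ∏_{s ∈ S} ρ s z` and `v = w ^ n * (N w)⁻¹ ∈ U`. Then `N v = 1`; `v` is not
fixed by all of `S` (otherwise `v ^ n = N v = 1`, so `v = 1` as `n` is prime to `p`, so `w ^ n = N w`
is fixed by `S`, so `(ρ s w * w⁻¹) ^ n = 1` and `ρ s w = w` for all `s ∈ S`). If `y` fixes
`u * v`, then, as `ρ y` commutes with `N` (`F` is commutative) and `N (u * v) = u ^ n`,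
`(ρ y u) ^ n = u ^ n`, so `ρ y u = u`, so `y ∈ S`, and `ρ y v = v`. So `Stab (u * v)` is properly
contained in `S`. -/
theorem regular_orbit {F X : Type} [CommGroup F] [CommGroup X] [Finite F] [Finite X] {p : ℕ}
    (hp : p.Prime) (hX : IsPGroup p X) (hF : Nat.Coprime (Nat.card F) p) (ρ : F →* MulAut X)
    (U : Subgroup X) (hU : ∀ y : F, ∀ u ∈ U, ρ y u ∈ U) :
    ∃ u ∈ U, ∀ y : F, ρ y u = u → ∀ w ∈ U, ρ y w = w := by
  classical
  obtain ⟨⟨u, hu⟩, hmin⟩ := Finite.exists_min (fun u : U => Nat.card (CondA_stab ρ (u : X)))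
  refine ⟨u, hu, ?_⟩
  by_contra hcon
  push Not at hcon
  obtain ⟨s₀, hs₀, w, hw, hne⟩ := hcon
  obtain ⟨S, hS⟩ : ∃ S : Subgroup F, S = CondA_stab ρ u := ⟨_, rfl⟩
  have hmem : ∀ y : F, y ∈ S ↔ ρ y u = u := fun y => by rw [hS, CondA_mem_stab]
  have hft : Fintype S := Fintype.ofFinite S
  obtain ⟨n, hn⟩ : ∃ n : ℕ, n = Nat.card S := ⟨_, rfl⟩
  have hnp : Nat.Coprime n p := by
    rw [hn]
    exact Nat.Coprime.coprime_dvd_left (Subgroup.card_subgroup_dvd_card S) hF
  obtain ⟨N, hN⟩ : ∃ N : X → X, ∀ z, N z = ∏ s : S, ρ (s : F) z := ⟨_, fun _ => rfl⟩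
  have hNmul : ∀ z₁ z₂, N (z₁ * z₂) = N z₁ * N z₂ := by
    intro z₁ z₂
    rw [hN, hN, hN, ← Finset.prod_mul_distrib]
    exact Finset.prod_congr rfl (fun s _ => map_mul _ _ _)
  have hNfix : ∀ s ∈ S, ∀ z, ρ s (N z) = N z := by
    intro s hs z
    rw [hN, map_prod]
    refine Fintype.prod_equiv (Equiv.mulLeft (⟨s, hs⟩ : S)) _ _ (fun t => ?_)
    show ρ s (ρ (t : F) z) = ρ (s * (t : F)) z
    rw [map_mul, MulAut.mul_apply]
  have hNpow : ∀ z, (∀ s ∈ S, ρ s z = z) → N z = z ^ n := by
    intro z hz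
    rw [hN, Finset.prod_congr rfl (fun (s : S) _ => hz s s.2), Finset.prod_const,
      Finset.card_univ, hn, Nat.card_eq_fintype_card]
  have hNcomm : ∀ (y : F) (z : X), ρ y (N z) = N (ρ y z) := by
    intro y z
    rw [hN, hN, map_prod]
    refine Finset.prod_congr rfl (fun s _ => ?_)
    rw [← MulAut.mul_apply, ← MulAut.mul_apply, ← map_mul, ← map_mul, mul_comm]
  have hNU : ∀ z ∈ U, N z ∈ U := by
    intro z hz
    rw [hN]
    exact Subgroup.prod_mem U (fun s _ => hU s z hz)
  obtain ⟨v, hv⟩ : ∃ v : X, v = w ^ n * (N w)⁻¹ := ⟨_, rfl⟩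
  have hvU : v ∈ U := by
    rw [hv]
    exact U.mul_mem (U.pow_mem hw n) (U.inv_mem (hNU w hw))
  have hNone : N 1 = 1 := by
    rw [hN, Finset.prod_congr rfl (fun (s : S) _ => map_one (ρ (s : F))), Finset.prod_const_one]
  have hNw : N (N w) = (N w) ^ n := hNpow _ (fun s hs => hNfix s hs w)
  have hNinv : ∀ z, N z⁻¹ = (N z)⁻¹ := by
    intro z
    rw [eq_inv_iff_mul_eq_one, ← hNmul, inv_mul_cancel, hNone]
  have hNpw : ∀ (z : X) (k : ℕ), N (z ^ k) = (N z) ^ k := by
    intro z k
    induction k with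
    | zero => rw [pow_zero, pow_zero, hNone]
    | succ k ih => rw [pow_succ, pow_succ, hNmul, ih]
  have hNv : N v = 1 := by
    rw [hv, hNmul, hNpw, hNinv, hNw, mul_inv_cancel]
  have hvne : ∃ s ∈ S, ρ s v ≠ v := by
    by_contra hall
    push Not at hall
    have h1 : v ^ n = 1 ^ n := by rw [← hNpow v hall, hNv, one_pow]
    have h2 : v = 1 := CondA_pow_inj hp hX hnp h1
    have h3 : w ^ n = N w := by
      rw [hv] at h2
      exact eq_of_mul_inv_eq_one h2
    have h4 : (ρ s₀ w) ^ n = w ^ n := by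
      rw [← map_pow, h3, hNfix s₀ ((hmem s₀).2 hs₀)]
    exact hne (CondA_pow_inj hp hX hnp h4)
  obtain ⟨s₁, hs₁, hs₁v⟩ := hvne
  have hNu : N u = u ^ n := hNpow u (fun s hs => (hmem s).1 hs)
  have hkey : ∀ y : F, ρ y (u * v) = u * v → ρ y u = u ∧ ρ y v = v := by
    intro y hy
    have h1 : N (u * v) = u ^ n := by rw [hNmul, hNu, hNv, mul_one]
    have h2 : (ρ y u) ^ n = u ^ n := by rw [← map_pow, ← h1, hNcomm, hy]
    have h3 : ρ y u = u := CondA_pow_inj hp hX hnp h2
    refine ⟨h3, ?_⟩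
    rw [map_mul, h3] at hy
    exact mul_left_cancel hy
  have hlt : CondA_stab ρ (u * v) < CondA_stab ρ u := by
    refine lt_of_le_of_ne (fun y hy => (hkey y hy).1) (fun heq => ?_)
    have h1 : s₁ ∈ CondA_stab ρ (u * v) := by
      rw [heq]
      exact (hmem s₁).1 hs₁
    exact hs₁v (hkey s₁ h1).2
  have hcard : Nat.card (CondA_stab ρ (u * v)) < Nat.card (CondA_stab ρ u) :=
    Set.ncard_lt_ncard (s := (CondA_stab ρ (u * v) : Set F)) (t := (CondA_stab ρ u : Set F)) hlt
      (Set.toFinite _)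
  exact absurd (hmin ⟨u * v, U.mul_mem hu hvU⟩) (not_le.2 hcard)

/-- The linear characters fixed by `x`. -/
def CondA_stab2 {D E : Type} [CommGroup D] [CommGroup E] (φ : E →* MulAut D) (x : E) :
    Subgroup (D →* ℂˣ) where
  carrier := {l | ∀ d : D, l (φ x d) = l d}
  one_mem' := by
    intro d
    rfl
  mul_mem' := by
    intro a b ha hb d
    rw [MonoidHom.mul_apply, MonoidHom.mul_apply, ha d, hb d]
  inv_mem' := by
    intro a ha d
    rw [MonoidHom.inv_apply, MonoidHom.inv_apply, ha d]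

/-- `Cond` holds if `E` is commutative. Let `V` be the group of the linear characters of `D`
(`D →* ℂˣ`, a finite abelian `p`-group, its elements separate the points of `D` and of the
quotients of `D`; see `CommGroup.exists_apply_ne_one_of_hasEnoughRootsOfUnity` and
`MonoidHom.card_monoidHom_of_hasEnoughRootsOfUnity` or similar), on which `E` acts by
`l ↦ l ∘ φ y⁻¹`. For `x ∈ E` let `U` be the subgroup of the `l` fixed by `x`, i.e. trivial on
`[D, x]`. By `regular_orbit` some `l ∈ U` has a stabilizer `S` which is trivial on `U`, and then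
`[D, y] ⊆ [D, x]` for `y ∈ S`: otherwise a linear character of `D / [D, x]` is not trivial on
`[D, y]`, so it is not fixed by `y`. If `x ≠ 1`: `S` maps `[D, x]` to itself and acts trivially on
`D / [D, x]`, hence faithfully on `[D, x]` (if `φ y d = d c` with `c ∈ [D, x]` fixed by `y` then
`d = φ y ^ m d = d c ^ m` for the order `m` of `y`, so `c = 1`); by `regular_orbit` for the action
of `S` on `X = D` with `U = [D, x]` there is `v ∈ [D, x]` with trivial stabilizer in `S`; the
elements `φ y v`, `y ∈ S`, are distinct elements of `[D, x]`, and different from `1` since `v ≠ 1`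
(`x ∈ S` and `x ≠ 1`); so `|S| < |[D, x]|`. -/
theorem cond_comm {D E : Type} [CommGroup D] [CommGroup E] [Finite D] [Finite E] {p : ℕ}
    (hp : p.Prime) (hD : IsPGroup p D) (hE : Nat.Coprime (Nat.card E) p) (φ : E →* MulAut D)
    (hφ : Function.Injective φ) : Cond φ := by
  intro x
  have hpf : Fact p.Prime := ⟨hp⟩
  have : HasEnoughRootsOfUnity ℂ (Monoid.exponent D) := by
    have : NeZero (Monoid.exponent D) := ⟨Monoid.exponent_ne_zero_of_finite⟩
    infer_instance
  -- the dual group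
  have hVcard : Nat.card (D →* ℂˣ) = Nat.card D :=
    CommGroup.card_monoidHom_of_hasEnoughRootsOfUnity D ℂ
  have hVfin : Finite (D →* ℂˣ) := Nat.finite_of_card_ne_zero (by
    rw [hVcard]
    exact Nat.card_pos.ne')
  have hV : IsPGroup p (D →* ℂˣ) := by
    obtain ⟨k, hk⟩ := IsPGroup.iff_card.1 hD
    exact IsPGroup.of_card (n := k) (by rw [hVcard, hk])
  let ρ : E →* MulAut (D →* ℂˣ) :=
    { toFun := fun y => MulEquiv.monoidHomCongrLeft (φ y)
      map_one' := by
        ext l d
        rw [map_one]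
        rfl
      map_mul' := by
        intro y z
        ext l d
        rw [map_mul]
        rfl }
  have hρ : ∀ (y : E) (l : D →* ℂˣ) (d : D), ρ y l (φ y d) = l d := by
    intro y l d
    show l ((φ y).symm (φ y d)) = l d
    rw [MulEquiv.symm_apply_apply]
  have hfix : ∀ (y : E) (l : D →* ℂˣ), ρ y l = l ↔ y ∈ stab φ l := by
    intro y l
    constructor
    · intro h d
      have h1 := hρ y l d
      rwa [h] at h1
    · intro h
      refine MonoidHom.ext (fun d => ?_)
      obtain ⟨e, rfl⟩ := (φ y).surjective d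
      rw [hρ]
      exact (h e).symm
  let U : Subgroup (D →* ℂˣ) := CondA_stab2 φ x
  have hU : ∀ y : E, ∀ l ∈ U, ρ y l ∈ U := by
    intro y l hl
    intro d
    obtain ⟨e, rfl⟩ := (φ y).surjective d
    have h1 : φ x (φ y e) = φ y (φ x e) := by
      rw [← MulAut.mul_apply, ← MulAut.mul_apply, ← map_mul, ← map_mul, mul_comm]
    rw [h1, hρ, hρ]
    exact hl e
  obtain ⟨l, hlU, hl⟩ := regular_orbit hp hV hE ρ U hU
  have hxl : x ∈ stab φ l := hlU
  have hDx : ∀ y ∈ stab φ l, Dx φ y ≤ Dx φ x := by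
    rintro y hy a ⟨d, rfl⟩
    refine (CommGroup.forall_monoidHom_apply_eq_one_iff (M := ℂ) (Dx φ x) _).1 (fun l' hl' => ?_)
    have h1 : l' ∈ U := by
      intro e
      have h2 := hl' (φ x e * e⁻¹) ⟨e, rfl⟩
      rw [map_mul, map_inv] at h2
      exact eq_of_mul_inv_eq_one h2
    have h3 := (hfix y l').1 (hl y ((hfix y l).2 hy) l' h1) d
    rw [map_mul, map_inv, h3, mul_inv_cancel]
  refine ⟨l, hxl, hDx, fun hx1 => ?_⟩
  -- the second orbit
  obtain ⟨S, hS⟩ : ∃ S : Subgroup E, S = stab φ l := ⟨_, rfl⟩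
  have hSc : Nat.Coprime (Nat.card S) p :=
    Nat.Coprime.coprime_dvd_left (Subgroup.card_subgroup_dvd_card S) hE
  obtain ⟨v, hv, hvS⟩ := regular_orbit hp hD hSc (φ.comp S.subtype) (Dx φ x) (by
    rintro y u ⟨d, rfl⟩
    refine ⟨φ (y : E) d, ?_⟩
    show φ x (φ (y : E) d) * (φ (y : E) d)⁻¹ = φ (y : E) (φ x d * d⁻¹)
    have h1 : φ x (φ (y : E) d) = φ (y : E) (φ x d) := by
      rw [← MulAut.mul_apply, ← MulAut.mul_apply, ← map_mul, ← map_mul, mul_comm]
    rw [h1, map_mul, map_inv])
  have hone : ∀ y : S, φ (y : E) v = v → y = 1 := by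
    intro y hy
    have h1 : ∀ w ∈ Dx φ x, φ (y : E) w = w := hvS y hy
    have h2 : φ (y : E) = 1 := by
      refine MulEquiv.ext (fun d => ?_)
      have hyl : (y : E) ∈ stab φ l := by
        rw [← hS]
        exact y.2
      obtain ⟨c, hc⟩ : ∃ c : D, c = φ (y : E) d * d⁻¹ := ⟨_, rfl⟩
      have hcx : c ∈ Dx φ x := hDx y hyl ⟨d, hc.symm⟩
      have hcd : φ (y : E) d = c * d := by rw [hc, inv_mul_cancel_right]
      have hpow : ∀ k : ℕ, φ ((y : E) ^ k) d = c ^ k * d := by
        intro k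
        induction k with
        | zero => rw [pow_zero, pow_zero, map_one, MulAut.one_apply, one_mul]
        | succ k ih =>
          rw [pow_succ', map_mul, MulAut.mul_apply, ih, map_mul, map_pow, h1 c hcx, hcd,
            pow_succ, mul_assoc]
      have h3 := hpow (orderOf (y : E))
      rw [pow_orderOf_eq_one, map_one, MulAut.one_apply] at h3
      have h4 : c ^ orderOf (y : E) = 1 ^ orderOf (y : E) := by
        rw [one_pow]
        exact mul_eq_right.1 h3.symm
      have h5 : Nat.Coprime (orderOf (y : E)) p :=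
        Nat.Coprime.coprime_dvd_left (orderOf_dvd_natCard (y : E)) hE
      have h6 : c = 1 := CondA_pow_inj hp hD h5 h4
      rw [hcd, h6, one_mul, MulAut.one_apply]
    have h7 : (y : E) = 1 := hφ (by rw [h2, map_one])
    exact Subtype.ext h7
  have hinj : Function.Injective (fun y : S => (⟨φ (y : E) v, by
      obtain ⟨d, hd⟩ := hv
      refine ⟨φ (y : E) d, ?_⟩
      have h1 : φ x (φ (y : E) d) = φ (y : E) (φ x d) := by
        rw [← MulAut.mul_apply, ← MulAut.mul_apply, ← map_mul, ← map_mul, mul_comm]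
      rw [h1, ← hd, map_mul, map_inv]⟩ : Dx φ x)) := by
    intro y z hyz
    have h1 : φ (y : E) v = φ (z : E) v := congrArg Subtype.val hyz
    have h2 : φ ((z⁻¹ * y : S) : E) v = v := by
      rw [Subgroup.coe_mul, Subgroup.coe_inv, map_mul, MulAut.mul_apply, h1, ← MulAut.mul_apply,
        ← map_mul, inv_mul_cancel, map_one, MulAut.one_apply]
    have h3 := hone _ h2
    exact (inv_mul_eq_one.1 h3).symm
  have hv1 : v ≠ 1 := by
    intro h1
    have hxS : x ∈ S := by
      rw [hS]
      exact hxl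
    have h2 := hone ⟨x, hxS⟩ (by rw [h1, map_one])
    exact hx1 (congrArg Subtype.val h2)
  have hf1 : Fintype S := Fintype.ofFinite S
  have hf2 : Fintype (Dx φ x) := Fintype.ofFinite _
  rw [← hS, Nat.card_eq_fintype_card, Nat.card_eq_fintype_card]
  refine Fintype.card_lt_of_injective_of_notMem _ hinj (b := 1) ?_
  rintro ⟨y, hy⟩
  have h1 : φ (y : E) v = 1 := congrArg Subtype.val hy
  rw [EmbeddingLike.map_eq_one_iff] at h1
  exact hv1 h1

end Pool.Agent.Har
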