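import Mathlib
import Pool.Agent.W_02e251_h65.Defs

/-!
The condition `Cond` for free actions.
-/

set_option autoImplicit false

open Pool.Agent.Har

namespace Pool.Agent.Har

theorem CondF_surj {D E : Type} [CommGroup D] [Group E] [Finite D]
    (φ : E →* MulAut D) (hfree : ∀ x : E, x ≠ 1 → ∀ d : D, φ x d = d → d = 1) {x : E}
    (hx : x ≠ 1) (a : D) : ∃ d : D, φ x d * d⁻¹ = a := by
  have hinj : Function.Injective (fun d : D => φ x d * d⁻¹) := by
    intro d e h
    have h' : φ x d * d⁻¹ = φ x e * e⁻¹ := h
    have h1 : φ x (d * e⁻¹) = d * e⁻¹ := by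
      rw [map_mul, map_inv]
      calc φ x d * (φ x e)⁻¹ = (φ x d * d⁻¹) * (d * (φ x e)⁻¹) := by group
        _ = (φ x e * e⁻¹) * (d * (φ x e)⁻¹) := by rw [h']
        _ = (d * e⁻¹) * (φ x e * (φ x e)⁻¹) := by
            rw [mul_comm (φ x e) e⁻¹, mul_comm d (φ x e)⁻¹, mul_comm d e⁻¹]
            rw [mul_assoc, ← mul_assoc (φ x e), mul_inv_cancel, one_mul, mul_one]
        _ = d * e⁻¹ := by rw [mul_inv_cancel, mul_one]
    have h2 := hfree x hx _ h1
    exact mul_inv_eq_one.1 h2
  exact (Finite.surjective_of_injective hinj) a

theorem CondF_card {D E : Type} [CommGroup D] [Group E] [Finite D] [Finite E]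
    (φ : E →* MulAut D) (hfree : ∀ x : E, x ≠ 1 → ∀ d : D, φ x d = d → d = 1) {d₀ : D}
    (h0 : d₀ ≠ 1) : Nat.card E < Nat.card D := by
  have hinj : Function.Injective (fun o : Option E => (o.elim 1 (fun y => φ y d₀) : D)) := by
    intro o o' h
    cases o with
    | none =>
      cases o' with
      | none => rfl
      | some z =>
        exfalso
        have h' : (1 : D) = φ z d₀ := h
        have h1 : φ z d₀ = φ z 1 := by rw [map_one]; exact h'.symm
        exact h0 ((φ z).injective h1)
    | some y =>
      cases o' with
      | none =>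
        exfalso
        have h' : φ y d₀ = (1 : D) := h
        have h1 : φ y d₀ = φ y 1 := by rw [map_one]; exact h'
        exact h0 ((φ y).injective h1)
      | some z =>
        have h' : φ y d₀ = φ z d₀ := h
        have h1 : φ (z⁻¹ * y) d₀ = d₀ := by
          rw [map_mul, MulAut.mul_apply, h', ← MulAut.mul_apply, ← map_mul, inv_mul_cancel,
            map_one, MulAut.one_apply]
        by_contra hne
        refine h0 (hfree (z⁻¹ * y) ?_ d₀ h1)
        intro h2
        apply hne
        rw [inv_mul_eq_one.1 h2]
  have h1 := Nat.card_le_card_of_injective _ hinj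
  rw [Finite.card_option] at h1
  omega

/-- `Cond` holds if no `φ x`, `x ≠ 1`, has a nontrivial fixed point (Frobenius groups). For
`x ≠ 1`: `d ↦ φ x d * d⁻¹` is injective, so `[D, x] = D`; take `l = 1`; its stabilizer is `E`, and
`|E| < |D|` since `y ↦ φ y d₀` is injective with values different from `1`, for any `d₀ ≠ 1` (which
exists because `φ x ≠ 1`). For `x = 1`: if `E` is trivial take `l = 1`; otherwise `D ≠ 1`, take
`l ≠ 1` (exists: linear characters separate points of the finite abelian group `D`); if `y ≠ 1`
fixes `l`, then `l` is trivial on `[D, y] = D`; so the stabilizer is trivial. -/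
theorem cond_free {D E : Type} [CommGroup D] [Group E] [Finite D] [Finite E]
    (φ : E →* MulAut D) (hφ : Function.Injective φ)
    (hfree : ∀ x : E, x ≠ 1 → ∀ d : D, φ x d = d → d = 1) : Cond φ := by
  intro x
  by_cases hx : x = 1
  · subst hx
    by_cases hE : ∀ y : E, y = 1
    · refine ⟨1, ?_, ?_, ?_⟩
      · intro d
        rfl
      · intro y _
        rw [hE y]
      · intro h
        exact absurd rfl h
    · push Not at hE
      obtain ⟨z, hz⟩ := hE
      have h1 : φ z ≠ 1 := by
        intro h
        apply hz
        apply hφ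
        rw [h, map_one]
      obtain ⟨d₀, hd₀⟩ : ∃ d₀ : D, d₀ ≠ 1 := by
        by_contra hcon
        push Not at hcon
        apply h1
        ext d
        rw [hcon d, map_one, map_one]
      have hne : NeZero (Monoid.exponent D) := ⟨Monoid.exponent_ne_zero_of_finite⟩
      obtain ⟨l, hl⟩ := CommGroup.exists_apply_ne_one_of_hasEnoughRootsOfUnity D ℂ hd₀
      refine ⟨l, ?_, ?_, ?_⟩
      · intro d
        rw [map_one, MulAut.one_apply]
      · intro y hy
        by_cases hy1 : y = 1
        · rw [hy1]
        · exfalso
          apply hl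
          obtain ⟨d, hd⟩ := CondF_surj φ hfree hy1 d₀
          rw [← hd, map_mul, map_inv, hy d, mul_inv_cancel]
      · intro h
        exact absurd rfl h
  · refine ⟨1, ?_, ?_, ?_⟩
    · intro d
      rfl
    · intro y _ a _
      exact CondF_surj φ hfree hx a
    · intro _
      have hD : Nat.card (Dx φ x) = Nat.card D := by
        have h1 : Dx φ x = ⊤ := by
          rw [Subgroup.eq_top_iff']
          intro a
          exact CondF_surj φ hfree hx a
        rw [h1]
        exact Subgroup.card_top
      obtain ⟨d₀, hd₀⟩ : ∃ d₀ : D, d₀ ≠ 1 := by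
        by_contra hcon
        push Not at hcon
        apply hx
        apply hφ
        rw [map_one]
        ext d
        rw [hcon d, map_one, map_one]
      rw [hD]
      exact lt_of_le_of_lt (Subgroup.card_le_card_group _) (CondF_card φ hfree hd₀)

end Pool.Agent.Har
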