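import Mathlib
import Pool.Agent.W_02e251_h65.Defs

/-!
The condition `Cond` for homocyclic groups `D` of large exponent.
-/

set_option autoImplicit false

open Pool.Agent.Har

namespace Pool.Agent.Har

/-- Projection to the fixed points of a subgroup. -/
theorem CondH_av {X E : Type} [CommGroup X] [Group E] [Finite E] {p : ℕ} (hp : p.Prime)
    (hE : Nat.Coprime (Nat.card E) p) (ρ : E →* MulAut X) (a : ℕ)
    (h1 : ∀ d : X, d ^ p ^ (a + 1) = 1) (S : Subgroup E) :
    ∃ P : X →* X, (∀ l, ∀ s ∈ S, ρ s (P l) = P l) ∧ (∀ l, (∀ s ∈ S, ρ s l = l) → P l = l) := by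
  classical
  have hft : Fintype S := Fintype.ofFinite S
  have hcop : Nat.Coprime (Nat.card S) (p ^ (a + 1)) :=
    Nat.Coprime.pow_right _ (Nat.Coprime.coprime_dvd_left (Subgroup.card_subgroup_dvd_card S) hE)
  obtain ⟨m, -, hm⟩ := Nat.exists_mul_mod_eq_one_of_coprime hcop
    (Nat.one_lt_pow (by omega) hp.one_lt)
  refine ⟨MonoidHom.mk' (fun l => (∏ s : S, ρ (s : E) l) ^ m) ?_, ?_, ?_⟩
  · intro l l'
    show (∏ s : S, ρ (s : E) (l * l')) ^ m = _
    rw [← mul_pow, ← Finset.prod_mul_distrib]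
    congr 1
    exact Finset.prod_congr rfl (fun s _ => map_mul _ _ _)
  · intro l s hs
    show ρ s ((∏ t : S, ρ (t : E) l) ^ m) = (∏ t : S, ρ (t : E) l) ^ m
    rw [map_pow, map_prod]
    congr 1
    refine Fintype.prod_equiv (Equiv.mulLeft (⟨s, hs⟩ : S)) _ _ (fun t => ?_)
    show ρ s (ρ (t : E) l) = ρ (s * (t : E)) l
    rw [map_mul, MulAut.mul_apply]
  · intro l hl
    show (∏ s : S, ρ (s : E) l) ^ m = l
    rw [Finset.prod_congr rfl (fun (s : S) _ => hl s s.2), Finset.prod_const, Finset.card_univ,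
      ← Nat.card_eq_fintype_card, ← pow_mul, ← Nat.div_add_mod (Nat.card S * m) (p ^ (a + 1)), hm,
      pow_add, pow_mul, h1, one_pow, one_mul, pow_one]

/-- The elements fixing a given one. -/
theorem CondH_fix {X E : Type} [CommGroup X] [Group E] (ρ : E →* MulAut X) (l : X) (A : Set E)
    (hA : ∀ s ∈ A, ρ s l = l) : ∀ s ∈ Subgroup.closure A, ρ s l = l := by
  intro s hs
  induction hs using Subgroup.closure_induction with
  | mem s hs => exact hA s hs
  | one => rw [map_one, MulAut.one_apply]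
  | mul s t _ _ h h' => rw [map_mul, MulAut.mul_apply, h', h]
  | inv s _ h =>
    calc ρ s⁻¹ l = ρ s⁻¹ (ρ s l) := by rw [h]
      _ = l := by rw [← MulAut.mul_apply, ← map_mul, inv_mul_cancel, map_one, MulAut.one_apply]

/-- In a homocyclic group, if the `p ^ a`-th powers of the fixed points of `x` are fixed by `y`
then the fixed points of `x` are. -/
theorem CondH_key {X E : Type} [CommGroup X] [Group E] [Finite E] {p : ℕ} (hp : p.Prime)
    (hE : Nat.Coprime (Nat.card E) p) (ρ : E →* MulAut X) (a : ℕ)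
    (h1 : ∀ d : X, d ^ p ^ (a + 1) = 1) (h2 : ∀ d : X, d ^ p ^ a = 1 → ∃ e : X, e ^ p = d)
    (x y : E) (h : ∀ l, ρ x l = l → ρ y (l ^ p ^ a) = l ^ p ^ a) : ∀ l, ρ x l = l → ρ y l = l := by
  obtain ⟨Q, hQ1, hQ2⟩ := CondH_av hp hE ρ a h1 (Subgroup.closure {x})
  obtain ⟨P, hP1, hP2⟩ := CondH_av hp hE ρ a h1 (Subgroup.closure {x, y})
  have hxQ : x ∈ Subgroup.closure ({x} : Set E) := Subgroup.subset_closure rfl
  have hxP : x ∈ Subgroup.closure ({x, y} : Set E) := Subgroup.subset_closure (Or.inl rfl)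
  have hyP : y ∈ Subgroup.closure ({x, y} : Set E) := Subgroup.subset_closure (Or.inr rfl)
  have hfix1 : ∀ l, ρ x l = l → Q l = l := fun l hl => hQ2 l (CondH_fix ρ l _ (by
    intro s hs
    rw [Set.mem_singleton_iff] at hs
    rw [hs, hl]))
  have hfix2 : ∀ l, ρ x l = l → ρ y l = l → P l = l := fun l hl hl' => hP2 l (CondH_fix ρ l _ (by
    rintro s (hs | hs)
    · rw [hs, hl]
    · rw [Set.mem_singleton_iff] at hs
      rw [hs, hl']))
  have hstep : ∀ c, ρ x c = c → P c = 1 → ∃ e, ρ x e = e ∧ P e = 1 ∧ e ^ p = c := by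
    intro c hc hPc
    have hc2 : ρ y (c ^ p ^ a) = c ^ p ^ a := h c hc
    have hc1 : ρ x (c ^ p ^ a) = c ^ p ^ a := by rw [map_pow, hc]
    have h3 : c ^ p ^ a = 1 := by rw [← hfix2 _ hc1 hc2, map_pow, hPc, one_pow]
    obtain ⟨e, he⟩ := h2 c h3
    refine ⟨Q e * (P (Q e))⁻¹, ?_, ?_, ?_⟩
    · rw [map_mul, map_inv, hQ1 e x hxQ, hP1 (Q e) x hxP]
    · rw [map_mul, map_inv, hfix2 (P (Q e)) (hP1 _ x hxP) (hP1 _ y hyP), mul_inv_cancel]
    · rw [mul_pow, inv_pow, ← map_pow, ← map_pow, ← map_pow, he, hfix1 c hc, hPc, inv_one, mul_one]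
  have hall : ∀ j : ℕ, ∀ c, ρ x c = c → P c = 1 → ∃ e, ρ x e = e ∧ P e = 1 ∧ e ^ p ^ j = c := by
    intro j
    induction j with
    | zero => exact fun c hc hPc => ⟨c, hc, hPc, by rw [pow_zero, pow_one]⟩
    | succ j ih =>
      intro c hc hPc
      obtain ⟨e, he1, he2, he3⟩ := ih c hc hPc
      obtain ⟨f, hf1, hf2, hf3⟩ := hstep e he1 he2
      exact ⟨f, hf1, hf2, by rw [pow_succ, mul_comm, pow_mul, hf3, he3]⟩
  intro l hl
  obtain ⟨e, -, -, he⟩ := hall (a + 1) (l * (P l)⁻¹)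
    (by rw [map_mul, map_inv, hl, hP1 l x hxP])
    (by rw [map_mul, map_inv, hfix2 (P l) (hP1 _ x hxP) (hP1 _ y hyP), mul_inv_cancel])
  rw [h1] at he
  have h4 : l = P l := mul_inv_eq_one.1 he.symm
  rw [h4]
  exact hP1 l y hyP

/-- The dual action. -/
def CondH_dual {D E : Type} [CommGroup D] [Group E] (φ : E →* MulAut D) :
    E →* MulAut (D →* ℂˣ) where
  toFun y :=
    { toFun := fun l => l.comp (φ y⁻¹).toMonoidHom
      invFun := fun l => l.comp (φ y).toMonoidHom
      left_inv := by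
        intro l
        ext d
        show ((l (φ y⁻¹ (φ y d)) : ℂˣ) : ℂ) = l d
        rw [← MulAut.mul_apply, ← map_mul, inv_mul_cancel, map_one, MulAut.one_apply]
      right_inv := by
        intro l
        ext d
        show ((l (φ y (φ y⁻¹ d)) : ℂˣ) : ℂ) = l d
        rw [← MulAut.mul_apply, ← map_mul, mul_inv_cancel, map_one, MulAut.one_apply]
      map_mul' := by
        intro l l'
        rfl }
  map_one' := by
    ext l d
    show ((l (φ (1 : E)⁻¹ d) : ℂˣ) : ℂ) = l d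
    rw [inv_one, map_one, MulAut.one_apply]
  map_mul' := by
    intro y z
    ext l d
    show ((l (φ (y * z)⁻¹ d) : ℂˣ) : ℂ) = l (φ z⁻¹ (φ y⁻¹ d))
    rw [mul_inv_rev, map_mul, MulAut.mul_apply]

theorem CondH_dual_fix {D E : Type} [CommGroup D] [Group E] (φ : E →* MulAut D) (y : E)
    (l : D →* ℂˣ) : CondH_dual φ y l = l ↔ y ∈ stab φ l := by
  rw [← inv_mem_iff (H := stab φ l) (x := y)]
  constructor
  · intro h d
    exact DFunLike.congr_fun h d
  · intro h
    ext d
    exact congrArg Units.val (h d)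

theorem CondH_sep {D E : Type} [CommGroup D] [Group E] [Finite D] (φ : E →* MulAut D)
    (x y : E) (hxy : ¬ Dx φ y ≤ Dx φ x) : ∃ l : D →* ℂˣ, x ∈ stab φ l ∧ y ∉ stab φ l := by
  obtain ⟨d, hd, hd'⟩ := Set.not_subset.1 hxy
  obtain ⟨e, he⟩ := hd
  have hne : NeZero (Monoid.exponent (D ⧸ Dx φ x)) := ⟨Monoid.exponent_ne_zero_of_finite⟩
  have hd1 : (QuotientGroup.mk d : D ⧸ Dx φ x) ≠ 1 := fun h =>
    hd' ((QuotientGroup.eq_one_iff d).1 h)
  obtain ⟨l, hl⟩ := CommGroup.exists_apply_ne_one_of_hasEnoughRootsOfUnity (D ⧸ Dx φ x) ℂ hd1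
  refine ⟨l.comp (QuotientGroup.mk' (Dx φ x)), ?_, ?_⟩
  · intro b
    show l (QuotientGroup.mk (φ x b)) = l (QuotientGroup.mk b)
    congr 1
    rw [QuotientGroup.eq]
    have h3 : (φ x b * b⁻¹)⁻¹ ∈ Dx φ x := (Dx φ x).inv_mem ⟨b, rfl⟩
    rwa [mul_inv, inv_inv] at h3
  · intro hy
    apply hl
    have h3 : l (QuotientGroup.mk (φ y e)) = l (QuotientGroup.mk e) := hy e
    rw [← he, QuotientGroup.mk_mul, QuotientGroup.mk_inv, map_mul, map_inv, h3, mul_inv_cancel]

/-- For `x y : E` with `[D, y]` not contained in `[D, x]` the number of the linear characters of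
`D` fixed by `x` and `y` (trivial on `[D, x] [D, y]`) times `p ^ (a + 1)` is at most the number of
the linear characters fixed by `x` (trivial on `[D, x]`).
Proof: let `K` be the subgroup generated by `x, y` and `X` the subgroup generated by `x`;
`|K|, |X|` are prime to `p`, so with `m |K| ≡ 1`, `n |X| ≡ 1` modulo `p ^ (a + 1)` the
endomorphisms `P d = (∏_{k ∈ K} φ k d) ^ m` and `Q d = (∏_{k ∈ X} φ k d) ^ n` of `D` are
idempotent with images the fixed points of `K` and `x`, and `P Q = Q P = P`. For the endomorphism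
`R d = Q d * (P d)⁻¹` (idempotent) the image `C` has the property: if `c ∈ C`, `c ^ p ^ a = 1`,
then `c = e ^ p` for some `e`, so `c = R c = (R e) ^ p`, a `p`-th power in `C`. If all elements
of `C` satisfy `c ^ p ^ a = 1`, then `c ↦ c ^ p` is onto and so bijective on `C`, so `C = 1`
(the exponent is a power of `p`), so `Q = P`, the fixed points of `x` are fixed by `y`, so
`[D, y] ⊆ [D, x]` (`D = C_D(x) [D, x]`). Otherwise `C` has an element of order `p ^ (a + 1)`.
The linear characters fixed by `x` are those of the form `l ∘ Q`, and the `l ∘ R` are `|C|`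
linear characters fixed by `x` which form a complement of those fixed by `x` and `y` (the
`l ∘ P`). -/
theorem card_fixed {D E : Type} [CommGroup D] [Group E] [Finite D] [Finite E] {p : ℕ}
    (hp : p.Prime) (hE : Nat.Coprime (Nat.card E) p) (φ : E →* MulAut D) (a : ℕ)
    (h1 : ∀ d : D, d ^ p ^ (a + 1) = 1) (h2 : ∀ d : D, d ^ p ^ a = 1 → ∃ e : D, e ^ p = d)
    (x y : E) (hxy : ¬ Dx φ y ≤ Dx φ x) :
    p ^ (a + 1) * Nat.card {l : D →* ℂˣ // x ∈ stab φ l ∧ y ∈ stab φ l} ≤
      Nat.card {l : D →* ℂˣ // x ∈ stab φ l} := by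
  have hne : NeZero (Monoid.exponent D) := ⟨Monoid.exponent_ne_zero_of_finite⟩
  obtain ⟨ε⟩ := CommGroup.monoidHom_mulEquiv_of_hasEnoughRootsOfUnity D ℂ
  have hfin : Finite (D →* ℂˣ) := Finite.of_equiv D ε.symm.toEquiv
  have h1' : ∀ l : D →* ℂˣ, l ^ p ^ (a + 1) = 1 := by
    intro l
    apply ε.injective
    rw [map_pow, h1, map_one]
  have h2' : ∀ l : D →* ℂˣ, l ^ p ^ a = 1 → ∃ e : D →* ℂˣ, e ^ p = l := by
    intro l hl
    obtain ⟨e, he⟩ := h2 (ε l) (by rw [← map_pow, hl, map_one])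
    refine ⟨ε.symm e, ?_⟩
    apply ε.injective
    rw [map_pow, ε.apply_symm_apply, he]
  obtain ⟨l₁, hl₁, hl₂⟩ := CondH_sep φ x y hxy
  obtain ⟨l₀, hx0, hy0⟩ : ∃ l : D →* ℂˣ, x ∈ stab φ l ∧ y ∉ stab φ (l ^ p ^ a) := by
    by_contra hcon
    push Not at hcon
    refine hl₂ ((CondH_dual_fix φ y l₁).1 (CondH_key hp hE (CondH_dual φ) a h1' h2' x y ?_ l₁
      ((CondH_dual_fix φ x l₁).2 hl₁)))
    intro l hl
    exact (CondH_dual_fix φ y _).2 (hcon l ((CondH_dual_fix φ x l).1 hl))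
  let A : Subgroup (D →* ℂˣ) :=
    { carrier := {l | x ∈ stab φ l}
      one_mem' := fun d => rfl
      mul_mem' := fun {l l'} h h' d => by
        show l (φ x d) * l' (φ x d) = l d * l' d
        rw [show l (φ x d) = l d from h d, show l' (φ x d) = l' d from h' d]
      inv_mem' := fun {l} h d => by
        show (l (φ x d))⁻¹ = (l d)⁻¹
        rw [show l (φ x d) = l d from h d] }
  let B : Subgroup A :=
    { carrier := {l | y ∈ stab φ l.1}
      one_mem' := fun d => rfl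
      mul_mem' := fun {l l'} h h' d => by
        show l.1 (φ y d) * l'.1 (φ y d) = l.1 d * l'.1 d
        rw [show l.1 (φ y d) = l.1 d from h d, show l'.1 (φ y d) = l'.1 d from h' d]
      inv_mem' := fun {l} h d => by
        show (l.1 (φ y d))⁻¹ = (l.1 d)⁻¹
        rw [show l.1 (φ y d) = l.1 d from h d] }
  have hB : Nat.card B = Nat.card {l : D →* ℂˣ // x ∈ stab φ l ∧ y ∈ stab φ l} :=
    Nat.card_congr
      { toFun := fun b => ⟨b.1.1, b.1.2, b.2⟩
        invFun := fun l => ⟨⟨l.1, l.2.1⟩, l.2.2⟩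
        left_inv := fun b => rfl
        right_inv := fun l => rfl }
  have hA : Nat.card A = Nat.card {l : D →* ℂˣ // x ∈ stab φ l} := rfl
  rw [← hA, ← hB, Subgroup.card_eq_card_quotient_mul_card_subgroup B]
  refine Nat.mul_le_mul_right _ ?_
  let z : A ⧸ B := QuotientGroup.mk (⟨l₀, hx0⟩ : A)
  have hz1 : ¬ z ^ p ^ a = 1 := by
    intro hz
    have hz' : ((⟨l₀, hx0⟩ : A) ^ p ^ a) ∈ B := by
      rw [← QuotientGroup.eq_one_iff]
      exact hz
    exact hy0 hz'
  have hz2 : z ^ p ^ (a + 1) = 1 := by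
    have hz' : ((⟨l₀, hx0⟩ : A) ^ p ^ (a + 1)) = 1 := Subtype.ext (h1' l₀)
    show (QuotientGroup.mk ((⟨l₀, hx0⟩ : A) ^ p ^ (a + 1)) : A ⧸ B) = 1
    rw [hz']
    rfl
  have : Fact p.Prime := ⟨hp⟩
  rw [← orderOf_eq_prime_pow hz1 hz2]
  exact orderOf_le_card

/-- `Cond` holds if `D` is homocyclic of exponent `p ^ (a + 1) ≥ |E|`. For `x ∈ E` the linear
characters fixed by `x` and by some `y` with `[D, y]` not contained in `[D, x]` are, by
`card_fixed`, at most `(|E| - 1) / p ^ (a + 1)` of all those fixed by `x` (`y = 1` does not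
occur), so some `l` fixed by `x` has `[D, y] ⊆ [D, x]` for all `y` in its stabilizer. If `x ≠ 1`,
then `[D, x]` is not contained in `[D, 1] = 1` (faithfulness), so `card_fixed` for `1, x` shows
`p ^ (a + 1) * |D / [D, x]| ≤ |D|`, i.e. `|[D, x]| ≥ p ^ (a + 1) ≥ |E|` (the linear characters
fixed by `x` are those trivial on `[D, x]`, there are `|D / [D, x]|` of them), and `|[D, x]|` is a
power of `p` and not `1`, so it is not equal to the order of a subgroup of `E`. -/
theorem cond_homocyclic {D E : Type} [CommGroup D] [Group E] [Finite D] [Finite E] {p : ℕ}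
    (hp : p.Prime) (hE : Nat.Coprime (Nat.card E) p) (φ : E →* MulAut D)
    (hφ : Function.Injective φ) (a : ℕ) (h1 : ∀ d : D, d ^ p ^ (a + 1) = 1)
    (h2 : ∀ d : D, d ^ p ^ a = 1 → ∃ e : D, e ^ p = d) (h3 : Nat.card E ≤ p ^ (a + 1)) :
    Cond φ := by
  classical
  have : Fact p.Prime := ⟨hp⟩
  have hne : NeZero (Monoid.exponent D) := ⟨Monoid.exponent_ne_zero_of_finite⟩
  obtain ⟨ε⟩ := CommGroup.monoidHom_mulEquiv_of_hasEnoughRootsOfUnity D ℂ
  have hfin : Finite (D →* ℂˣ) := Finite.of_equiv D ε.symm.toEquiv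
  have hfX : Fintype (D →* ℂˣ) := Fintype.ofFinite _
  have hfE : Fintype E := Fintype.ofFinite _
  intro x
  -- existence of the character
  obtain ⟨l, hl1, hl2⟩ : ∃ l : D →* ℂˣ, x ∈ stab φ l ∧ ∀ y ∈ stab φ l, Dx φ y ≤ Dx φ x := by
    by_contra hcon
    push Not at hcon
    let A : Finset (D →* ℂˣ) := Finset.univ.filter (fun l => x ∈ stab φ l)
    let Bad : Finset E := Finset.univ.filter (fun y => ¬ Dx φ y ≤ Dx φ x)
    let Ay : E → Finset (D →* ℂˣ) := fun y =>
      Finset.univ.filter (fun l => x ∈ stab φ l ∧ y ∈ stab φ l)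
    have hsub : A ⊆ Bad.biUnion Ay := by
      intro l hl
      obtain ⟨y, hy1, hy2⟩ := hcon l (Finset.mem_filter.1 hl).2
      rw [Finset.mem_biUnion]
      exact ⟨y, Finset.mem_filter.2 ⟨Finset.mem_univ _, hy2⟩,
        Finset.mem_filter.2 ⟨Finset.mem_univ _, (Finset.mem_filter.1 hl).2, hy1⟩⟩
    have hAcard : Nat.card {l : D →* ℂˣ // x ∈ stab φ l} = A.card := by
      rw [Nat.card_eq_fintype_card, Fintype.card_subtype]
    have hAycard : ∀ y, Nat.card {l : D →* ℂˣ // x ∈ stab φ l ∧ y ∈ stab φ l} = (Ay y).card := by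
      intro y
      rw [Nat.card_eq_fintype_card, Fintype.card_subtype]
    have hle : ∀ y ∈ Bad, p ^ (a + 1) * (Ay y).card ≤ A.card := by
      intro y hy
      rw [← hAcard, ← hAycard]
      exact card_fixed hp hE φ a h1 h2 x y (Finset.mem_filter.1 hy).2
    have h4 : p ^ (a + 1) * A.card ≤ Bad.card * A.card := by
      calc p ^ (a + 1) * A.card ≤ p ^ (a + 1) * ∑ y ∈ Bad, (Ay y).card :=
            Nat.mul_le_mul_left _ ((Finset.card_le_card hsub).trans Finset.card_biUnion_le)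
        _ = ∑ y ∈ Bad, p ^ (a + 1) * (Ay y).card := Finset.mul_sum _ _ _
        _ ≤ ∑ y ∈ Bad, A.card := Finset.sum_le_sum hle
        _ = Bad.card * A.card := by rw [Finset.sum_const, smul_eq_mul]
    have h5 : 0 < A.card := Finset.card_pos.2 ⟨1, Finset.mem_filter.2 ⟨Finset.mem_univ _, fun _ => rfl⟩⟩
    have h6 : p ^ (a + 1) ≤ Bad.card := Nat.le_of_mul_le_mul_right h4 h5
    have h7 : Bad.card < Nat.card E := by
      rw [Nat.card_eq_fintype_card, ← Finset.card_univ]
      refine Finset.card_lt_card ⟨Finset.subset_univ _, fun hh => ?_⟩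
      have h8 := hh (Finset.mem_univ (1 : E))
      refine (Finset.mem_filter.1 h8).2 ?_
      rintro _ ⟨d, rfl⟩
      rw [map_one, MulAut.one_apply, mul_inv_cancel]
      exact (Dx φ x).one_mem
    omega
  refine ⟨l, hl1, hl2, fun hx => ?_⟩
  -- an element of large order in `[D, x]`
  obtain ⟨d, hd⟩ : ∃ d : D, φ x (d ^ p ^ a) ≠ d ^ p ^ a := by
    by_contra hcon
    push Not at hcon
    apply hx
    apply hφ
    rw [map_one]
    ext d
    exact CondH_key hp hE φ a h1 h2 1 x (fun l _ => hcon l) d (by rw [map_one, MulAut.one_apply])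
  let c : Dx φ x := ⟨φ x d * d⁻¹, d, rfl⟩
  have hc1 : ¬ c ^ p ^ a = 1 := by
    intro hc
    have h4 : (φ x d * d⁻¹) ^ p ^ a = 1 := congrArg Subtype.val hc
    rw [mul_pow, inv_pow, ← map_pow] at h4
    exact hd (mul_inv_eq_one.1 h4)
  have hc2 : c ^ p ^ (a + 1) = 1 := Subtype.ext (h1 _)
  have hord : orderOf c = p ^ (a + 1) := orderOf_eq_prime_pow hc1 hc2
  have h4 : p ^ (a + 1) ≤ Nat.card (Dx φ x) := by
    rw [← hord]
    exact orderOf_le_card
  have h5 : Nat.card (stab φ l) ≤ Nat.card E := Subgroup.card_le_card_group _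
  have h6 : p ∣ Nat.card (Dx φ x) := by
    refine dvd_trans ?_ (orderOf_dvd_natCard c)
    rw [hord]
    exact dvd_pow_self p (by omega)
  have h7 : Nat.Coprime (Nat.card (stab φ l)) p :=
    Nat.Coprime.coprime_dvd_left (Subgroup.card_subgroup_dvd_card _) hE
  have h8 : Nat.card (stab φ l) ≠ Nat.card (Dx φ x) := by
    intro he
    rw [he] at h7
    exact hp.one_lt.ne' (Nat.Coprime.eq_one_of_dvd h7.symm h6)
  omega

end Pool.Agent.Har
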