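import Mathlib
import Pool.Agent.W_02e251_h65.Defs

/-!
The homomorphisms `theta` from class functions of `D ⋊ E` to class functions of the stabilizers.
-/

set_option autoImplicit false

open Pool.Agent.Har

namespace Pool.Agent.Har

variable {D E : Type} [CommGroup D] [Group E] [Fintype D] [Fintype E] (φ : E →* MulAut D)

/-- restriction to the part of `u` belonging to the linear character `l` -/
noncomputable def theta (l : D →* ℂˣ) (u : D ⋊[φ] E → ℂ) (x : stab φ l) : ℂ :=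
  ∑ d : D, u ⟨d, (x : E)⟩ * (l d : ℂ)

omit [Fintype D] [Fintype E] in
theorem ThetaA_conj {u : D ⋊[φ] E → ℂ} (hu : IsClass u) (h g : E) (d : D) :
    u ⟨φ h d, h * g * h⁻¹⟩ = u ⟨d, g⟩ := by
  rw [← hu ⟨d, g⟩ ⟨1, h⟩]
  congr 1
  apply SemidirectProduct.ext
  · simp [SemidirectProduct.mul_left, SemidirectProduct.inv_left]
  · simp

omit [Fintype D] [Fintype E] in
theorem ThetaA_conj' {u : D ⋊[φ] E → ℂ} (hu : IsClass u) (y : E) (a c : D) :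
    u ⟨a * c * (φ y a)⁻¹, y⟩ = u ⟨c, y⟩ := by
  rw [← hu ⟨c, y⟩ ⟨a, 1⟩]
  congr 1
  apply SemidirectProduct.ext
  · simp [SemidirectProduct.mul_left, SemidirectProduct.inv_left]
  · simp

theorem theta_class (l : D →* ℂˣ) {u : D ⋊[φ] E → ℂ} (hu : IsClass u) :
    IsClass (theta φ l u) := by
  intro g h
  unfold theta
  rw [← Equiv.sum_comp (φ (h : E)).toEquiv
    (fun d : D => u ⟨d, ((h * g * h⁻¹ : stab φ l) : E)⟩ * (l d : ℂ))]
  apply Finset.sum_congr rfl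
  intro d _
  have h1 : (φ (h : E)).toEquiv d = φ (h : E) d := rfl
  have h2 : l (φ (h : E) d) = l d := h.2 d
  have h3 : ((h * g * h⁻¹ : stab φ l) : E) = (h : E) * (g : E) * (h : E)⁻¹ := rfl
  rw [h1, h2, h3, ThetaA_conj φ hu]

omit [Fintype E] in
theorem ThetaA_zero (l : D →* ℂˣ) {u : D ⋊[φ] E → ℂ} (hu : IsClass u) {y : E}
    (hy : y ∉ stab φ l) : ∑ c : D, u ⟨c, y⟩ * (l c : ℂ) = 0 := by
  have h1 : ∃ a : D, l (φ y a) ≠ l a := by
    by_contra hcon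
    push Not at hcon
    exact hy hcon
  obtain ⟨a, ha⟩ := h1
  have h2 : ∑ c : D, u ⟨c, y⟩ * (l c : ℂ)
      = ((l (a * (φ y a)⁻¹) : ℂˣ) : ℂ) * ∑ c : D, u ⟨c, y⟩ * (l c : ℂ) := by
    conv_lhs => rw [← Equiv.sum_comp (Equiv.mulLeft (a * (φ y a)⁻¹))
      (fun c : D => u ⟨c, y⟩ * (l c : ℂ))]
    rw [Finset.mul_sum]
    apply Finset.sum_congr rfl
    intro c _
    have h3 : (Equiv.mulLeft (a * (φ y a)⁻¹)) c = a * c * (φ y a)⁻¹ := by
      rw [Equiv.coe_mulLeft]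
      exact mul_right_comm a _ c
    have h4 : ((l (a * c * (φ y a)⁻¹) : ℂˣ) : ℂ)
        = ((l (a * (φ y a)⁻¹) : ℂˣ) : ℂ) * (l c : ℂ) := by
      rw [mul_right_comm a c, map_mul l (a * (φ y a)⁻¹) c, Units.val_mul]
    rw [h3, ThetaA_conj' φ hu, h4]
    ring
  have h5 : ((l (a * (φ y a)⁻¹) : ℂˣ) : ℂ) ≠ 1 := by
    intro h
    apply ha
    have h6 : l (a * (φ y a)⁻¹) = 1 := Units.ext h
    rw [map_mul, map_inv] at h6
    exact (mul_inv_eq_one.1 h6).symm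
  have h7 : (((l (a * (φ y a)⁻¹) : ℂˣ) : ℂ) - 1) * ∑ c : D, u ⟨c, y⟩ * (l c : ℂ) = 0 := by
    rw [sub_mul, one_mul, ← h2, sub_self]
  rcases mul_eq_zero.1 h7 with h | h
  · exact absurd (sub_eq_zero.1 h) h5
  · exact h

omit [Fintype E] in
theorem ThetaA_inner (l : D →* ℂˣ) (v : D ⋊[φ] E → ℂ) (x y : E) (c : D) :
    ∑ d : D, v ((⟨c, y⟩ : D ⋊[φ] E)⁻¹ * ⟨d, x⟩) * (l d : ℂ)
      = (l c : ℂ) * ∑ d : D, v ⟨d, y⁻¹ * x⟩ * (l (φ y d) : ℂ) := by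
  rw [← Equiv.sum_comp ((φ y).toEquiv.trans (Equiv.mulLeft c))
    (fun d : D => v ((⟨c, y⟩ : D ⋊[φ] E)⁻¹ * ⟨d, x⟩) * (l d : ℂ)), Finset.mul_sum]
  apply Finset.sum_congr rfl
  intro d _
  have h1 : ((φ y).toEquiv.trans (Equiv.mulLeft c)) d = c * φ y d := rfl
  have h2 : (⟨c, y⟩ : D ⋊[φ] E)⁻¹ * ⟨c * φ y d, x⟩ = ⟨d, y⁻¹ * x⟩ := by
    rw [inv_mul_eq_iff_eq_mul]
    apply SemidirectProduct.ext
    · simp [SemidirectProduct.mul_left]
    · simp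
  rw [h1, h2, map_mul, Units.val_mul]
  ring

/-- `theta` is multiplicative. With `k = ⟨c, y⟩`, `k⁻¹ * ⟨d, x⟩ = ⟨φ y⁻¹ (c⁻¹ d), y⁻¹ x⟩`; put
`d' = φ y⁻¹ (c⁻¹ d)`, `d = c * φ y d'`:
`theta (conv u v) x = ∑_y (∑_c l c * u ⟨c, y⟩) (∑_{d'} l (φ y d') * v ⟨d', y⁻¹ x⟩)`. For `y` in the
stabilizer this is the term of `conv (theta u) (theta v)`. For `y` not in the stabilizer the first
factor is zero: `⟨a, 1⟩ ⟨c, y⟩ ⟨a, 1⟩⁻¹ = ⟨a c φ y a⁻¹, y⟩`, so as `u` is a class function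
`∑_c l c * u ⟨c, y⟩ = l (a⁻¹ * φ y a) * ∑_c l c * u ⟨c, y⟩`, and some `a` has `l (φ y a) ≠ l a`. -/
theorem theta_conv [Fintype (D ⋊[φ] E)] (l : D →* ℂˣ) [Fintype (stab φ l)]
    {u v : D ⋊[φ] E → ℂ} (hu : IsClass u) (hv : IsClass v) :
    theta φ l (conv u v) = conv (theta φ l u) (theta φ l v) := by
  classical
  funext x
  have h1 : theta φ l (conv u v) x
      = ∑ y : E, (∑ c : D, u ⟨c, y⟩ * (l c : ℂ)) *
        ∑ d : D, v ⟨d, y⁻¹ * (x : E)⟩ * (l (φ y d) : ℂ) := by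
    unfold theta conv
    have h2 : ∀ d : D, (∑ k : D ⋊[φ] E, u k * v (k⁻¹ * ⟨d, (x : E)⟩)) * (l d : ℂ)
        = ∑ y : E, ∑ c : D, u ⟨c, y⟩ * (v ((⟨c, y⟩ : D ⋊[φ] E)⁻¹ * ⟨d, (x : E)⟩) * (l d : ℂ)) := by
      intro d
      rw [← Equiv.sum_comp (SemidirectProduct.equivProd (φ := φ)).symm
        (fun k : D ⋊[φ] E => u k * v (k⁻¹ * ⟨d, (x : E)⟩)), Fintype.sum_prod_type_right,
        Finset.sum_mul]
      apply Finset.sum_congr rfl
      intro y _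
      rw [Finset.sum_mul]
      apply Finset.sum_congr rfl
      intro c _
      exact mul_assoc _ _ _
    rw [Finset.sum_congr rfl (fun d _ => h2 d), Finset.sum_comm]
    apply Finset.sum_congr rfl
    intro y _
    rw [Finset.sum_comm, Finset.sum_mul]
    apply Finset.sum_congr rfl
    intro c _
    rw [← Finset.mul_sum, ThetaA_inner φ l v (x : E) y c]
    ring
  rw [h1]
  have h3 : ∑ y ∈ Finset.image (Subtype.val : stab φ l → E) Finset.univ,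
      (∑ c : D, u ⟨c, y⟩ * (l c : ℂ)) *
        ∑ d : D, v ⟨d, y⁻¹ * (x : E)⟩ * (l (φ y d) : ℂ)
      = ∑ y : E, (∑ c : D, u ⟨c, y⟩ * (l c : ℂ)) *
        ∑ d : D, v ⟨d, y⁻¹ * (x : E)⟩ * (l (φ y d) : ℂ) := by
    apply Finset.sum_subset (Finset.subset_univ _)
    intro y _ hy
    have h4 : y ∉ stab φ l := by
      intro h
      exact hy (Finset.mem_image.2 ⟨⟨y, h⟩, Finset.mem_univ _, rfl⟩)
    rw [ThetaA_zero φ l hu h4, zero_mul]
  rw [← h3, Finset.sum_image (fun a _ b _ h => Subtype.ext h)]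
  unfold conv
  apply Finset.sum_congr rfl
  intro y _
  unfold theta
  congr 1
  apply Finset.sum_congr rfl
  intro d _
  have h5 : l (φ (y : E) d) = l d := y.2 d
  rw [h5]
  rfl

end Pool.Agent.Har
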