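import Mathlib
import Pool.Agent.W_02e251_h65.Defs
import Pool.Agent.W_02e251_h65.ThetaA

/-!
`p`-regular elements of `D ⋊ E`, `D` an abelian `p`-group, `E` a `p'`-group.
-/

set_option autoImplicit false

open Pool.Agent.Har

namespace Pool.Agent.Har

variable {D E : Type} [CommGroup D] [Group E] [Fintype D] [Fintype E] (φ : E →* MulAut D)

/-- `⟨b, 1⟩ ⟨1, x⟩ ⟨b, 1⟩⁻¹ = ⟨b * φ x b⁻¹, x⟩` -/
theorem isConj_of_mem_Dx {x : E} {a : D} (ha : a ∈ Dx φ x) :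
    IsConj (⟨1, x⟩ : D ⋊[φ] E) ⟨a, x⟩ := by
  obtain ⟨d, rfl⟩ := ha
  rw [isConj_iff]
  refine ⟨⟨d⁻¹, 1⟩, ?_⟩
  apply SemidirectProduct.ext
  · simp [SemidirectProduct.mul_left, SemidirectProduct.inv_left, mul_comm]
  · simp

/-- the powers of `⟨a, x⟩` modulo `[D, x]` -/
theorem ThetaB_pow (x : E) (a : D) (k : ℕ) :
    ∃ c ∈ Dx φ x, ((⟨a, x⟩ : D ⋊[φ] E) ^ k).left = a ^ k * c := by
  induction k with
  | zero => exact ⟨1, (Dx φ x).one_mem, by simp⟩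
  | succ k ih =>
    obtain ⟨c, hc, h⟩ := ih
    set N : D := ((⟨a, x⟩ : D ⋊[φ] E) ^ k).left with hN
    refine ⟨c * (φ x N * N⁻¹), (Dx φ x).mul_mem hc ⟨N, rfl⟩, ?_⟩
    rw [pow_succ', SemidirectProduct.mul_left, ← hN]
    show a * φ x N = a ^ (k + 1) * (c * (φ x N * N⁻¹))
    rw [pow_succ]
    have h2 : N⁻¹ = (a ^ k * c)⁻¹ := by rw [h]
    rw [h2]
    have h3 : a ^ k * a * (c * (φ x N * (a ^ k * c)⁻¹)) = (a ^ k * c) * (a ^ k * c)⁻¹ *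
        (a * φ x N) := by
      simp only [mul_assoc, mul_comm, mul_left_comm]
    rw [h3, mul_inv_cancel, one_mul]

theorem ThetaB_class {G : Type} [Group G] {u : G → ℂ} (hu : IsClass u) {g h : G}
    (hgh : IsConj g h) : u h = u g := by
  rw [isConj_iff] at hgh
  obtain ⟨c, rfl⟩ := hgh
  exact hu g c

/-- if `a ∉ [D, x]` then `⟨a, x⟩` is `p`-singular: let `m` be the order of `x` (prime to `p`);
`⟨a, x⟩ ^ m = ⟨N, 1⟩` with `N = a * φ x a * ... * φ x ^ (m - 1) a`, an element of `p`-power order;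
if the order of `⟨a, x⟩` is prime to `p` then `N = 1`, and modulo the subgroup `[D, x]` (where `φ x`
is trivial) `N ≡ a ^ m`, so `a ^ m ∈ [D, x]` and `a ∈ [D, x]` as `m` is prime to the order of `a` -/
theorem dvd_orderOf_of_not_mem_Dx {p : ℕ} (hp : p.Prime) (hD : IsPGroup p D)
    (hE : Nat.Coprime (Fintype.card E) p) {x : E} {a : D} (ha : a ∉ Dx φ x) :
    p ∣ orderOf (⟨a, x⟩ : D ⋊[φ] E) := by
  haveI : Fact p.Prime := ⟨hp⟩
  by_contra hnd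
  apply ha
  obtain ⟨c, hc, h⟩ := ThetaB_pow φ x a (orderOf (⟨a, x⟩ : D ⋊[φ] E))
  rw [pow_orderOf_eq_one, SemidirectProduct.one_left] at h
  obtain ⟨j, hj⟩ := IsPGroup.iff_orderOf.1 hD a
  have hcop : (orderOf (⟨a, x⟩ : D ⋊[φ] E)).Coprime (orderOf a) := by
    rw [hj]
    exact Nat.Coprime.pow_right j ((Nat.Prime.coprime_iff_not_dvd hp).2 hnd).symm
  obtain ⟨m, hm⟩ := exists_pow_eq_self_of_coprime hcop
  have hmem : a ^ orderOf (⟨a, x⟩ : D ⋊[φ] E) ∈ Dx φ x := by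
    have h2 : a ^ orderOf (⟨a, x⟩ : D ⋊[φ] E) = c⁻¹ := eq_inv_of_mul_eq_one_left h.symm
    rw [h2]
    exact (Dx φ x).inv_mem hc
  rw [← hm]
  exact (Dx φ x).pow_mem hmem m

/-- the sum over `D` of a function which is one on `[D, x]` -/
theorem ThetaB_sum {p : ℕ} (hp : p.Prime) (hD : IsPGroup p D)
    (hE : Nat.Coprime (Fintype.card E) p) {u : D ⋊[φ] E → ℂ} (hu : IsClass u)
    (hs : VanSing p u) (x : E) (w : D → ℂ) (hw : ∀ d ∈ Dx φ x, w d = 1) :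
    ∑ d : D, u ⟨d, x⟩ * w d = (Nat.card (Dx φ x) : ℂ) * u ⟨1, x⟩ := by
  classical
  have h1 : ∀ d : D, u ⟨d, x⟩ * w d = if d ∈ Dx φ x then u ⟨1, x⟩ else 0 := by
    intro d
    by_cases hd : d ∈ Dx φ x
    · rw [if_pos hd, hw d hd, mul_one]
      exact ThetaB_class hu (isConj_of_mem_Dx φ hd)
    · rw [if_neg hd, hs _ (dvd_orderOf_of_not_mem_Dx φ hp hD hE hd), zero_mul]
  rw [Finset.sum_congr rfl (fun d _ => h1 d), ← Finset.sum_filter, Finset.sum_const,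
    nsmul_eq_mul]
  congr 2
  rw [Nat.card_eq_fintype_card, Fintype.card_subtype]

/-- `∑_d u ⟨d, x⟩ l d`: the terms with `d ∉ [D, x]` vanish, the others are equal to `u ⟨1, x⟩`
(`l` is trivial on `[D, x]` for `x` in the stabilizer of `l`) -/
theorem theta_reg {p : ℕ} (hp : p.Prime) (hD : IsPGroup p D)
    (hE : Nat.Coprime (Fintype.card E) p) (l : D →* ℂˣ) {u : D ⋊[φ] E → ℂ} (hu : IsClass u)
    (hs : VanSing p u) (x : stab φ l) :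
    theta φ l u x = (Nat.card (Dx φ (x : E)) : ℂ) * u ⟨1, (x : E)⟩ := by
  unfold theta
  apply ThetaB_sum φ hp hD hE hu hs (x : E) (fun d => (l d : ℂ))
  rintro d ⟨e, rfl⟩
  have h := x.2 e
  have h2 : l (φ (x : E) e * e⁻¹) = 1 := by
    rw [map_mul, h, map_inv, mul_inv_cancel]
  show ((l (φ (x : E) e * e⁻¹) : ℂˣ) : ℂ) = 1
  rw [h2, Units.val_one]

theorem sum_reg [Fintype (D ⋊[φ] E)] {p : ℕ} (hp : p.Prime) (hD : IsPGroup p D)
    (hE : Nat.Coprime (Fintype.card E) p) {u : D ⋊[φ] E → ℂ} (hu : IsClass u)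
    (hs : VanSing p u) :
    ∑ h : D ⋊[φ] E, u h = ∑ x : E, (Nat.card (Dx φ x) : ℂ) * u ⟨1, x⟩ := by
  have h1 : ∑ h : D ⋊[φ] E, u h = ∑ q : D × E, u ⟨q.1, q.2⟩ :=
    Fintype.sum_equiv SemidirectProduct.equivProd _ _ (fun h => rfl)
  rw [h1, Fintype.sum_prod_type_right]
  apply Finset.sum_congr rfl
  intro x _
  have h2 := ThetaB_sum φ hp hD hE hu hs x (fun _ => 1) (fun _ _ => rfl)
  simpa using h2

theorem eq_zero_of_one {p : ℕ} (hp : p.Prime) (hD : IsPGroup p D)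
    (hE : Nat.Coprime (Fintype.card E) p) {u : D ⋊[φ] E → ℂ} (hu : IsClass u)
    (hs : VanSing p u) (h : ∀ x : E, u ⟨1, x⟩ = 0) : u = 0 := by
  funext g
  obtain ⟨d, x⟩ := g
  by_cases hd : d ∈ Dx φ x
  · rw [ThetaB_class hu (isConj_of_mem_Dx φ hd), h x]
    rfl
  · rw [hs _ (dvd_orderOf_of_not_mem_Dx φ hp hD hE hd)]
    rfl

/-- `[D, x y] ⊆ [D, x] [D, y]`: `φ (x y) d * d⁻¹ = (φ x (φ y d) * (φ y d)⁻¹) * (φ y d * d⁻¹)` -/
theorem card_Dx_mul (x y : E) :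
    Nat.card (Dx φ (x * y)) ∣ Nat.card (Dx φ x) * Nat.card (Dx φ y) := by
  have h1 : Dx φ (x * y) ≤ ((Dx φ x).subtype.coprod (Dx φ y).subtype).range := by
    rintro _ ⟨d, rfl⟩
    refine ⟨(⟨φ x (φ y d) * (φ y d)⁻¹, ⟨φ y d, rfl⟩⟩, ⟨φ y d * d⁻¹, ⟨d, rfl⟩⟩), ?_⟩
    rw [MonoidHom.coprod_apply]
    show φ x (φ y d) * (φ y d)⁻¹ * (φ y d * d⁻¹) = φ (x * y) d * d⁻¹
    rw [map_mul, MulAut.mul_apply]
    group
  refine (Subgroup.card_dvd_of_le h1).trans ?_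
  rw [← Nat.card_prod]
  exact Subgroup.card_range_dvd _

theorem ThetaB_inv_le (x : E) : Dx φ x⁻¹ ≤ Dx φ x := by
  rintro _ ⟨d, rfl⟩
  have h : φ x⁻¹ d * d⁻¹ = (φ x (φ x⁻¹ d) * (φ x⁻¹ d)⁻¹)⁻¹ := by
    rw [← MulAut.mul_apply, ← map_mul, mul_inv_cancel, map_one, MulAut.one_apply, mul_inv,
      inv_inv, mul_comm]
  rw [h]
  exact (Dx φ x).inv_mem ⟨φ x⁻¹ d, rfl⟩

theorem card_Dx_inv (x : E) : Nat.card (Dx φ x⁻¹) = Nat.card (Dx φ x) := by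
  have h : Dx φ x⁻¹ = Dx φ x := by
    apply le_antisymm (ThetaB_inv_le φ x)
    have h2 := ThetaB_inv_le φ x⁻¹
    rwa [inv_inv] at h2
  rw [h]

theorem card_Dx_one : Nat.card (Dx φ (1 : E)) = 1 := by
  have h : Dx φ (1 : E) = ⊥ := by
    rw [eq_bot_iff]
    rintro _ ⟨d, rfl⟩
    simp
  rw [h]
  exact Subgroup.card_bot

theorem card_Dx_pow {p : ℕ} (hp : p.Prime) (hD : IsPGroup p D) (x : E) :
    ∃ k : ℕ, Nat.card (Dx φ x) = p ^ k := by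
  haveI : Fact p.Prime := ⟨hp⟩
  exact IsPGroup.iff_card.1 (hD.to_subgroup (Dx φ x))

theorem dvd_card_Dx {p : ℕ} (hp : p.Prime) (hD : IsPGroup p D) (hφ : Function.Injective φ)
    {x : E} (hx : x ≠ 1) : p ∣ Nat.card (Dx φ x) := by
  obtain ⟨k, hk⟩ := card_Dx_pow φ hp hD x
  rw [hk]
  apply dvd_pow_self
  rintro rfl
  rw [pow_zero] at hk
  apply hx
  apply hφ
  rw [map_one]
  ext d
  have hbot : Dx φ x = ⊥ := Subgroup.eq_bot_of_card_eq (Dx φ x) hk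
  have hd : φ x d * d⁻¹ ∈ Dx φ x := ⟨d, rfl⟩
  rw [hbot, Subgroup.mem_bot] at hd
  rw [MulAut.one_apply]
  exact eq_of_mul_inv_eq_one hd

end Pool.Agent.Har
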