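import Mathlib
import Pool.Agent.W_02e251_h65.Defs
import Pool.Agent.W_02e251_h65.CharA
import Pool.Agent.W_02e251_h65.CharB
import Pool.Agent.W_02e251_h65.ThetaA
import Pool.Agent.W_02e251_h65.ThetaB
import Pool.Agent.W_02e251_h65.Idem
import Pool.Agent.W_02e251_h65.LemKz
import Pool.Agent.W_02e251_h65.Over

/-!
The local theorem: weighted sums of the irreducible characters of `D ⋊ L` which lie over a linear
character `θ` of the kernel of `π : L → E` (a central subgroup of `L`), `E` acting faithfully on `D`.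
-/

set_option autoImplicit false

open Pool.Agent.Har

namespace Pool.Agent.Har

section

variable {D E L : Type} [CommGroup D] [Group E] [Group L] [Fintype D] [Fintype E] [Fintype L]
  {φ : E →* MulAut D} {π : L →* E} {ι : Type}

theorem ker_le_stab (l : D →* ℂˣ) : π.ker ≤ stab (φ.comp π) l := by
  intro z hz d
  have h1 : (φ.comp π) z = 1 := by
    rw [MonoidHom.comp_apply, MonoidHom.mem_ker.mp hz, map_one]
  rw [h1, MulAut.one_apply]

/-- the linear character `θ` on the kernel inside the stabilizer -/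
noncomputable def thF (φ : E →* MulAut D) {π : L →* E} (θ : π.ker →* ℂˣ) (l : D →* ℂˣ) :
    (π.ker.subgroupOf (stab (φ.comp π) l)) →* ℂˣ :=
  θ.comp (Subgroup.subgroupOfEquivOfLe (ker_le_stab (φ := φ) (π := π) l)).toMonoidHom

theorem thF_apply (θ : π.ker →* ℂˣ) (l : D →* ℂˣ)
    (z : π.ker.subgroupOf (stab (φ.comp π) l)) :
    thF φ θ l z = θ ⟨((z : stab (φ.comp π) l) : L), Subgroup.mem_subgroupOf.mp z.2⟩ := rfl

theorem center_stab (hK : π.ker ≤ Subgroup.center L) (l : D →* ℂˣ) :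
    π.ker.subgroupOf (stab (φ.comp π) l) ≤ Subgroup.center (stab (φ.comp π) l) := by
  intro z hz
  rw [Subgroup.mem_center_iff]
  intro g
  apply Subtype.ext
  exact Subgroup.mem_center_iff.mp (hK (Subgroup.mem_subgroupOf.mp hz)) (g : L)

theorem card_stab (l : D →* ℂˣ) : Nat.card (stab (φ.comp π) l) ≤
    Nat.card (stab φ l) * Nat.card (π.ker.subgroupOf (stab (φ.comp π) l)) := by
  have h1 := Subgroup.card_mul_index (π.ker.subgroupOf (stab (φ.comp π) l))
  have h2 : (π.ker.subgroupOf (stab (φ.comp π) l)).index =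
      Nat.card ((stab (φ.comp π) l).map π) := Subgroup.relIndex_ker _ π
  have h3 : (stab (φ.comp π) l).map π ≤ stab φ l := by
    rintro _ ⟨y, hy, rfl⟩
    exact hy
  have h4 : Nat.card ((stab (φ.comp π) l).map π) ≤ Nat.card (stab φ l) :=
    Nat.card_le_card_of_injective _ (Subgroup.inclusion_injective h3)
  rw [← h1, h2, mul_comm]
  exact Nat.mul_le_mul_right _ h4

theorem mk_mul_inr (d : D) (x z : L) :
    (⟨d, x⟩ : D ⋊[φ.comp π] L) * SemidirectProduct.inr z = ⟨d, x * z⟩ := by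
  ext
  · simp
  · simp

/-- `f` lies over `θ` -/
def Over {H : Type} [Group H] (j : L →* H) {π : L →* E} (θ : π.ker →* ℂˣ) (f : H → ℂ) : Prop :=
  ∀ h : H, ∀ z : π.ker, f (h * j z) = ((θ z : ℂˣ) : ℂ) * f h

theorem over_sum {H : Type} [Group H] (j : L →* H) (θ : π.ker →* ℂˣ) (T : Finset ι)
    {I : ι → H → ℂ} (hov : ∀ i ∈ T, Over j θ (I i)) (w : ι → ℂ) :
    Over j θ (fun h => ∑ i ∈ T, w i * I i h) := by
  intro h z
  show ∑ i ∈ T, w i * I i (h * j z) = ((θ z : ℂˣ) : ℂ) * ∑ i ∈ T, w i * I i h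
  rw [Finset.mul_sum]
  refine Finset.sum_congr rfl fun i hi => ?_
  rw [hov i hi h z]
  ring

theorem over_theta {u : D ⋊[φ.comp π] L → ℂ} (θ : π.ker →* ℂˣ)
    (hu : Over (SemidirectProduct.inr : L →* D ⋊[φ.comp π] L) θ u) (l : D →* ℂˣ)
    (x : stab (φ.comp π) l) (z : π.ker.subgroupOf (stab (φ.comp π) l)) :
    theta (φ.comp π) l u (x * z) = ((thF φ θ l z : ℂˣ) : ℂ) * theta (φ.comp π) l u x := by
  unfold theta
  rw [Finset.mul_sum]
  refine Finset.sum_congr rfl fun d _ => ?_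
  have h1 := hu ⟨d, (x : L)⟩ ⟨((z : stab (φ.comp π) l) : L), Subgroup.mem_subgroupOf.mp z.2⟩
  have h2 : (⟨d, (x : L)⟩ : D ⋊[φ.comp π] L) *
      SemidirectProduct.inr ((z : stab (φ.comp π) l) : L) =
      ⟨d, ((x * (z : stab (φ.comp π) l) : stab (φ.comp π) l) : L)⟩ := mk_mul_inr _ _ _
  rw [thF_apply, ← h2, h1]
  ring

/-- the main step: a sum which vanishes at `1` is zero -/
theorem core_zero [Fintype (D ⋊[φ.comp π] L)] (hφ : Function.Injective φ) {p : ℕ}
    (hp : p.Prime) (hD : IsPGroup p D) (hL : Nat.Coprime (Fintype.card L) p)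
    (hK : π.ker ≤ Subgroup.center L) (θ : π.ker →* ℂˣ) (hcond : Cond φ)
    {B : Finset ι} {I : ι → D ⋊[φ.comp π] L → ℂ} (hI : Set.InjOn I (B : Set ι))
    (hirr : ∀ i ∈ B, IsIrr (I i))
    (hov : ∀ i ∈ B, Over (SemidirectProduct.inr : L →* D ⋊[φ.comp π] L) θ (I i))
    (w : ι → ℂ) (a : ℕ) (τ : ℤ)
    (hf : VanSing p (fun h => ∑ i ∈ B, w i * I i h))
    (hint : ∀ x : L, ∃ z : ℂ, IsIntegral ℤ z ∧
      ∑ i ∈ B, w i * I i ⟨1, x⟩ = (p : ℂ) ^ a * z)
    (hone : ∑ i ∈ B, w i * I i 1 = (p : ℂ) ^ a * (τ : ℂ)) (hτ : ¬ (p : ℤ) ∣ τ)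
    {T : Finset ι} (hTB : T ⊆ B) (hT : VanSing p (fun h => ∑ i ∈ T, w i * I i h))
    (hT1 : ∑ i ∈ T, w i * I i 1 = 0) : ∀ i ∈ T, w i = 0 := by
  classical
  have hpa : ((p : ℂ) ^ a) ≠ 0 := pow_ne_zero _ (by exact_mod_cast hp.ne_zero)
  have hirrT : ∀ i ∈ T, IsIrr (I i) := fun i hi => hirr i (hTB hi)
  have hovT : ∀ i ∈ T, Over (SemidirectProduct.inr : L →* D ⋊[φ.comp π] L) θ (I i) :=
    fun i hi => hov i (hTB hi)
  have hIT : Set.InjOn I (T : Set ι) := hI.mono (by exact_mod_cast hTB)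
  have hfc : IsClass (fun h => ∑ i ∈ B, w i * I i h) := isClass_sum hirr w
  have hgc : IsClass (fun h => ∑ i ∈ T, w i * I i h) := isClass_sum hirrT w
  have huc : IsClass (idem T I) := isClass_sum hirrT (fun i => I i 1 / (Fintype.card _ : ℂ))
  have hfo := over_sum (SemidirectProduct.inr : L →* D ⋊[φ.comp π] L) θ B hov w
  have hgo := over_sum (SemidirectProduct.inr : L →* D ⋊[φ.comp π] L) θ T hovT w
  have huo := over_sum (SemidirectProduct.inr : L →* D ⋊[φ.comp π] L) θ T hovT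
    (fun i => I i 1 / (Fintype.card (D ⋊[φ.comp π] L) : ℂ))
  have hKp : ¬ p ∣ Nat.card π.ker := by
    intro h
    have h2 : p ∣ Fintype.card L := by
      rw [← Nat.card_eq_fintype_card]
      exact h.trans (Subgroup.card_subgroup_dvd_card _)
    have h3 := Nat.dvd_gcd h2 (dvd_refl p)
    rw [hL.gcd_eq_one] at h3
    exact hp.one_lt.ne' (Nat.dvd_one.mp h3)
  have key : ∀ n : ℕ, ∀ x : L, Nat.card (Dx (φ.comp π) x) = n →
      ∑ i ∈ T, w i * I i ⟨1, x⟩ = 0 := by
    intro n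
    induction n using Nat.strong_induction_on with
    | _ n ih =>
    intro x hx
    by_cases hx1 : π x = 1
    · have h1 : (⟨1, x⟩ : D ⋊[φ.comp π] L) = 1 * SemidirectProduct.inr x := by
        rw [one_mul]
        rfl
      have h2 : ∑ i ∈ T, w i * I i (1 * SemidirectProduct.inr x) =
        ((θ ⟨x, MonoidHom.mem_ker.mpr hx1⟩ : ℂˣ) : ℂ) * ∑ i ∈ T, w i * I i 1 :=
        hgo 1 ⟨x, MonoidHom.mem_ker.mpr hx1⟩
      rw [h1, h2, hT1, mul_zero]
    obtain ⟨l, hxl, hle, hlt⟩ := hcond (π x)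
    haveI : Fintype (stab (φ.comp π) l) := Fintype.ofFinite _
    have hegt : theta (φ.comp π) l (fun h => ∑ i ∈ T, w i * I i h) =
        conv (theta (φ.comp π) l (idem T I))
          (theta (φ.comp π) l (fun h => ∑ i ∈ B, w i * I i h)) := by
      rw [← theta_conv (φ.comp π) l huc hfc, idem_conv hTB hI hirr w]
    have hee : conv (theta (φ.comp π) l (idem T I)) (theta (φ.comp π) l (idem T I)) =
        theta (φ.comp π) l (idem T I) := by
      rw [← theta_conv (φ.comp π) l huc huc, idem_idem hIT hirrT]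
    obtain ⟨k, hk⟩ := card_Dx_pow (φ.comp π) hp hD x
    have hq : Nat.card (Dx (φ.comp π) x) = Nat.card (Dx φ (π x)) := rfl
    have he0 : theta (φ.comp π) l (idem T I) = 0 := by
      refine lemKz hp (center_stab (φ := φ) hK l) (thF φ θ l) ?_
        (fun y : stab (φ.comp π) l => Nat.card (Dx (φ.comp π) (y : L))) ?_ ?_ ?_ ?_
        (Nat.card (Dx (φ.comp π) x)) k (hk ▸ dvd_refl _) ?_
        (fun y => theta (φ.comp π) l (fun h => ∑ i ∈ B, w i * I i h) y / (p : ℂ) ^ a)
        (theta (φ.comp π) l (idem T I)) ?_ τ ?_ hτ (theta_class (φ.comp π) l huc) hee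
        (over_theta θ huo l) ?_ ?_
      · intro h
        apply hKp
        rw [← Nat.card_congr (Subgroup.subgroupOfEquivOfLe
          (ker_le_stab (φ := φ) (π := π) l)).toEquiv]
        exact h
      · intro y z
        exact card_Dx_mul (φ.comp π) (y : L) (z : L)
      · intro y
        exact card_Dx_inv (φ.comp π) (y : L)
      · intro y hy
        have h1 : π (y : L) = 1 := MonoidHom.mem_ker.mp (Subgroup.mem_subgroupOf.mp hy)
        have h2 : Nat.card (Dx (φ.comp π) (y : L)) = Nat.card (Dx φ (π (y : L))) := rfl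
        show Nat.card (Dx (φ.comp π) (y : L)) = 1
        rw [h2, h1]
        exact card_Dx_one φ
      · intro y hy
        refine dvd_card_Dx φ hp hD hφ (x := π (y : L)) ?_
        intro h
        exact hy (Subgroup.mem_subgroupOf.mpr (MonoidHom.mem_ker.mpr h))
      · intro h
        have h1 : p ∣ Nat.card (Dx φ (π x)) := dvd_card_Dx φ hp hD hφ hx1
        rw [← hq, h] at h1
        exact hp.one_lt.ne' (Nat.dvd_one.mp h1)
      · intro y
        obtain ⟨z, hz, hz2⟩ := hint (y : L)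
        refine ⟨z, hz, ?_⟩
        show theta (φ.comp π) l (fun h => ∑ i ∈ B, w i * I i h) y / (p : ℂ) ^ a = _
        rw [theta_reg (φ.comp π) hp hD hL l hfc hf y, hz2]
        field_simp
      · intro z
        have h0 := over_theta θ hfo l 1 z
        rw [one_mul] at h0
        show theta (φ.comp π) l (fun h => ∑ i ∈ B, w i * I i h) (z : stab (φ.comp π) l) /
          (p : ℂ) ^ a = _
        rw [h0, theta_reg (φ.comp π) hp hD hL l hfc hf 1]
        have h1 : Nat.card (Dx (φ.comp π) ((1 : stab (φ.comp π) l) : L)) = 1 :=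
          card_Dx_one (φ.comp π)
        rw [h1]
        have h2 : (⟨1, ((1 : stab (φ.comp π) l) : L)⟩ : D ⋊[φ.comp π] L) = 1 := rfl
        rw [h2]
        show (((thF φ θ l z : ℂˣ) : ℂ) * (((1 : ℕ) : ℂ) * ∑ i ∈ B, w i * I i 1)) /
          (p : ℂ) ^ a = _
        rw [hone]
        field_simp
        simp
      · intro y hy
        by_contra hne
        apply hy
        have h3 : Nat.card (Dx (φ.comp π) (y : L)) < n := by
          rw [← hx]
          have h4 : Dx (φ.comp π) (y : L) ≤ Dx (φ.comp π) x := hle (π (y : L)) y.2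
          exact lt_of_le_of_ne (Nat.card_le_card_of_injective _ (Subgroup.inclusion_injective h4))
            hne
        have h5 := ih _ h3 (y : L) rfl
        rw [conv_smul, ← hegt, theta_reg (φ.comp π) hp hD hL l hgc hT y]
        show (_ * ∑ i ∈ T, w i * I i ⟨1, (y : L)⟩) / _ = 0
        rw [h5]
        simp
      · rw [← Nat.card_eq_fintype_card]
        refine lt_of_le_of_lt (card_stab l) ?_
        rw [hq]
        exact Nat.mul_lt_mul_of_pos_right (hlt hx1) Nat.card_pos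
    rw [he0, conv_zero_left] at hegt
    have h6 := theta_reg (φ.comp π) hp hD hL l hgc hT ⟨x, hxl⟩
    rw [hegt] at h6
    have h7 : (Nat.card (Dx (φ.comp π) x) : ℂ) ≠ 0 := by
      exact_mod_cast (Nat.card_pos (α := Dx (φ.comp π) x)).ne'
    have h8 : (0 : ℂ) = (Nat.card (Dx (φ.comp π) x) : ℂ) * ∑ i ∈ T, w i * I i ⟨1, x⟩ := h6
    rcases mul_eq_zero.mp h8.symm with h | h
    · exact absurd h h7
    · exact h
  have hg0 : (fun h => ∑ i ∈ T, w i * I i h) = 0 :=
    eq_zero_of_one (φ.comp π) hp hD hL hgc hT fun x => key _ x rfl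
  intro j hj
  have h1 := orth_sum hIT hirrT w hj
  have h2 : ∑ h : D ⋊[φ.comp π] L, (∑ i ∈ T, w i * I i h) * I j h⁻¹ = 0 := by
    refine Finset.sum_eq_zero fun h _ => ?_
    have h3 := congrFun hg0 h
    simp only [Pi.zero_apply] at h3
    rw [h3, zero_mul]
  rw [h2] at h1
  rcases mul_eq_zero.mp h1.symm with h | h
  · exact h
  · exact absurd h core_card

/-- the value at `1` -/
theorem core_dich [Fintype (D ⋊[φ.comp π] L)] (hφ : Function.Injective φ) {p : ℕ} (hp : p.Prime)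
    (hD : IsPGroup p D) (hL : Nat.Coprime (Fintype.card L) p) (θ : π.ker →* ℂˣ)
    (hcond : Cond φ)
    {B : Finset ι} {I : ι → D ⋊[φ.comp π] L → ℂ} (hI : Set.InjOn I (B : Set ι))
    (hirr : ∀ i ∈ B, IsIrr (I i))
    (hov : ∀ i ∈ B, Over (SemidirectProduct.inr : L →* D ⋊[φ.comp π] L) θ (I i))
    (w : ι → ℂ)
    (hf : VanSing p (fun h => ∑ i ∈ B, w i * I i h))
    {T : Finset ι} (hTB : T ⊆ B) (hT : VanSing p (fun h => ∑ i ∈ T, w i * I i h)) :
    ∑ i ∈ T, w i * I i 1 = 0 ∨ ∑ i ∈ T, w i * I i 1 = ∑ i ∈ B, w i * I i 1 := by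
  classical
  have hirrT : ∀ i ∈ T, IsIrr (I i) := fun i hi => hirr i (hTB hi)
  have hovT : ∀ i ∈ T, Over (SemidirectProduct.inr : L →* D ⋊[φ.comp π] L) θ (I i) :=
    fun i hi => hov i (hTB hi)
  have hIT : Set.InjOn I (T : Set ι) := hI.mono (by exact_mod_cast hTB)
  have hfc : IsClass (fun h => ∑ i ∈ B, w i * I i h) := isClass_sum hirr w
  have hgc : IsClass (fun h => ∑ i ∈ T, w i * I i h) := isClass_sum hirrT w
  have huc : IsClass (idem T I) := isClass_sum hirrT (fun i => I i 1 / (Fintype.card _ : ℂ))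
  have hfo := over_sum (SemidirectProduct.inr : L →* D ⋊[φ.comp π] L) θ B hov w
  have huo := over_sum (SemidirectProduct.inr : L →* D ⋊[φ.comp π] L) θ T hovT
    (fun i => I i 1 / (Fintype.card (D ⋊[φ.comp π] L) : ℂ))
  obtain ⟨l, -, hle, -⟩ := hcond 1
  have htriv : ∀ y : stab (φ.comp π) l, y ∈ π.ker.subgroupOf (stab (φ.comp π) l) := by
    intro y
    rw [Subgroup.mem_subgroupOf, MonoidHom.mem_ker]
    by_contra hy
    have h1 := hle (π (y : L)) y.2
    have h2 : Nat.card (Dx φ (π (y : L))) ≤ Nat.card (Dx φ (1 : E)) :=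
      Nat.card_le_card_of_injective _ (Subgroup.inclusion_injective h1)
    rw [card_Dx_one] at h2
    have h3 : p ∣ Nat.card (Dx φ (π (y : L))) := dvd_card_Dx φ hp hD hφ hy
    have h4 : 0 < Nat.card (Dx φ (π (y : L))) := Nat.card_pos
    have h5 : Nat.card (Dx φ (π (y : L))) = 1 := by omega
    rw [h5] at h3
    exact hp.one_lt.ne' (Nat.dvd_one.mp h3)
  letI : Fintype (stab (φ.comp π) l) := Fintype.ofFinite _
  have hegt : theta (φ.comp π) l (fun h => ∑ i ∈ T, w i * I i h) =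
      conv (theta (φ.comp π) l (idem T I))
        (theta (φ.comp π) l (fun h => ∑ i ∈ B, w i * I i h)) := by
    rw [← theta_conv (φ.comp π) l huc hfc, idem_conv hTB hI hirr w]
  have hee : conv (theta (φ.comp π) l (idem T I)) (theta (φ.comp π) l (idem T I)) =
      theta (φ.comp π) l (idem T I) := by
    rw [← theta_conv (φ.comp π) l huc huc, idem_idem hIT hirrT]
  have hc1 : ∀ v : stab (φ.comp π) l → ℂ,
      (∀ z : π.ker.subgroupOf (stab (φ.comp π) l), v z = ((thF φ θ l z : ℂˣ) : ℂ) * v 1) →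
      conv (theta (φ.comp π) l (idem T I)) v 1 =
        (Fintype.card (stab (φ.comp π) l) : ℂ) * theta (φ.comp π) l (idem T I) 1 * v 1 := by
    intro v hv
    have h0 : ∀ k : stab (φ.comp π) l, theta (φ.comp π) l (idem T I) k * v (k⁻¹ * 1) =
        theta (φ.comp π) l (idem T I) 1 * v 1 := by
      intro k
      have h1 := over_theta θ huo l 1 ⟨k, htriv k⟩
      have h2 := hv (⟨k, htriv k⟩⁻¹ : π.ker.subgroupOf (stab (φ.comp π) l))
      rw [one_mul] at h1
      have h3 : theta (φ.comp π) l (idem T I) k =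
          ((thF φ θ l ⟨k, htriv k⟩ : ℂˣ) : ℂ) * theta (φ.comp π) l (idem T I) 1 := h1
      have h4 : v k⁻¹ = ((thF φ θ l ⟨k, htriv k⟩ : ℂˣ) : ℂ)⁻¹ * v 1 := by
        rw [map_inv, Units.val_inv_eq_inv_val] at h2
        exact h2
      have h5 : ((thF φ θ l ⟨k, htriv k⟩ : ℂˣ) : ℂ) ≠ 0 := Units.ne_zero _
      rw [mul_one, h3, h4]
      field_simp
    unfold conv
    simp only [h0, Finset.sum_const, nsmul_eq_mul, Finset.card_univ]
    ring
  have h1 := congrFun hegt 1
  have h2 := congrFun hee 1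
  have ho1 : ∀ z : π.ker.subgroupOf (stab (φ.comp π) l),
      theta (φ.comp π) l (fun h => ∑ i ∈ B, w i * I i h) z =
        ((thF φ θ l z : ℂˣ) : ℂ) *
          theta (φ.comp π) l (fun h => ∑ i ∈ B, w i * I i h) 1 := by
    intro z
    have := over_theta θ hfo l 1 z
    rwa [one_mul] at this
  have ho2 : ∀ z : π.ker.subgroupOf (stab (φ.comp π) l),
      theta (φ.comp π) l (idem T I) z =
        ((thF φ θ l z : ℂˣ) : ℂ) * theta (φ.comp π) l (idem T I) 1 := by
    intro z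
    have := over_theta θ huo l 1 z
    rw [one_mul] at this
    exact this
  rw [hc1 _ ho1] at h1
  rw [hc1 _ ho2] at h2
  rw [theta_reg (φ.comp π) hp hD hL l hgc hT 1, theta_reg (φ.comp π) hp hD hL l hfc hf 1] at h1
  have h3 : Nat.card (Dx (φ.comp π) ((1 : stab (φ.comp π) l) : L)) = 1 :=
    card_Dx_one (φ.comp π)
  have h4 : (⟨1, ((1 : stab (φ.comp π) l) : L)⟩ : D ⋊[φ.comp π] L) = 1 := rfl
  rw [h3, h4] at h1
  set n := (Fintype.card (stab (φ.comp π) l) : ℂ) with hn
  have h5 : n * theta (φ.comp π) l (idem T I) 1 = 0 ∨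
      n * theta (φ.comp π) l (idem T I) 1 = 1 := by
    by_cases h6 : theta (φ.comp π) l (idem T I) 1 = 0
    · left
      rw [h6, mul_zero]
    · right
      exact mul_right_cancel₀ h6 (by rw [h2, one_mul])
  rcases h5 with h | h
  · left
    rw [h] at h1
    simpa using h1
  · right
    rw [h] at h1
    simpa using h1

/-- the local theorem -/
theorem core [Fintype (D ⋊[φ.comp π] L)] (hφ : Function.Injective φ) {p : ℕ} (hp : p.Prime)
    (hD : IsPGroup p D) (hL : Nat.Coprime (Fintype.card L) p)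
    (hK : π.ker ≤ Subgroup.center L) (θ : π.ker →* ℂˣ) (hcond : Cond φ)
    {B : Finset ι} {I : ι → D ⋊[φ.comp π] L → ℂ} (hI : Set.InjOn I (B : Set ι))
    (hirr : ∀ i ∈ B, IsIrr (I i))
    (hov : ∀ i ∈ B, Over (SemidirectProduct.inr : L →* D ⋊[φ.comp π] L) θ (I i))
    (w : ι → ℂ) (a : ℕ) (τ : ℤ)
    (hf : VanSing p (fun h => ∑ i ∈ B, w i * I i h))
    (hint : ∀ x : L, ∃ z : ℂ, IsIntegral ℤ z ∧
      ∑ i ∈ B, w i * I i ⟨1, x⟩ = (p : ℂ) ^ a * z)
    (hone : ∑ i ∈ B, w i * I i 1 = (p : ℂ) ^ a * (τ : ℂ)) (hτ : ¬ (p : ℤ) ∣ τ)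
    (hw : ∀ i ∈ B, w i ≠ 0)
    {T : Finset ι} (hTB : T ⊆ B) (hT : VanSing p (fun h => ∑ i ∈ T, w i * I i h))
    (hne : T.Nonempty) : T = B := by
  classical
  rcases core_dich hφ hp hD hL θ hcond hI hirr hov w hf hTB hT with h | h
  · obtain ⟨i, hi⟩ := hne
    exact absurd (core_zero hφ hp hD hL hK θ hcond hI hirr hov w a τ hf hint hone hτ hTB hT h
      i hi) (hw i (hTB hi))
  · have hsd : ∀ h : D ⋊[φ.comp π] L, ∑ i ∈ B \ T, w i * I i h =
        ∑ i ∈ B, w i * I i h - ∑ i ∈ T, w i * I i h := by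
      intro h
      rw [← Finset.sum_sdiff hTB]
      ring
    have hT' : VanSing p (fun h => ∑ i ∈ B \ T, w i * I i h) := by
      intro h hh
      show ∑ i ∈ B \ T, w i * I i h = 0
      have e1 : ∑ i ∈ B, w i * I i h = 0 := hf h hh
      have e2 : ∑ i ∈ T, w i * I i h = 0 := hT h hh
      rw [hsd, e1, e2, sub_zero]
    have hT1' : ∑ i ∈ B \ T, w i * I i 1 = 0 := by
      rw [hsd, h, sub_self]
    have h9 := core_zero hφ hp hD hL hK θ hcond hI hirr hov w a τ hf hint hone hτ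
      Finset.sdiff_subset hT' hT1'
    refine Finset.Subset.antisymm hTB fun i hi => ?_
    by_contra hiT
    exact hw i hi (h9 i (Finset.mem_sdiff.mpr ⟨hi, hiT⟩))

end

end Pool.Agent.Har
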