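import Mathlib
import Pool.Agent.W_02e251_h65.Defs
import Pool.Agent.W_02e251_h65.CharA
import Pool.Agent.W_02e251_h65.CharB
import Pool.Agent.W_02e251_h65.Blk
import Pool.Agent.W_02e251_h65.ThetaA
import Pool.Agent.W_02e251_h65.ThetaB
import Pool.Agent.W_02e251_h65.Core

/-!
The main theorem.
-/

set_option autoImplicit false

open Pool.Agent.Har

namespace Pool.Agent.Har

/-- a rational number which is an algebraic integer is an integer -/
theorem int_of_integral {N m : ℤ} (hm : m ≠ 0) {z : ℂ} (hz : IsIntegral ℤ z)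
    (h : (N : ℂ) = (m : ℂ) * z) : ∃ t : ℤ, N = m * t := by
  have hm' : (m : ℂ) ≠ 0 := by exact_mod_cast hm
  have h1 : z = algebraMap ℚ ℂ ((N : ℚ) / (m : ℚ)) := by
    rw [eq_ratCast]
    push_cast
    field_simp
    rw [h]
    ring
  rw [h1] at hz
  have h2 : IsIntegral ℤ ((N : ℚ) / (m : ℚ)) :=
    (isIntegral_algebraMap_iff (algebraMap ℚ ℂ).injective).mp hz
  obtain ⟨t, ht⟩ := IsIntegrallyClosed.isIntegral_iff.mp h2
  refine ⟨t, ?_⟩
  have hmq : (m : ℚ) ≠ 0 := by exact_mod_cast hm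
  have h3 : (t : ℚ) = (N : ℚ) / (m : ℚ) := by simpa using ht
  have h4 : (N : ℚ) = (m : ℚ) * (t : ℚ) := by
    rw [h3]
    field_simp
  exact_mod_cast h4

theorem alpha {G : Type} [Group G] [Fintype G] {H : Type} [Group H] [Fintype H] {p : ℕ}
    (hp : p.Prime) {B : Finset (G → ℂ)} (hB : ∀ χ ∈ B, IsIrr χ) {K : Subgroup H}
    (hK : K ≤ Subgroup.center H) (hKp : ¬ p ∣ Nat.card K) (θ : K →* ℂˣ) {I : (G → ℂ) → H → ℂ}
    {ε : (G → ℂ) → ℤˣ} (hI : Set.BijOn I (B : Set (G → ℂ)) {ψ : H → ℂ | IsIrr ψ ∧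
      ∀ x : H, ∀ z : K, ψ (x * z) = ((θ z : ℂˣ) : ℂ) * ψ x})
    (hL : ∀ x : (G → ℂ) → ℂ,
      VanSing p (fun h => ∑ χ ∈ B, x χ * ((ε χ : ℤ) : ℂ) * I χ h) →
        VanSing p (fun g => ∑ χ ∈ B, x χ * χ g))
    (h : H) (hh : ¬ p ∣ orderOf h) :
    ∃ z : ℂ, IsIntegral ℤ z ∧ ∑ χ ∈ B, (χ 1 * ((ε χ : ℤ) : ℂ)) * I χ h =
      (p : ℂ) ^ (padicValNat p (Fintype.card G)) * z := by
  classical
  have hee : ∀ χ : G → ℂ, ((ε χ : ℤ) : ℂ) * ((ε χ : ℤ) : ℂ) = 1 := by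
    intro χ
    rcases Int.units_eq_one_or (ε χ) with h | h <;> rw [h] <;> simp
  have hTh : VanSing p (fun g => ∑ χ ∈ B, (((ε χ : ℤ) : ℂ) * I χ h) * χ g) := by
    apply hL (fun χ => ((ε χ : ℤ) : ℂ) * I χ h)
    intro k hk
    have h1 : ∀ χ ∈ B, ((ε χ : ℤ) : ℂ) * I χ h * ((ε χ : ℤ) : ℂ) * I χ k = I χ h * I χ k := by
      intro χ _
      have := hee χ
      linear_combination (I χ h * I χ k) * this
    show ∑ χ ∈ B, ((ε χ : ℤ) : ℂ) * I χ h * ((ε χ : ℤ) : ℂ) * I χ k = 0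
    rw [Finset.sum_congr rfl h1]
    have h2 : ∑ ψ ∈ B.image I, ψ h * ψ k = 0 := by
      refine over_column hK θ (B.image I) ?_ h k ?_
      · intro ψ
        constructor
        · intro hψ
          obtain ⟨χ, hχ, rfl⟩ := Finset.mem_image.mp hψ
          exact hI.1 hχ
        · intro hψ
          obtain ⟨χ, hχ, rfl⟩ := hI.2.2 hψ
          exact Finset.mem_image_of_mem _ hχ
      · intro m hm hc
        obtain ⟨c, hc⟩ := isConj_iff.mp hc
        have h3 : orderOf h = orderOf m := by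
          rw [← orderOf_inv h, ← hc]
          exact orderOf_injective (MulAut.conj c).toMonoidHom (MulAut.conj c).injective m
        have h4 : Commute m (m⁻¹ * k) := (Subgroup.mem_center_iff.mp (hK hm) m)
        have h5 := h4.orderOf_mul_dvd_lcm
        rw [mul_inv_cancel_left] at h5
        have h6 : p ∣ Nat.lcm (orderOf m) (orderOf (m⁻¹ * k)) := hk.trans h5
        have h7 : p ∣ orderOf m * orderOf (m⁻¹ * k) := h6.trans (Nat.lcm_dvd_mul _ _)
        rcases hp.dvd_mul.mp h7 with h8 | h8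
        · exact hh (h3 ▸ h8)
        · apply hKp
          have h9 : orderOf (⟨m⁻¹ * k, hm⟩ : K) ∣ Nat.card K := orderOf_dvd_natCard _
          rw [← Subgroup.orderOf_coe] at h9
          exact h8.trans h9
    rw [Finset.sum_image hI.2.1] at h2
    exact h2
  let P : Sylow p G := default
  haveI : Fact p.Prime := ⟨hp⟩
  haveI : Fintype P := Fintype.ofFinite _
  have hcard : Fintype.card P = p ^ (padicValNat p (Fintype.card G)) := by
    rw [← Nat.card_eq_fintype_card, P.card_eq_multiplicity, Nat.card_eq_fintype_card,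
      Nat.factorization_def _ hp]
  have hav : ∀ χ : G → ℂ, ∃ m : ℕ, χ ∈ B →
      ∑ g : (P : Subgroup G), χ g = (Fintype.card P : ℂ) * m := by
    intro χ
    by_cases hχ : χ ∈ B
    · obtain ⟨m, hm⟩ := (hB χ hχ).average (P : Subgroup G)
      exact ⟨m, fun _ => hm⟩
    · exact ⟨0, fun h => absurd h hχ⟩
  choose m hm using hav
  have h1 : ∑ g : (P : Subgroup G), ∑ χ ∈ B, (((ε χ : ℤ) : ℂ) * I χ h) * χ g =
      ∑ χ ∈ B, (χ 1 * ((ε χ : ℤ) : ℂ)) * I χ h := by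
    rw [Finset.sum_eq_single 1]
    · refine Finset.sum_congr rfl fun χ _ => ?_
      rw [Subgroup.coe_one]
      ring
    · intro g _ hg
      apply hTh (g : G)
      obtain ⟨k, hk⟩ := (IsPGroup.iff_orderOf.mp P.isPGroup') g
      rw [Subgroup.orderOf_coe, hk]
      rcases Nat.eq_zero_or_pos k with h0 | h0
      · exfalso
        rw [h0, pow_zero, orderOf_eq_one_iff] at hk
        exact hg hk
      · exact dvd_pow_self p h0.ne'
    · intro h
      exact absurd (Finset.mem_univ _) h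
  refine ⟨∑ χ ∈ B, (((ε χ : ℤ) : ℂ) * I χ h) * m χ, ?_, ?_⟩
  · refine IsIntegral.sum _ fun χ hχ => ?_
    refine IsIntegral.mul (IsIntegral.mul ?_ ?_) ?_
    · exact isIntegral_algebraMap (R := ℤ) (A := ℂ) (x := (ε χ : ℤ))
    · exact (hI.1 hχ).1.integral h
    · have := isIntegral_algebraMap (R := ℤ) (A := ℂ) (x := (m χ : ℤ))
      simpa using this
  · rw [← h1, Finset.sum_comm]
    have h2 : ((p : ℂ) ^ (padicValNat p (Fintype.card G))) = (Fintype.card P : ℂ) := by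
      rw [hcard]
      push_cast
      rfl
    rw [h2, Finset.mul_sum]
    refine Finset.sum_congr rfl fun χ hχ => ?_
    rw [← Finset.mul_sum, hm χ hχ]
    ring

theorem main {G : Type} [Group G] [Fintype G] {D E L : Type} [CommGroup D] [Group E] [Group L]
    [Fintype D] [Fintype E] [Fintype L] (φ : E →* MulAut D) (hφ : Function.Injective φ)
    (π : L →* E) (hK : π.ker ≤ Subgroup.center L) (θ : π.ker →* ℂˣ) {p : ℕ} (hp : p.Prime)
    (hD : IsPGroup p D) (hLp : Nat.Coprime (Fintype.card L) p) (hcond : Cond φ)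
    (B : Finset (G → ℂ)) (hB : IsBlock p B) (I : (G → ℂ) → (D ⋊[φ.comp π] L → ℂ))
    (ε : (G → ℂ) → ℤˣ) (hI : Set.BijOn I (B : Set (G → ℂ)) {ψ | IsIrr ψ ∧
      ∀ h : D ⋊[φ.comp π] L, ∀ z : π.ker,
        ψ (h * SemidirectProduct.inr (z : L)) = ((θ z : ℂˣ) : ℂ) * ψ h})
    (hL : ∀ x : (G → ℂ) → ℂ, VanSing p (fun g => ∑ χ ∈ B, x χ * χ g) ↔
      VanSing p (fun h => ∑ χ ∈ B, x χ * ((ε χ : ℤ) : ℂ) * I χ h))
    (hdef : ∃ χ ∈ B, ∃ n : ℕ, χ 1 = (n : ℂ) ∧
      padicValNat p (n * Fintype.card D) ≤ padicValNat p (Fintype.card G))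
    (J : Finset (G → ℂ)) (hJ : J.Nonempty) (hJB : J ⊆ B)
    (hS : VanSing p (fun g => ∑ χ ∈ J, χ 1 * χ g)) : J = B := by
  classical
  haveI : Fintype (D ⋊[φ.comp π] L) := Fintype.ofEquiv _ SemidirectProduct.equivProd.symm
  haveI : Fact p.Prime := ⟨hp⟩
  have hirrG : ∀ χ ∈ B, IsIrr χ := fun χ hχ => hB.isIrr hχ
  have hirr : ∀ χ ∈ B, IsIrr (I χ) := fun χ hχ => (hI.1 hχ).1
  have hov : ∀ χ ∈ B, Over (SemidirectProduct.inr : L →* D ⋊[φ.comp π] L) θ (I χ) :=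
    fun χ hχ => (hI.1 hχ).2
  set a := padicValNat p (Fintype.card G) with ha
  have hpC : (p : ℂ) ≠ 0 := by exact_mod_cast hp.ne_zero
  -- the function `f` vanishes on the singular elements
  have hf : VanSing p (fun h => ∑ χ ∈ B, (χ 1 * ((ε χ : ℤ) : ℂ)) * I χ h) :=
    (hL (fun χ => χ 1)).mp (hB.vanSing hp)
  have hfJ : VanSing p (fun h => ∑ χ ∈ J, (χ 1 * ((ε χ : ℤ) : ℂ)) * I χ h) := by
    have h1 : VanSing p (fun g => ∑ χ ∈ B, (if χ ∈ J then χ 1 else 0) * χ g) := by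
      intro g hg
      have h2 : ∑ χ ∈ J, χ 1 * χ g = 0 := hS g hg
      show ∑ χ ∈ B, (if χ ∈ J then χ 1 else 0) * χ g = 0
      rw [← Finset.sum_subset hJB, ← h2]
      · refine Finset.sum_congr rfl fun χ hχ => ?_
        rw [if_pos hχ]
      · intro χ _ hχ
        rw [if_neg hχ, zero_mul]
    have h3 := (hL (fun χ => if χ ∈ J then χ 1 else 0)).mp h1
    intro h hh
    have h4 : ∑ χ ∈ B, (if χ ∈ J then χ 1 else 0) * ((ε χ : ℤ) : ℂ) * I χ h = 0 := h3 h hh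
    show ∑ χ ∈ J, (χ 1 * ((ε χ : ℤ) : ℂ)) * I χ h = 0
    rw [← h4, ← Finset.sum_subset hJB]
    · refine Finset.sum_congr rfl fun χ hχ => ?_
      rw [if_pos hχ]
    · intro χ _ hχ
      rw [if_neg hχ, zero_mul, zero_mul]
  -- the central subgroup of `D ⋊ L`
  have hinj : Function.Injective (SemidirectProduct.inr : L →* D ⋊[φ.comp π] L) :=
    SemidirectProduct.inr_injective
  set KH : Subgroup (D ⋊[φ.comp π] L) :=
    π.ker.map (SemidirectProduct.inr : L →* D ⋊[φ.comp π] L) with hKH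
  have hKHc : KH ≤ Subgroup.center (D ⋊[φ.comp π] L) := by
    rintro _ ⟨z, hz, rfl⟩
    rw [Subgroup.mem_center_iff]
    rintro ⟨d, x⟩
    have h1 : (φ.comp π) z = 1 := by
      rw [MonoidHom.comp_apply, MonoidHom.mem_ker.mp hz, map_one]
    have h2 := Subgroup.mem_center_iff.mp (hK hz) x
    rw [mk_mul_inr]
    ext
    · simp only [SemidirectProduct.mul_left, SemidirectProduct.left_inr,
        SemidirectProduct.right_inr, one_mul]
      rw [h1, MulAut.one_apply]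
    · simp only [SemidirectProduct.mul_right, SemidirectProduct.right_inr]
      exact h2
  have hcK : Nat.card KH = Nat.card π.ker :=
    (Nat.card_congr (Subgroup.equivMapOfInjective π.ker _ hinj).toEquiv).symm
  have hKHp : ¬ p ∣ Nat.card KH := by
    intro h
    rw [hcK] at h
    have h2 : p ∣ Fintype.card L := by
      rw [← Nat.card_eq_fintype_card]
      exact h.trans (Subgroup.card_subgroup_dvd_card _)
    have h3 := Nat.dvd_gcd h2 (dvd_refl p)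
    rw [hLp.gcd_eq_one] at h3
    exact hp.one_lt.ne' (Nat.dvd_one.mp h3)
  set θH : KH →* ℂˣ :=
    θ.comp (Subgroup.equivMapOfInjective π.ker _ hinj).symm.toMonoidHom with hθH
  have hset : {ψ : D ⋊[φ.comp π] L → ℂ | IsIrr ψ ∧ ∀ h : D ⋊[φ.comp π] L, ∀ z : π.ker,
        ψ (h * SemidirectProduct.inr (z : L)) = ((θ z : ℂˣ) : ℂ) * ψ h} =
      {ψ : D ⋊[φ.comp π] L → ℂ | IsIrr ψ ∧ ∀ x : D ⋊[φ.comp π] L, ∀ z : KH,
        ψ (x * z) = ((θH z : ℂˣ) : ℂ) * ψ x} := by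
    ext ψ
    simp only [Set.mem_setOf_eq]
    refine and_congr_right fun _ => ⟨fun h x z => ?_, fun h x z => ?_⟩
    · obtain ⟨y, rfl⟩ := (Subgroup.equivMapOfInjective π.ker _ hinj).surjective z
      have h1 := h x y
      have h2 : θH (Subgroup.equivMapOfInjective π.ker _ hinj y) = θ y := by
        rw [hθH, MonoidHom.comp_apply]
        congr 1
        exact (Subgroup.equivMapOfInjective π.ker _ hinj).symm_apply_apply y
      rw [h2]
      exact h1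
    · have h1 := h x (Subgroup.equivMapOfInjective π.ker _ hinj z)
      have h2 : θH (Subgroup.equivMapOfInjective π.ker _ hinj z) = θ z := by
        rw [hθH, MonoidHom.comp_apply]
        congr 1
        exact (Subgroup.equivMapOfInjective π.ker _ hinj).symm_apply_apply z
      rw [h2] at h1
      exact h1
  have hI' := hI
  rw [hset] at hI'
  -- integrality
  have hpreg : ∀ x : L, ¬ p ∣ orderOf (⟨1, x⟩ : D ⋊[φ.comp π] L) := by
    intro x h
    have h1 : orderOf (⟨1, x⟩ : D ⋊[φ.comp π] L) = orderOf x :=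
      orderOf_injective (SemidirectProduct.inr : L →* D ⋊[φ.comp π] L) hinj x
    rw [h1] at h
    have h2 : p ∣ Fintype.card L := h.trans orderOf_dvd_card
    have h3 := Nat.dvd_gcd h2 (dvd_refl p)
    rw [hLp.gcd_eq_one] at h3
    exact hp.one_lt.ne' (Nat.dvd_one.mp h3)
  have hint : ∀ x : L, ∃ z : ℂ, IsIntegral ℤ z ∧
      ∑ χ ∈ B, (χ 1 * ((ε χ : ℤ) : ℂ)) * I χ ⟨1, x⟩ = (p : ℂ) ^ a * z :=
    fun x => alpha hp hirrG hKHc hKHp θH hI' (fun y => (hL y).mpr) _ (hpreg x)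
  -- the value at `1`
  have hdeg : ∀ χ : G → ℂ, ∃ n : ℕ, χ ∈ B → χ 1 = (n : ℂ) := by
    intro χ
    by_cases hχ : χ ∈ B
    · obtain ⟨n, _, hn⟩ := (hirrG χ hχ).degree
      exact ⟨n, fun _ => hn⟩
    · exact ⟨0, fun h => absurd h hχ⟩
  choose dg hdg using hdeg
  have hdegI : ∀ χ : G → ℂ, ∃ n : ℕ, χ ∈ B → I χ 1 = (n : ℂ) := by
    intro χ
    by_cases hχ : χ ∈ B
    · obtain ⟨n, _, hn⟩ := (hirr χ hχ).degree
      exact ⟨n, fun _ => hn⟩
    · exact ⟨0, fun h => absurd h hχ⟩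
  choose di hdi using hdegI
  have hN : ∑ χ ∈ B, (χ 1 * ((ε χ : ℤ) : ℂ)) * I χ 1 =
      ((∑ χ ∈ B, ((dg χ : ℤ) * (ε χ : ℤ)) * (di χ : ℤ) : ℤ) : ℂ) := by
    push_cast
    refine Finset.sum_congr rfl fun χ hχ => ?_
    rw [hdg χ hχ, hdi χ hχ]
  obtain ⟨z1, hz1, hz1'⟩ := hint 1
  have hone1 : (⟨1, 1⟩ : D ⋊[φ.comp π] L) = 1 := rfl
  rw [hone1, hN] at hz1'
  obtain ⟨τ, hτ⟩ := int_of_integral (m := (p : ℤ) ^ a) (pow_ne_zero _ (by exact_mod_cast hp.ne_zero))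
    hz1 (by rw [hz1']; push_cast; ring)
  have hone : ∑ χ ∈ B, (χ 1 * ((ε χ : ℤ) : ℂ)) * I χ 1 = (p : ℂ) ^ a * (τ : ℂ) := by
    rw [hN, hτ]
    push_cast
    ring
  have hfc : IsClass (fun h => ∑ χ ∈ B, (χ 1 * ((ε χ : ℤ) : ℂ)) * I χ h) :=
    isClass_sum hirr (fun χ => χ 1 * ((ε χ : ℤ) : ℂ))
  have hfo := over_sum (SemidirectProduct.inr : L →* D ⋊[φ.comp π] L) θ B hov
    (fun χ => χ 1 * ((ε χ : ℤ) : ℂ))
  have hpτ : ¬ (p : ℤ) ∣ τ := by
    rintro ⟨s, hs⟩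
    obtain ⟨χ, hχ, n, hn, hle⟩ := hdef
    have hn0 : 0 < n := by
      obtain ⟨n', hn', hn''⟩ := (hirrG χ hχ).degree
      rw [hn] at hn''
      have : n = n' := by exact_mod_cast hn''
      omega
    have h1 := orth_sum hI.2.1 hirr (fun χ => χ 1 * ((ε χ : ℤ) : ℂ)) hχ
    have hc2 : IsClass (fun h => (∑ i ∈ B, (i 1 * ((ε i : ℤ) : ℂ)) * I i h) * I χ h⁻¹) := by
      intro g h
      have e1 := hfc g h
      have e2 := (hirr χ hχ).isClass g⁻¹ h
      have e3 : (h * g * h⁻¹)⁻¹ = h * g⁻¹ * h⁻¹ := by group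
      show (∑ i ∈ B, (i 1 * ((ε i : ℤ) : ℂ)) * I i (h * g * h⁻¹)) * I χ (h * g * h⁻¹)⁻¹ = _
      rw [e3, e2]
      congr 1
    have hs2 : VanSing p
        (fun h => (∑ i ∈ B, (i 1 * ((ε i : ℤ) : ℂ)) * I i h) * I χ h⁻¹) := by
      intro h hh
      have e1 : ∑ i ∈ B, (i 1 * ((ε i : ℤ) : ℂ)) * I i h = 0 := hf h hh
      show (∑ i ∈ B, (i 1 * ((ε i : ℤ) : ℂ)) * I i h) * I χ h⁻¹ = 0
      rw [e1, zero_mul]
    have h3 := sum_reg (φ.comp π) hp hD hLp hc2 hs2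
    have h4 : ∀ x : L, ∃ z : ℂ, IsIntegral ℤ z ∧
        (Nat.card (Dx (φ.comp π) x) : ℂ) * ((∑ i ∈ B, (i 1 * ((ε i : ℤ) : ℂ)) * I i ⟨1, x⟩) *
          I χ (⟨1, x⟩ : D ⋊[φ.comp π] L)⁻¹) = (p : ℂ) ^ (a + 1) * z := by
      intro x
      have hi2 : IsIntegral ℤ (I χ (⟨1, x⟩ : D ⋊[φ.comp π] L)⁻¹) := (hirr χ hχ).integral _
      by_cases hx : π x = 1
      · have e1 : (⟨1, x⟩ : D ⋊[φ.comp π] L) = 1 * SemidirectProduct.inr x := by
          rw [one_mul]
          rfl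
        have e2 : ∑ i ∈ B, (i 1 * ((ε i : ℤ) : ℂ)) * I i (1 * SemidirectProduct.inr x) =
            ((θ ⟨x, MonoidHom.mem_ker.mpr hx⟩ : ℂˣ) : ℂ) *
              ∑ i ∈ B, (i 1 * ((ε i : ℤ) : ℂ)) * I i 1 :=
          hfo 1 ⟨x, MonoidHom.mem_ker.mpr hx⟩
        have e3 : Nat.card (Dx (φ.comp π) x) = 1 := by
          have e4 : Nat.card (Dx (φ.comp π) x) = Nat.card (Dx φ (π x)) := rfl
          rw [e4, hx]
          exact card_Dx_one φ
        have e5 : IsIntegral ℤ ((θ ⟨x, MonoidHom.mem_ker.mpr hx⟩ : ℂˣ) : ℂ) := by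
          have e6 : ((θ ⟨x, MonoidHom.mem_ker.mpr hx⟩ : ℂˣ) : ℂ) ^ (Nat.card π.ker) = 1 := by
            rw [← Units.val_pow_eq_pow_val, ← map_pow, pow_card_eq_one', map_one, Units.val_one]
          exact IsIntegral.of_pow (n := Nat.card π.ker) Nat.card_pos (e6 ▸ isIntegral_one)
        refine ⟨((θ ⟨x, MonoidHom.mem_ker.mpr hx⟩ : ℂˣ) : ℂ) *
          ((s : ℂ) * I χ (⟨1, x⟩ : D ⋊[φ.comp π] L)⁻¹), e5.mul (IsIntegral.mul ?_ hi2), ?_⟩
        · exact isIntegral_algebraMap (R := ℤ) (A := ℂ) (x := s)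
        · rw [e3]
          have e7 : ∑ i ∈ B, (i 1 * ((ε i : ℤ) : ℂ)) * I i (⟨1, x⟩ : D ⋊[φ.comp π] L) =
              ((θ ⟨x, MonoidHom.mem_ker.mpr hx⟩ : ℂˣ) : ℂ) * ((p : ℂ) ^ a * (τ : ℂ)) := by
            rw [← hone, ← e2, ← e1]
          rw [e7, hs]
          push_cast
          ring
      · obtain ⟨z, hz, hz'⟩ := hint x
        obtain ⟨c, hc⟩ := dvd_card_Dx φ hp hD hφ hx
        refine ⟨(c : ℂ) * (z * I χ (⟨1, x⟩ : D ⋊[φ.comp π] L)⁻¹), IsIntegral.mul ?_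
          (IsIntegral.mul hz hi2), ?_⟩
        · have := isIntegral_algebraMap (R := ℤ) (A := ℂ) (x := (c : ℤ))
          simpa using this
        · have e4 : Nat.card (Dx (φ.comp π) x) = Nat.card (Dx φ (π x)) := rfl
          rw [hz', e4, hc]
          push_cast
          ring
    choose z hz hz' using h4
    have h5 : (n : ℂ) * ((ε χ : ℤ) : ℂ) * (Fintype.card (D ⋊[φ.comp π] L) : ℂ) =
        (p : ℂ) ^ (a + 1) * ∑ x : L, z x := by
      have h6 : (χ 1 * ((ε χ : ℤ) : ℂ)) * (Fintype.card (D ⋊[φ.comp π] L) : ℂ) =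
          ∑ x : L, (Nat.card (Dx (φ.comp π) x) : ℂ) *
            ((∑ i ∈ B, (i 1 * ((ε i : ℤ) : ℂ)) * I i ⟨1, x⟩) *
              I χ (⟨1, x⟩ : D ⋊[φ.comp π] L)⁻¹) := by
        rw [← h3, ← h1]
      rw [← hn, h6, Finset.mul_sum]
      exact Finset.sum_congr rfl fun x _ => hz' x
    have hcardH : Fintype.card (D ⋊[φ.comp π] L) = Fintype.card D * Fintype.card L := by
      rw [← Fintype.card_prod]
      exact Fintype.card_congr SemidirectProduct.equivProd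
    obtain ⟨t, ht⟩ := int_of_integral
      (N := (n : ℤ) * (ε χ : ℤ) * ((Fintype.card D * Fintype.card L : ℕ) : ℤ))
      (m := (p : ℤ) ^ (a + 1)) (pow_ne_zero _ (by exact_mod_cast hp.ne_zero))
      (IsIntegral.sum _ fun x _ => hz x) (by
        rw [hcardH] at h5
        push_cast at h5 ⊢
        exact h5)
    have h7 : (p : ℤ) ^ (a + 1) ∣ ((n * Fintype.card D * Fintype.card L : ℕ) : ℤ) := by
      rcases Int.units_eq_one_or (ε χ) with h | h
      · rw [h] at ht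
        refine ⟨t, ?_⟩
        rw [← ht]
        push_cast
        ring
      · rw [h] at ht
        refine ⟨-t, ?_⟩
        rw [mul_neg, ← ht]
        push_cast
        ring
    have h8 : p ^ (a + 1) ∣ n * Fintype.card D * Fintype.card L := by
      have : ((p ^ (a + 1) : ℕ) : ℤ) ∣ ((n * Fintype.card D * Fintype.card L : ℕ) : ℤ) := by
        push_cast
        push_cast at h7
        exact h7
      exact_mod_cast this
    have h9 : p ^ (a + 1) ∣ n * Fintype.card D :=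
      Nat.Coprime.dvd_of_dvd_mul_right (Nat.Coprime.pow_left _ hLp.symm) h8
    have h10 : n * Fintype.card D ≠ 0 := Nat.mul_ne_zero hn0.ne' Fintype.card_ne_zero
    have h11 := (padicValNat_dvd_iff_le h10).mp h9
    omega
  have hw : ∀ χ ∈ B, (fun χ : G → ℂ => χ 1 * ((ε χ : ℤ) : ℂ)) χ ≠ 0 := by
    intro χ hχ
    refine mul_ne_zero (core_ne_zero (hirrG χ hχ)) ?_
    rcases Int.units_eq_one_or (ε χ) with h | h <;> rw [h] <;> simp
  exact core hφ hp hD hLp hK θ hcond hI.2.1 hirr hov (fun χ => χ 1 * ((ε χ : ℤ) : ℂ)) a τ hf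
    hint hone hpτ hw hJB hfJ hJ

end Pool.Agent.Har
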