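import Mathlib
import Pool.Agent.W_02e251_h65.Defs
import Pool.Agent.W_02e251_h65.CharA
import Pool.Agent.W_02e251_h65.CharB
import Pool.Agent.W_02e251_h65.Blk
import Pool.Agent.W_02e251_h65.Over

/-!
Harada's conjecture for blocks with the degrees of the blocks with defect groups of maximal class.
-/

set_option autoImplicit false

open Pool.Agent.Har

namespace Pool.Agent.Har

variable {G : Type} [Group G] [Fintype G]

/-- the sum of the squares of the degrees of a subset which vanishes on the singular elements -/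
theorem norm_dvd {p : ℕ} (hp : p.Prime) {K : Finset (G → ℂ)} (hK : ∀ χ ∈ K, IsIrr χ)
    (hS : VanSing p (fun g => ∑ χ ∈ K, χ 1 * χ g)) (dg : (G → ℂ) → ℕ)
    (hdg : ∀ χ ∈ K, χ 1 = (dg χ : ℂ)) (s : ℕ) (hs : ∀ χ ∈ K, p ^ s ∣ dg χ) :
    p ^ (padicValNat p (Fintype.card G) + s) ∣ ∑ χ ∈ K, dg χ ^ 2 := by
  classical
  let P : Sylow p G := default
  haveI : Fact p.Prime := ⟨hp⟩
  haveI : Fintype P := Fintype.ofFinite _
  have hcard : Fintype.card P = p ^ (padicValNat p (Fintype.card G)) := by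
    rw [← Nat.card_eq_fintype_card, P.card_eq_multiplicity, Nat.card_eq_fintype_card,
      Nat.factorization_def _ hp]
  have hav : ∀ χ : G → ℂ, ∃ m : ℕ, χ ∈ K →
      ∑ g : (P : Subgroup G), χ g = (Fintype.card P : ℂ) * m := by
    intro χ
    by_cases hχ : χ ∈ K
    · obtain ⟨m, hm⟩ := (hK χ hχ).average (P : Subgroup G)
      exact ⟨m, fun _ => hm⟩
    · exact ⟨0, fun h => absurd h hχ⟩
  choose m hm using hav
  have h1 : ∑ g : (P : Subgroup G), ∑ χ ∈ K, χ 1 * χ g = ∑ χ ∈ K, χ 1 * χ 1 := by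
    rw [Finset.sum_eq_single 1]
    · rfl
    · intro g _ hg
      apply hS (g : G)
      obtain ⟨k, hk⟩ := (IsPGroup.iff_orderOf.mp P.isPGroup') g
      rw [Subgroup.orderOf_coe, hk]
      rcases Nat.eq_zero_or_pos k with h0 | h0
      · exfalso
        rw [h0, pow_zero, orderOf_eq_one_iff] at hk
        exact hg hk
      · exact dvd_pow_self p h0.ne'
    · intro h
      exact absurd (Finset.mem_univ _) h
  have h2 : ((∑ χ ∈ K, dg χ ^ 2 : ℕ) : ℂ) =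
      ((p ^ (padicValNat p (Fintype.card G)) * ∑ χ ∈ K, dg χ * m χ : ℕ) : ℂ) := by
    have h3 : ((∑ χ ∈ K, dg χ ^ 2 : ℕ) : ℂ) = ∑ χ ∈ K, χ 1 * χ 1 := by
      push_cast
      refine Finset.sum_congr rfl fun χ hχ => ?_
      rw [hdg χ hχ]
      ring
    rw [h3, ← h1, Finset.sum_comm, ← hcard]
    push_cast
    rw [Finset.mul_sum]
    refine Finset.sum_congr rfl fun χ hχ => ?_
    rw [← Finset.mul_sum, hm χ hχ, hdg χ hχ]
    ring
  have h4 : ∑ χ ∈ K, dg χ ^ 2 =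
      p ^ (padicValNat p (Fintype.card G)) * ∑ χ ∈ K, dg χ * m χ := by exact_mod_cast h2
  rw [h4, pow_add]
  exact Nat.mul_dvd_mul_left _ (Finset.dvd_sum fun χ hχ => (hs χ hχ).mul_right _)

theorem four_pow (n : ℕ) : (2 ^ 2 : ℕ) ^ n = 2 ^ n * 2 ^ n := by
  rw [← pow_mul, ← pow_add]
  congr 1
  ring

/-- the square of an odd number -/
theorem odd_sq {m : ℕ} (hm : ¬ 2 ∣ m) : m ^ 2 % 8 = 1 := by
  have h1 : m % 8 = 1 ∨ m % 8 = 3 ∨ m % 8 = 5 ∨ m % 8 = 7 := by omega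
  rcases h1 with h | h | h | h <;> rw [Nat.pow_mod, h]

theorem sum_odd_sq {ι : Type} (T : Finset ι) (m : ι → ℕ) (hm : ∀ i ∈ T, ¬ 2 ∣ m i) :
    (∑ i ∈ T, m i ^ 2) % 8 = T.card % 8 := by
  classical
  induction T using Finset.induction_on with
  | empty => simp
  | insert a T ha ih =>
    rw [Finset.sum_insert ha, Finset.card_insert_of_notMem ha]
    have h1 := odd_sq (hm a (Finset.mem_insert_self _ _))
    have h2 := ih fun i hi => hm i (Finset.mem_insert_of_mem hi)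
    omega

/-- degree factorization -/
theorem val_fac {n s : ℕ} (hn : n ≠ 0) (h : padicValNat 2 n = s) :
    ∃ m : ℕ, n = 2 ^ s * m ∧ ¬ 2 ∣ m := by
  haveI : Fact (Nat.Prime 2) := ⟨Nat.prime_two⟩
  obtain ⟨m, hm⟩ : 2 ^ s ∣ n := h ▸ pow_padicValNat_dvd
  refine ⟨m, hm, ?_⟩
  rintro ⟨k, hk⟩
  have h1 : 2 ^ (s + 1) ∣ n := ⟨k, by rw [hm, hk]; ring⟩
  have h2 := (padicValNat_dvd_iff_le hn).mp h1
  omega

theorem tame_main {B B0 B1 B2 : Finset (G → ℂ)} (hB : IsBlock 2 B) (dg : (G → ℂ) → ℕ)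
    (hdg : ∀ χ ∈ B, χ 1 = (dg χ : ℂ)) (e d : ℕ) (hd : 3 ≤ d)
    (hG : padicValNat 2 (Fintype.card G) = e + d)
    (hBu : ∀ χ : G → ℂ, χ ∈ B ↔ χ ∈ B0 ∨ χ ∈ B1 ∨ χ ∈ B2)
    (h0 : ∀ χ ∈ B0, padicValNat 2 (dg χ) = e) (h0c : B0.card = 4)
    (h1 : ∀ χ ∈ B1, padicValNat 2 (dg χ) = e + 1) (h1e : ∀ χ ∈ B1, ∀ ψ ∈ B1, dg χ = dg ψ)
    (h1c : B1.card < 2 ^ (d - 2))
    (h2 : ∀ χ ∈ B2, padicValNat 2 (dg χ) = e + (d - 2)) (h2c : B2.card ≤ 2)
    (J : Finset (G → ℂ)) (hJ : J.Nonempty) (hJB : J ⊆ B)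
    (hJS : VanSing 2 (fun g => ∑ χ ∈ J, χ 1 * χ g)) : J = B := by
  classical
  have hp : Nat.Prime 2 := Nat.prime_two
  have hirr : ∀ χ ∈ B, IsIrr χ := fun χ h => hB.isIrr h
  have hpos : ∀ χ ∈ B, dg χ ≠ 0 := by
    intro χ hχ h
    have h3 := core_ne_zero (hirr χ hχ)
    rw [hdg χ hχ, h] at h3
    simp at h3
  have hb0 : ∀ χ ∈ B0, χ ∈ B := fun χ h => (hBu χ).mpr (Or.inl h)
  have hb1 : ∀ χ ∈ B1, χ ∈ B := fun χ h => (hBu χ).mpr (Or.inr (Or.inl h))
  have hb2 : ∀ χ ∈ B2, χ ∈ B := fun χ h => (hBu χ).mpr (Or.inr (Or.inr h))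
  have hf0 : ∀ χ : G → ℂ, ∃ m : ℕ, χ ∈ B0 → dg χ = 2 ^ e * m ∧ ¬ 2 ∣ m := by
    intro χ
    by_cases h : χ ∈ B0
    · obtain ⟨m, hm⟩ := val_fac (hpos χ (hb0 χ h)) (h0 χ h)
      exact ⟨m, fun _ => hm⟩
    · exact ⟨0, fun h' => absurd h' h⟩
  choose m0 hm0 using hf0
  have hf1 : ∀ χ : G → ℂ, ∃ m : ℕ, χ ∈ B1 → dg χ = 2 ^ (e + 1) * m ∧ ¬ 2 ∣ m := by
    intro χ
    by_cases h : χ ∈ B1
    · obtain ⟨m, hm⟩ := val_fac (hpos χ (hb1 χ h)) (h1 χ h)
      exact ⟨m, fun _ => hm⟩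
    · exact ⟨0, fun h' => absurd h' h⟩
  choose m1 hm1 using hf1
  have hf2 : ∀ χ : G → ℂ, ∃ m : ℕ, χ ∈ B2 → dg χ = 2 ^ (e + (d - 2)) * m ∧ ¬ 2 ∣ m := by
    intro χ
    by_cases h : χ ∈ B2
    · obtain ⟨m, hm⟩ := val_fac (hpos χ (hb2 χ h)) (h2 χ h)
      exact ⟨m, fun _ => hm⟩
    · exact ⟨0, fun h' => absurd h' h⟩
  choose m2 hm2 using hf2
  -- a subset without characters in `B0` is empty
  have key : ∀ K : Finset (G → ℂ), K ⊆ B → VanSing 2 (fun g => ∑ χ ∈ K, χ 1 * χ g) →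
      (∀ χ ∈ K, χ ∉ B0) → K = ∅ := by
    intro K hKB hKS hK0
    have hKirr : ∀ χ ∈ K, IsIrr χ := fun χ h => hirr χ (hKB h)
    have hK12 : ∀ χ ∈ K, χ ∈ B1 ∨ χ ∈ B2 := by
      intro χ hχ
      rcases (hBu χ).mp (hKB hχ) with h | h
      · exact absurd h (hK0 χ hχ)
      · exact h
    set K1 := K.filter (fun χ => χ ∈ B1) with hK1
    set K2 := K.filter (fun χ => χ ∉ B1) with hK2
    have hK2B : ∀ χ ∈ K2, χ ∈ B2 := by
      intro χ hχ
      rw [hK2, Finset.mem_filter] at hχ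
      rcases hK12 χ hχ.1 with h | h
      · exact absurd h hχ.2
      · exact h
    have hK1B : ∀ χ ∈ K1, χ ∈ B1 := by
      intro χ hχ
      rw [hK1, Finset.mem_filter] at hχ
      exact hχ.2
    have hk1 : K1.card < 2 ^ (d - 2) :=
      lt_of_le_of_lt (Finset.card_le_card fun χ hχ => hK1B χ hχ) h1c
    have hk2 : K2.card ≤ 2 := (Finset.card_le_card fun χ hχ => hK2B χ hχ).trans h2c
    -- the sums
    have hs2 : ∑ χ ∈ K2, dg χ ^ 2 = 2 ^ (2 * e + 2) * (2 ^ (2 * (d - 3)) *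
        ∑ χ ∈ K2, m2 χ ^ 2) := by
      rw [Finset.mul_sum, Finset.mul_sum]
      refine Finset.sum_congr rfl fun χ hχ => ?_
      rw [(hm2 χ (hK2B χ hχ)).1]
      have h3 : e + (d - 2) = e + 1 + (d - 3) := by omega
      rw [h3, pow_add, pow_add, pow_mul 2 2 (d - 3), pow_add 2 (2 * e) 2, pow_mul 2 2 e]
      have h4 : ∀ n : ℕ, (2 ^ 2 : ℕ) ^ n = 2 ^ n * 2 ^ n := four_pow
      rw [h4, h4]
      ring
    have hs1 : ∃ m : ℕ, ¬ 2 ∣ m ∧ ∑ χ ∈ K1, dg χ ^ 2 = 2 ^ (2 * e + 2) * (K1.card * m ^ 2) := by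
      rcases K1.eq_empty_or_nonempty with h | ⟨χ₁, hχ₁⟩
      · exact ⟨1, by norm_num, by rw [h]; simp⟩
      · refine ⟨m1 χ₁, (hm1 χ₁ (hK1B _ hχ₁)).2, ?_⟩
        have h3 : ∀ χ ∈ K1, dg χ ^ 2 = 2 ^ (2 * e + 2) * m1 χ₁ ^ 2 := by
          intro χ hχ
          rw [h1e χ (hK1B χ hχ) χ₁ (hK1B _ hχ₁), (hm1 χ₁ (hK1B _ hχ₁)).1]
          rw [pow_add 2 (2 * e) 2, pow_mul 2 2 e, pow_add]
          have h4 : ∀ n : ℕ, (2 ^ 2 : ℕ) ^ n = 2 ^ n * 2 ^ n := four_pow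
          rw [h4]
          ring
        rw [Finset.sum_congr rfl h3, Finset.sum_const, smul_eq_mul]
        ring
    obtain ⟨m, hmo, hs1⟩ := hs1
    have hsum : ∑ χ ∈ K, dg χ ^ 2 = ∑ χ ∈ K1, dg χ ^ 2 + ∑ χ ∈ K2, dg χ ^ 2 := by
      rw [hK1, hK2, Finset.sum_filter_add_sum_filter_not]
    have hdiv1 : ∀ χ ∈ K, 2 ^ (e + 1) ∣ dg χ := by
      intro χ hχ
      rcases hK12 χ hχ with h | h
      · exact ⟨m1 χ, (hm1 χ h).1⟩
      · rw [(hm2 χ h).1]
        exact (pow_dvd_pow 2 (by omega)).mul_right _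
    have hA := norm_dvd hp hKirr hKS dg (fun χ h => hdg χ (hKB h)) (e + 1) hdiv1
    rw [hG, hsum, hs1, hs2, ← Nat.mul_add] at hA
    have h5 : 2 ^ (e + d + (e + 1)) = 2 ^ (2 * e + 2) * 2 ^ (d - 1) := by
      rw [← pow_add]
      congr 1
      omega
    rw [h5] at hA
    have hA' : 2 ^ (d - 1) ∣ K1.card * m ^ 2 + 2 ^ (2 * (d - 3)) * ∑ χ ∈ K2, m2 χ ^ 2 :=
      Nat.dvd_of_mul_dvd_mul_left (by positivity) hA
    have hm8 := odd_sq hmo
    have hm28 := sum_odd_sq K2 m2 (fun χ hχ => (hm2 χ (hK2B χ hχ)).2)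
    -- `K1` is empty for `4 ≤ d`, and everything is empty for `d = 3`
    rcases Nat.lt_or_ge d 4 with hd4 | hd4
    · have hd3 : d = 3 := by omega
      subst hd3
      have h6 : (4 : ℕ) ∣ K1.card * m ^ 2 + 1 * ∑ χ ∈ K2, m2 χ ^ 2 := by
        simpa using hA'
      have h7 : K1.card < 2 := by simpa using hk1
      have h8 : K1.card + K2.card = 0 := by
        have h9 : K1.card = 0 ∨ K1.card = 1 := by omega
        rcases h9 with h9 | h9 <;> rw [h9] at h6 ⊢ <;> omega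
      have h10 : K1.card + K2.card = K.card := by
        rw [hK1, hK2]
        exact Finset.card_filter_add_card_filter_not _
      exact Finset.card_eq_zero.mp (by omega)
    · have hk10 : K1.card = 0 := by
        rcases Nat.lt_or_ge d 5 with hd5 | hd5
        · have hd4' : d = 4 := by omega
          subst hd4'
          have h6 : (8 : ℕ) ∣ K1.card * m ^ 2 + 4 * ∑ χ ∈ K2, m2 χ ^ 2 := by
            simpa using hA'
          have h7 : K1.card < 4 := by simpa using hk1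
          have h9 : K1.card = 0 ∨ K1.card = 1 ∨ K1.card = 2 ∨ K1.card = 3 := by omega
          rcases h9 with h9 | h9 | h9 | h9
          · exact h9
          all_goals
            exfalso
            rw [h9] at h6
            omega
        · have h6 : 2 ^ (d - 1) ∣ 2 ^ (2 * (d - 3)) * ∑ χ ∈ K2, m2 χ ^ 2 :=
            (pow_dvd_pow 2 (by omega)).mul_right _
          have h7 : 2 ^ (d - 1) ∣ K1.card * m ^ 2 := (Nat.dvd_add_left h6).mp hA'
          have h8 : Nat.Coprime (2 ^ (d - 1)) (m ^ 2) :=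
            Nat.Coprime.pow _ _ ((Nat.Prime.coprime_iff_not_dvd hp).mpr hmo)
          have h9 : 2 ^ (d - 1) ∣ K1.card := h8.dvd_of_dvd_mul_right h7
          rcases Nat.eq_zero_or_pos K1.card with h10 | h10
          · exact h10
          · exfalso
            have h11 := Nat.le_of_dvd h10 h9
            have h12 : 2 ^ (d - 2) < 2 ^ (d - 1) :=
              Nat.pow_lt_pow_right (by norm_num) (by omega)
            omega
      have hK1e : K1 = ∅ := Finset.card_eq_zero.mp hk10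
      have hKB2 : ∀ χ ∈ K, χ ∈ B2 := by
        intro χ hχ
        rcases hK12 χ hχ with h | h
        · have : χ ∈ K1 := by
            rw [hK1, Finset.mem_filter]
            exact ⟨hχ, h⟩
          rw [hK1e] at this
          exact absurd this (Finset.notMem_empty _)
        · exact h
      have hdiv2 : ∀ χ ∈ K, 2 ^ (e + (d - 2)) ∣ dg χ := fun χ hχ =>
        ⟨m2 χ, (hm2 χ (hKB2 χ hχ)).1⟩
      have hC := norm_dvd hp hKirr hKS dg (fun χ h => hdg χ (hKB h)) (e + (d - 2)) hdiv2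
      rw [hG, hsum, hK1e, Finset.sum_empty, zero_add, hs2, ← mul_assoc, ← pow_add] at hC
      have h6 : 2 ^ (e + d + (e + (d - 2))) = 2 ^ (2 * e + 2 + 2 * (d - 3)) * 2 ^ 2 := by
        rw [← pow_add]
        congr 1
        omega
      rw [h6] at hC
      have hC' : 2 ^ 2 ∣ ∑ χ ∈ K2, m2 χ ^ 2 := Nat.dvd_of_mul_dvd_mul_left (by positivity) hC
      have hk20 : K2.card = 0 := by omega
      have h10 : K1.card + K2.card = K.card := by
        rw [hK1, hK2]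
        exact Finset.card_filter_add_card_filter_not _
      exact Finset.card_eq_zero.mp (by omega)
  -- the number of characters in `B0`
  have quad : ∀ K : Finset (G → ℂ), K ⊆ B → VanSing 2 (fun g => ∑ χ ∈ K, χ 1 * χ g) →
      4 ∣ (K.filter (fun χ => χ ∈ B0)).card := by
    intro K hKB hKS
    have hKirr : ∀ χ ∈ K, IsIrr χ := fun χ h => hirr χ (hKB h)
    set K0 := K.filter (fun χ => χ ∈ B0) with hK0
    set K3 := K.filter (fun χ => χ ∉ B0) with hK3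
    have hK0B : ∀ χ ∈ K0, χ ∈ B0 := by
      intro χ hχ
      rw [hK0, Finset.mem_filter] at hχ
      exact hχ.2
    have hdiv : ∀ χ ∈ K, 2 ^ e ∣ dg χ := by
      intro χ hχ
      rcases (hBu χ).mp (hKB hχ) with h | h | h
      · exact ⟨m0 χ, (hm0 χ h).1⟩
      · rw [(hm1 χ h).1]
        exact (pow_dvd_pow 2 (by omega)).mul_right _
      · rw [(hm2 χ h).1]
        exact (pow_dvd_pow 2 (by omega)).mul_right _
    have hA := norm_dvd hp hKirr hKS dg (fun χ h => hdg χ (hKB h)) e hdiv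
    have hsum : ∑ χ ∈ K, dg χ ^ 2 = ∑ χ ∈ K0, dg χ ^ 2 + ∑ χ ∈ K3, dg χ ^ 2 := by
      rw [hK0, hK3, Finset.sum_filter_add_sum_filter_not]
    have hs0 : ∑ χ ∈ K0, dg χ ^ 2 = 2 ^ (2 * e) * ∑ χ ∈ K0, m0 χ ^ 2 := by
      rw [Finset.mul_sum]
      refine Finset.sum_congr rfl fun χ hχ => ?_
      rw [(hm0 χ (hK0B χ hχ)).1, pow_mul 2 2 e]
      have h4 : ∀ n : ℕ, (2 ^ 2 : ℕ) ^ n = 2 ^ n * 2 ^ n := four_pow
      rw [h4]
      ring
    have hs3 : 2 ^ (2 * e) * 2 ^ 2 ∣ ∑ χ ∈ K3, dg χ ^ 2 := by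
      refine Finset.dvd_sum fun χ hχ => ?_
      have h6 : 2 ^ (e + 1) ∣ dg χ := by
        rw [hK3, Finset.mem_filter] at hχ
        rcases (hBu χ).mp (hKB hχ.1) with h | h | h
        · exact absurd h hχ.2
        · exact ⟨m1 χ, (hm1 χ h).1⟩
        · rw [(hm2 χ h).1]
          exact (pow_dvd_pow 2 (by omega)).mul_right _
      have h7 : 2 ^ (2 * e) * 2 ^ 2 = (2 ^ (e + 1)) ^ 2 := by
        rw [← pow_add, ← pow_mul]
        congr 1
        ring
      rw [h7]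
      exact pow_dvd_pow_of_dvd h6 2
    have h8 : 2 ^ (2 * e) * 2 ^ 2 ∣ 2 ^ (e + d + e) := by
      rw [← pow_add]
      exact pow_dvd_pow 2 (by omega)
    rw [hG] at hA
    have h9 : 2 ^ (2 * e) * 2 ^ 2 ∣ ∑ χ ∈ K0, dg χ ^ 2 := by
      have h10 := h8.trans hA
      rw [hsum] at h10
      exact (Nat.dvd_add_left hs3).mp h10
    rw [hs0] at h9
    have h11 : 2 ^ 2 ∣ ∑ χ ∈ K0, m0 χ ^ 2 := Nat.dvd_of_mul_dvd_mul_left (by positivity) h9
    have h12 := sum_odd_sq K0 m0 (fun χ hχ => (hm0 χ (hK0B χ hχ)).2)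
    omega
  have hJS' : VanSing 2 (fun g => ∑ χ ∈ B \ J, χ 1 * χ g) := by
    intro g hg
    have h3 : ∑ χ ∈ B, χ 1 * χ g = 0 := hB.vanSing hp g hg
    have h4 : ∑ χ ∈ J, χ 1 * χ g = 0 := hJS g hg
    show ∑ χ ∈ B \ J, χ 1 * χ g = 0
    rw [← Finset.sum_sdiff hJB, h4, add_zero] at h3
    exact h3
  have hq := quad J hJB hJS
  have hle : (J.filter (fun χ => χ ∈ B0)).card ≤ 4 := by
    rw [← h0c]
    refine Finset.card_le_card fun χ hχ => ?_
    exact (Finset.mem_filter.mp hχ).2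
  have hcase : (J.filter (fun χ => χ ∈ B0)).card = 0 ∨
      (J.filter (fun χ => χ ∈ B0)).card = 4 := by omega
  rcases hcase with h | h
  · exfalso
    have h3 : J = ∅ := by
      refine key J hJB hJS fun χ hχ hχ0 => ?_
      have h4 := Finset.card_eq_zero.mp h
      have h5 : χ ∈ J.filter (fun χ => χ ∈ B0) := Finset.mem_filter.mpr ⟨hχ, hχ0⟩
      rw [h4] at h5
      exact absurd h5 (Finset.notMem_empty _)
    rw [h3] at hJ
    exact Finset.not_nonempty_empty hJ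
  · have h3 : J.filter (fun χ => χ ∈ B0) = B0 :=
      Finset.eq_of_subset_of_card_le (fun χ hχ => (Finset.mem_filter.mp hχ).2) (by rw [h, h0c])
    have h4 : B \ J = ∅ := by
      refine key (B \ J) Finset.sdiff_subset hJS' fun χ hχ hχ0 => ?_
      rw [← h3] at hχ0
      exact (Finset.mem_sdiff.mp hχ).2 (Finset.mem_filter.mp hχ0).1
    exact Finset.Subset.antisymm hJB (Finset.sdiff_eq_empty_iff_subset.mp h4)

end Pool.Agent.Har
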