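import Mathlib
import Pool.Agent.W_02e251_h65.Defs
import Pool.Agent.W_02e251_h65.CharA
import Pool.Agent.W_02e251_h65.CharB
import Pool.Agent.W_02e251_h65.Blk
import Pool.Agent.W_02e251_h65.Over
import Pool.Agent.W_02e251_h65.Two
import Pool.Agent.W_02e251_h65.Exc

/-!
Harada's conjecture and the cone spanned by the restrictions of the characters of a block to the
`p`-regular elements.
-/

set_option autoImplicit false

open Pool.Agent.Har

namespace Pool.Agent.Har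

variable {G : Type} [Group G] [Fintype G]

/-- the cone of the restrictions `χ°` of the characters of `B` to the `p`-regular elements is
simplicial: the restrictions of the characters of some subset `X` of `B` are linearly independent
and every `χ°` is a combination of them with nonnegative coefficients -/
def SimplicialCone (p : ℕ) (B : Finset (G → ℂ)) : Prop :=
  ∃ X : Finset (G → ℂ), X ⊆ B ∧ LinearIndependent ℂ (fun ψ : X => pres p (ψ : G → ℂ)) ∧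
    ∀ χ ∈ B, ∃ c : (G → ℂ) → ℝ, (∀ ψ ∈ X, 0 ≤ c ψ) ∧
      pres p χ = fun g => ∑ ψ ∈ X, (c ψ : ℂ) * pres p ψ g

/-- `χ°` is a combination of the restrictions of the characters of `B` with nonnegative
coefficients in which `ψ` has a positive coefficient; in other words, `ψ°` lies in the smallest
face containing `χ°` of the cone of the restrictions -/
def PosRel (p : ℕ) (B : Finset (G → ℂ)) (χ ψ : G → ℂ) : Prop :=
  χ ∈ B ∧ ψ ∈ B ∧ ∃ c : (G → ℂ) → ℝ, (∀ ξ ∈ B, 0 ≤ c ξ) ∧ 0 < c ψ ∧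
    pres p χ = fun g => ∑ ξ ∈ B, (c ξ : ℂ) * pres p ξ g

theorem bil_pres {p : ℕ} {f : G → ℂ} (hf : VanSing p f) (u : G → ℂ) :
    bil f (pres p u) = bil f u := by
  unfold bil
  refine Finset.sum_congr rfl fun g _ => ?_
  unfold pres
  by_cases h : p ∣ orderOf g
  · rw [hf g h, zero_mul, zero_mul]
  · rw [if_neg (by rwa [orderOf_inv])]

theorem bil_comm (f g : G → ℂ) : bil f g = bil g f := by
  unfold bil
  refine Fintype.sum_equiv (Equiv.inv G) _ _ fun x => ?_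
  simp [mul_comm]

theorem vanSing_pres (p : ℕ) (f : G → ℂ) : VanSing p (pres p f) := by
  intro g hg
  unfold pres
  rw [if_pos hg]

/-- the value of the functional of `J` on a character -/
theorem func_val {B J : Finset (G → ℂ)} (hirr : ∀ χ ∈ B, IsIrr χ) (hJB : J ⊆ B) {χ : G → ℂ}
    (hχ : χ ∈ B) [Decidable (χ ∈ J)] : bil (fun g => ∑ ψ ∈ J, ψ 1 * ψ g) χ =
      if χ ∈ J then χ 1 * (Fintype.card G : ℂ) else 0 := by
  have hirrJ : ∀ χ ∈ J, IsIrr χ := fun χ h => hirr χ (hJB h)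
  split_ifs with h
  · exact bil_coord hirrJ (fun ψ => ψ 1) h
  · exact pair_out hirrJ (fun ψ => ψ 1) (hirr χ hχ) h

/-- a nonnegative relation: if `χ ∉ J` then no character in `J` occurs in the relation -/
theorem rel_zero {p : ℕ} {B J : Finset (G → ℂ)} (hirr : ∀ χ ∈ B, IsIrr χ) (hJB : J ⊆ B)
    (hJS : VanSing p (fun g => ∑ χ ∈ J, χ 1 * χ g)) {T : Finset (G → ℂ)} (hTB : T ⊆ B)
    {χ : G → ℂ} (hχ : χ ∈ B) (hχJ : χ ∉ J) (c : (G → ℂ) → ℝ) (hc : ∀ ψ ∈ T, 0 ≤ c ψ)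
    (hrel : pres p χ = fun g => ∑ ψ ∈ T, (c ψ : ℂ) * pres p ψ g) :
    ∀ ψ ∈ T, ψ ∈ J → c ψ = 0 := by
  classical
  have h1 : bil (fun g => ∑ ψ ∈ J, ψ 1 * ψ g) (pres p χ) = 0 := by
    rw [bil_pres hJS, func_val hirr hJB hχ, if_neg hχJ]
  rw [hrel, bil_sum_right T (fun ψ => (c ψ : ℂ)) (fun ψ => pres p ψ)] at h1
  have hdeg : ∀ χ : G → ℂ, ∃ n : ℕ, χ ∈ B → (0 < n ∧ χ 1 = (n : ℂ)) := by
    intro χ
    by_cases hχ : χ ∈ B
    · obtain ⟨n, hn0, hn⟩ := (hirr χ hχ).degree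
      exact ⟨n, fun _ => ⟨hn0, hn⟩⟩
    · exact ⟨0, fun h => absurd h hχ⟩
  choose dg hdg using hdeg
  have h2 : ∀ ψ ∈ T, (c ψ : ℂ) * bil (fun g => ∑ ξ ∈ J, ξ 1 * ξ g) (pres p ψ) =
      (((c ψ * (if ψ ∈ J then (dg ψ : ℝ) * (Fintype.card G : ℝ) else 0) : ℝ)) : ℂ) := by
    intro ψ hψ
    rw [bil_pres hJS, func_val hirr hJB (hTB hψ)]
    split_ifs with h
    · rw [(hdg ψ (hTB hψ)).2]
      push_cast
      ring
    · simp
  rw [Finset.sum_congr rfl h2, ← Complex.ofReal_sum] at h1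
  have h3 : ∑ ψ ∈ T, c ψ * (if ψ ∈ J then (dg ψ : ℝ) * (Fintype.card G : ℝ) else 0) = 0 := by
    exact_mod_cast h1
  have h4 : ∀ ψ ∈ T, 0 ≤ c ψ * (if ψ ∈ J then (dg ψ : ℝ) * (Fintype.card G : ℝ) else 0) := by
    intro ψ hψ
    refine mul_nonneg (hc ψ hψ) ?_
    split_ifs
    · positivity
    · exact le_rfl
  intro ψ hψ hψJ
  have h5 := (Finset.sum_eq_zero_iff_of_nonneg h4).mp h3 ψ hψ
  rw [if_pos hψJ] at h5
  have h6 : (0 : ℝ) < (dg ψ : ℝ) * (Fintype.card G : ℝ) := by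
    have h7 : (0 : ℝ) < dg ψ := by exact_mod_cast (hdg ψ (hTB hψ)).1
    have h8 : (0 : ℝ) < Fintype.card G := by exact_mod_cast Fintype.card_pos
    positivity
  rcases mul_eq_zero.mp h5 with h | h
  · exact h
  · exact absurd h h6.ne'

theorem compl_vanSing {p : ℕ} (hp : p.Prime) {B J : Finset (G → ℂ)} (hB : IsBlock p B)
    (hJB : J ⊆ B) [DecidableEq (G → ℂ)] (hJS : VanSing p (fun g => ∑ χ ∈ J, χ 1 * χ g)) :
    VanSing p (fun g => ∑ χ ∈ B \ J, χ 1 * χ g) := by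
  intro g hg
  have h1 : ∑ χ ∈ B, χ 1 * χ g = 0 := hB.vanSing hp g hg
  have h2 : ∑ χ ∈ J, χ 1 * χ g = 0 := hJS g hg
  show ∑ χ ∈ B \ J, χ 1 * χ g = 0
  rw [← Finset.sum_sdiff hJB, h2, add_zero] at h1
  exact h1

theorem posconn_main {p : ℕ} (hp : p.Prime) {B : Finset (G → ℂ)} (hB : IsBlock p B)
    (hcon : ∀ χ ∈ B, ∀ ψ ∈ B, Relation.EqvGen (PosRel p B) χ ψ)
    (J : Finset (G → ℂ)) (hJ : J.Nonempty) (hJB : J ⊆ B)
    (hJS : VanSing p (fun g => ∑ χ ∈ J, χ 1 * χ g)) : J = B := by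
  classical
  have hirr : ∀ χ ∈ B, IsIrr χ := fun χ h => hB.isIrr h
  have hJS' := compl_vanSing hp hB hJB hJS
  have hstep : ∀ χ ψ : G → ℂ, PosRel p B χ ψ → (χ ∈ J ↔ ψ ∈ J) := by
    rintro χ ψ ⟨hχ, hψ, c, hc, hcψ, hrel⟩
    constructor
    · intro hχJ
      have h1 := rel_zero hirr Finset.sdiff_subset hJS' (Finset.Subset.refl B) hχ
        (fun h => (Finset.mem_sdiff.mp h).2 hχJ) c hc hrel
      by_contra hψJ
      exact hcψ.ne' (h1 ψ hψ (Finset.mem_sdiff.mpr ⟨hψ, hψJ⟩))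
    · intro hψJ
      by_contra hχJ
      have h1 := rel_zero hirr hJB hJS (Finset.Subset.refl B) hχ hχJ c hc hrel
      exact hcψ.ne' (h1 ψ hψ hψJ)
  have heqv : ∀ χ ψ : G → ℂ, Relation.EqvGen (PosRel p B) χ ψ → (χ ∈ J ↔ ψ ∈ J) := by
    intro χ ψ h
    induction h with
    | rel _ _ h => exact hstep _ _ h
    | refl _ => exact Iff.rfl
    | symm _ _ _ ih => exact ih.symm
    | trans _ _ _ _ _ ih1 ih2 => exact ih1.trans ih2
  obtain ⟨χ, hχ⟩ := hJ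
  refine Finset.Subset.antisymm hJB fun ψ hψ => ?_
  exact (heqv χ ψ (hcon χ (hJB hχ) ψ hψ)).mp hχ

/-- the step for simplicial cones -/
theorem cone_step {p : ℕ} (hp : p.Prime) {B : Finset (G → ℂ)} (hB : IsBlock p B)
    {X : Finset (G → ℂ)} (hXB : X ⊆ B)
    (hli : LinearIndependent ℂ (fun ψ : X => pres p (ψ : G → ℂ)))
    (c : (G → ℂ) → (G → ℂ) → ℝ) (hc : ∀ χ ∈ B, ∀ ψ ∈ X, 0 ≤ c χ ψ)
    (hrel : ∀ χ ∈ B, pres p χ = fun g => ∑ ψ ∈ X, (c χ ψ : ℂ) * pres p ψ g)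
    {J J' : Finset (G → ℂ)} (hJB : J ⊆ B) (hJB' : J' ⊆ B) (hd : ∀ χ ∈ J, χ ∉ J')
    (hu : ∀ χ ∈ B, χ ∉ J → χ ∈ J')
    (hJS : VanSing p (fun g => ∑ χ ∈ J, χ 1 * χ g))
    (hJS' : VanSing p (fun g => ∑ χ ∈ J', χ 1 * χ g)) {χ₀ ψ₀ : G → ℂ} (hχ₀ : χ₀ ∈ J)
    (hψ₀ : ψ₀ ∈ J') : ¬ Linked p χ₀ ψ₀ := by
  classical
  have hirr : ∀ χ ∈ B, IsIrr χ := fun χ h => hB.isIrr h
  have hG : (Fintype.card G : ℂ) ≠ 0 := core_card
  -- supports
  have hz : ∀ χ ∈ J', ∀ ψ ∈ X, ψ ∈ J → c χ ψ = 0 := by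
    intro χ hχ
    exact rel_zero hirr hJB hJS hXB (hJB' hχ) (fun h => hd χ h hχ) (c χ) (hc χ (hJB' hχ))
      (hrel χ (hJB' hχ))
  have hz' : ∀ χ ∈ J, ∀ ψ ∈ X, ψ ∈ J' → c χ ψ = 0 := by
    intro χ hχ
    exact rel_zero hirr hJB' hJS' hXB (hJB hχ) (hd χ hχ) (c χ) (hc χ (hJB hχ))
      (hrel χ (hJB hχ))
  -- the functions dual to the family
  have hPsi : ∀ ζ ∈ X, VanSing p (fun g => ∑ χ ∈ B, (c χ ζ : ℂ) * χ g) := by
    intro ζ hζ
    refine vanSing_of_orth hp hB (fun χ => (c χ ζ : ℂ)) fun f hf => ?_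
    obtain ⟨hfs, hfr⟩ := hf
    rw [Submodule.mem_span_finset] at hfs
    obtain ⟨y, -, hy⟩ := hfs
    have hy' : f = fun g => ∑ χ ∈ B, y χ * χ g := by
      rw [← hy]
      funext g
      simp
    -- the relation between the restrictions
    have h1 : ∑ ψ : X, (∑ χ ∈ B, y χ * (c χ ψ : ℂ)) • pres p (ψ : G → ℂ) = 0 := by
      funext g
      rw [Finset.sum_apply]
      simp only [Pi.smul_apply, smul_eq_mul, Pi.zero_apply]
      have h2 : ∑ ψ : X, (∑ χ ∈ B, y χ * (c χ ψ : ℂ)) * pres p (ψ : G → ℂ) g =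
          ∑ χ ∈ B, y χ * pres p χ g := by
        have h3 : ∑ ψ : X, (∑ χ ∈ B, y χ * (c χ ψ : ℂ)) * pres p (ψ : G → ℂ) g =
            ∑ ψ ∈ X, (∑ χ ∈ B, y χ * (c χ ψ : ℂ)) * pres p ψ g :=
          Finset.sum_coe_sort X (fun ψ => (∑ χ ∈ B, y χ * (c χ ψ : ℂ)) * pres p ψ g)
        rw [h3]
        simp only [Finset.sum_mul]
        rw [Finset.sum_comm]
        refine Finset.sum_congr rfl fun χ hχ => ?_
        rw [hrel χ hχ, Finset.mul_sum]
        exact Finset.sum_congr rfl fun ψ _ => by ring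
      rw [h2]
      by_cases hg : p ∣ orderOf g
      · refine Finset.sum_eq_zero fun χ _ => ?_
        unfold pres
        rw [if_pos hg, mul_zero]
      · have h4 := hfr g hg
        rw [hy'] at h4
        simp only at h4
        rw [← h4]
        refine Finset.sum_congr rfl fun χ _ => ?_
        unfold pres
        rw [if_neg hg]
    have h5 := (Fintype.linearIndependent_iff.mp hli) (fun ψ => ∑ χ ∈ B, y χ * (c χ ψ : ℂ)) h1
      ⟨ζ, hζ⟩
    have h5' : ∑ χ ∈ B, y χ * (c χ ζ : ℂ) = 0 := h5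
    rw [bil_sum_left B (fun χ => (c χ ζ : ℂ)) (fun χ => χ)]
    have h6 : ∀ χ ∈ B, (c χ ζ : ℂ) * bil χ f = (Fintype.card G : ℂ) * (y χ * (c χ ζ : ℂ)) := by
      intro χ hχ
      rw [bil_comm, hy', bil_coord hirr y hχ]
      ring
    rw [Finset.sum_congr rfl h6, ← Finset.mul_sum, h5', mul_zero]
  -- the numbers `h χ`
  set h : (G → ℂ) → ℂ := fun χ => bil (pres p χ₀) χ with hh
  have hhe : ∀ χ ∈ J', h χ = ∑ ζ ∈ X.filter (fun ζ => ζ ∈ J'), (c χ ζ : ℂ) *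
      bil (pres p χ₀) (pres p ζ) := by
    intro χ hχ
    have h1 : h χ = bil (pres p χ₀) (pres p χ) := (bil_pres (vanSing_pres p χ₀) χ).symm
    rw [h1, hrel χ (hJB' hχ), bil_sum_right X (fun ζ => (c χ ζ : ℂ)) (fun ζ => pres p ζ),
      Finset.sum_filter]
    refine Finset.sum_congr rfl fun ζ hζ => ?_
    split_ifs with h2
    · rfl
    · have h3 : ζ ∈ J := by
        by_contra h4
        exact h2 (hu ζ (hXB hζ) h4)
      rw [hz χ hχ ζ hζ h3]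
      simp
  have hort : ∀ ζ ∈ X, ζ ∈ J' → ∑ χ ∈ J', (c χ ζ : ℂ) * h χ = 0 := by
    intro ζ hζ hζJ'
    have h1 : bil (fun g => ∑ χ ∈ B, (c χ ζ : ℂ) * χ g) (pres p χ₀) = 0 := by
      rw [bil_pres (hPsi ζ hζ), bil_coord hirr (fun χ => (c χ ζ : ℂ)) (hJB hχ₀),
        hz' χ₀ hχ₀ ζ hζ hζJ']
      simp
    rw [bil_sum_left B (fun χ => (c χ ζ : ℂ)) (fun χ => χ)] at h1
    rw [← h1]
    refine Finset.sum_subset_zero_on_sdiff hJB' ?_ ?_
    · intro χ hχ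
      rw [Finset.mem_sdiff] at hχ
      have h2 : χ ∈ J := by
        by_contra h3
        exact hχ.2 (hu χ hχ.1 h3)
      rw [hz' χ h2 ζ hζ hζJ']
      simp
    · intro χ _
      rw [hh]
      simp only
      rw [bil_comm]
  have hnorm : ∑ χ ∈ J', (starRingEnd ℂ) (h χ) * h χ = 0 := by
    have h1 : ∀ χ ∈ J', (starRingEnd ℂ) (h χ) * h χ =
        ∑ ζ ∈ X.filter (fun ζ => ζ ∈ J'), (starRingEnd ℂ) (bil (pres p χ₀) (pres p ζ)) *
          ((c χ ζ : ℂ) * h χ) := by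
      intro χ hχ
      have h2 : (starRingEnd ℂ) (h χ) = ∑ ζ ∈ X.filter (fun ζ => ζ ∈ J'), (c χ ζ : ℂ) *
          (starRingEnd ℂ) (bil (pres p χ₀) (pres p ζ)) := by
        rw [hhe χ hχ, map_sum]
        refine Finset.sum_congr rfl fun ζ _ => ?_
        rw [map_mul, Complex.conj_ofReal]
      rw [h2, Finset.sum_mul]
      exact Finset.sum_congr rfl fun ζ _ => by ring
    rw [Finset.sum_congr rfl h1, Finset.sum_comm]
    refine Finset.sum_eq_zero fun ζ hζ => ?_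
    rw [Finset.mem_filter] at hζ
    rw [← Finset.mul_sum, hort ζ hζ.1 hζ.2, mul_zero]
  have hzero : h ψ₀ = 0 := by
    have h1 : ∀ χ : G → ℂ, (starRingEnd ℂ) (h χ) * h χ = ((Complex.normSq (h χ) : ℝ) : ℂ) := by
      intro χ
      rw [mul_comm, Complex.mul_conj]
    simp only [h1] at hnorm
    rw [← Complex.ofReal_sum] at hnorm
    have h2 : ∑ χ ∈ J', Complex.normSq (h χ) = 0 := by exact_mod_cast hnorm
    have h3 := (Finset.sum_eq_zero_iff_of_nonneg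
      (fun χ _ => Complex.normSq_nonneg (h χ))).mp h2 ψ₀ hψ₀
    exact Complex.normSq_eq_zero.mp h3
  rintro ⟨_, _, h15⟩
  apply h15
  have h16 : ∑ g : G, pres p χ₀ g * ψ₀ g⁻¹ = 0 := hzero
  rw [← h16, Finset.sum_filter]
  refine Finset.sum_congr rfl fun g _ => ?_
  unfold pres
  by_cases hg : p ∣ orderOf g
  · rw [if_pos hg, if_neg, zero_mul]
    intro h16
    have h17 := Nat.dvd_gcd hg (dvd_refl p)
    rw [h16.gcd_eq_one] at h17
    exact hp.one_lt.ne' (Nat.dvd_one.mp h17)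
  · rw [if_neg hg, if_pos]
    exact ((Nat.Prime.coprime_iff_not_dvd hp).mpr hg).symm

theorem simplicial_main {p : ℕ} (hp : p.Prime) {B : Finset (G → ℂ)} (hB : IsBlock p B)
    (hcone : SimplicialCone p B) (J : Finset (G → ℂ)) (hJ : J.Nonempty) (hJB : J ⊆ B)
    (hJS : VanSing p (fun g => ∑ χ ∈ J, χ 1 * χ g)) : J = B := by
  classical
  obtain ⟨X, hXB, hli, hcx⟩ := hcone
  have hcx' : ∀ χ : G → ℂ, ∃ c : (G → ℂ) → ℝ, χ ∈ B → ((∀ ψ ∈ X, 0 ≤ c ψ) ∧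
      pres p χ = fun g => ∑ ψ ∈ X, (c ψ : ℂ) * pres p ψ g) := by
    intro χ
    by_cases hχ : χ ∈ B
    · obtain ⟨c, hc⟩ := hcx χ hχ
      exact ⟨c, fun _ => hc⟩
    · exact ⟨fun _ => 0, fun h => absurd h hχ⟩
  choose c hc using hcx'
  have hJS' := compl_vanSing hp hB hJB hJS
  refine link_closed hB hJ hJB ?_ ?_
  · intro χ hχ ψ hψ hψJ
    exact cone_step hp hB hXB hli c (fun χ h => (hc χ h).1) (fun χ h => (hc χ h).2) hJB
      Finset.sdiff_subset (fun χ h h' => (Finset.mem_sdiff.mp h').2 h)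
      (fun χ h h' => Finset.mem_sdiff.mpr ⟨h, h'⟩) hJS hJS' hχ (Finset.mem_sdiff.mpr ⟨hψ, hψJ⟩)
  · intro χ hχ ψ hψ hψJ
    refine cone_step hp hB hXB hli c (fun χ h => (hc χ h).1) (fun χ h => (hc χ h).2)
      Finset.sdiff_subset hJB (fun χ h h' => (Finset.mem_sdiff.mp h).2 h') ?_ hJS' hJS
      (Finset.mem_sdiff.mpr ⟨hψ, hψJ⟩) hχ
    intro χ h h'
    by_contra h''
    exact h' (Finset.mem_sdiff.mpr ⟨h, h''⟩)

end Pool.Agent.Har
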